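import Pool.Agent.H535.AK.Hs
import Pool.Agent.H535.AW.Bd

set_option autoImplicit false

/-!
Sums of the sieve weights over the integers coprime to `s`: the two inequalities of Mertens type.
-/

open Finset

namespace Pool.Agent.H535.AK

/-- a sieve problem of dimension `κ`: `w p < p` classes modulo `p`, boundedly many, `κ` on average -/
structure Dim (w : ℕ → ℕ) (κ : ℕ) (A : ℝ) : Prop where
  lt : ∀ p : ℕ, p.Prime → w p < p
  le : ∀ p : ℕ, p.Prime → (w p : ℝ) ≤ A
  mer : ∀ N : ℕ, 1 ≤ N →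
    |∑ p ∈ (Icc 1 N).filter Nat.Prime, (w p : ℝ) * (Real.log p / p) - κ * Real.log N| ≤ A

variable {w : ℕ → ℕ} {κ : ℕ} {A : ℝ}

theorem Dim.nonneg (h : Dim w κ A) : 0 ≤ A := (Nat.cast_nonneg (w 2)).trans (h.le 2 Nat.prime_two)

theorem Dim.inv (h : Dim w κ A) (p : ℕ) (hp : p.Prime) :
    0 < (p : ℝ) - w p ∧ 1 / ((p : ℝ) - w p) ≤ (A + 1) / p := by
  have h1 : (w p : ℝ) + 1 ≤ p := by exact_mod_cast h.lt p hp
  have h2 := h.le p hp
  have hp0 : (0 : ℝ) < p := by exact_mod_cast hp.pos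
  have hw0 : (0 : ℝ) ≤ w p := Nat.cast_nonneg _
  refine ⟨by linarith, ?_⟩
  rw [div_le_div_iff₀ (by linarith) hp0]
  have h3 : (w p : ℝ) * (w p + 1) ≤ A * (p - w p) + w p * w p := by
    have a1 : (w p : ℝ) * 1 ≤ A * (p - w p) := mul_le_mul h2 (by linarith) (by norm_num) h.nonneg
    nlinarith
  nlinarith

theorem Dim.g_le (h : Dim w κ A) (p : ℕ) (hp : p.Prime) : g w p ≤ A * (A + 1) / p := by
  unfold g
  obtain ⟨h1, h2⟩ := h.inv p hp
  calc (w p : ℝ) / ((p : ℝ) - w p) = w p * (1 / ((p : ℝ) - w p)) := by ring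
    _ ≤ A * ((A + 1) / p) := mul_le_mul (h.le p hp) h2 (by positivity) h.nonneg
    _ = A * (A + 1) / p := by ring

theorem Dim.g_dev (h : Dim w κ A) (p : ℕ) (hp : p.Prime) :
    (w p : ℝ) / p ≤ g w p ∧ g w p ≤ (w p : ℝ) / p + A ^ 2 * (A + 1) / (p : ℝ) ^ 2 := by
  obtain ⟨h1, h2⟩ := h.inv p hp
  have hp0 : (0 : ℝ) < p := by exact_mod_cast hp.pos
  have hw0 : (0 : ℝ) ≤ w p := Nat.cast_nonneg _
  have hA := h.nonneg
  constructor
  · unfold g
    exact div_le_div_of_nonneg_left hw0 h1 (by linarith)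
  · have e1 : g w p = (w p : ℝ) / p + (w p : ℝ) * w p * (1 / ((p : ℝ) - w p)) / p := by
      unfold g
      field_simp
      ring
    rw [e1]
    have h3 : (w p : ℝ) * w p * (1 / ((p : ℝ) - w p)) ≤ A * A * ((A + 1) / p) :=
      mul_le_mul (mul_le_mul (h.le p hp) (h.le p hp) hw0 hA) h2 (by positivity) (by positivity)
    have h4 := div_le_div_of_nonneg_right h3 hp0.le
    have e2 : A * A * ((A + 1) / p) / (p : ℝ) = A ^ 2 * (A + 1) / (p : ℝ) ^ 2 := by
      field_simp
    linarith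

/-- the sum of `g p log p` over the primes dividing `s` -/
noncomputable def gs (w : ℕ → ℕ) (s : ℕ) : ℝ := ∑ p ∈ s.primeFactors, g w p * Real.log p

theorem log_sq_sum : ∃ C : ℝ, 0 ≤ C ∧ ∀ N : ℕ,
    ∑ p ∈ (Icc 1 N).filter Nat.Prime, Real.log p / (p : ℝ) ^ 2 ≤ C := by
  obtain ⟨Ca, ha0, ha⟩ := Pool.Agent.Erdos456.Mert.sum_small_bound
  refine ⟨Ca, ha0, fun N => ?_⟩
  refine le_trans (sum_le_sum fun p hp => ?_) (ha N)
  rw [mem_filter] at hp
  have h2 : (2 : ℝ) ≤ p := by exact_mod_cast hp.2.two_le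
  have h5 : 0 ≤ Real.log p := Real.log_nonneg (by linarith)
  refine div_le_div_of_nonneg_left h5 (mul_pos (by linarith) (by linarith)) ?_
  nlinarith

theorem MM_bounds (h : Dim w κ A) : ∃ C : ℝ, 0 ≤ C ∧ (∀ N : ℕ, 1 ≤ N →
    ∑ p ∈ (Icc 1 N).filter Nat.Prime, g w p * Real.log p ≤ κ * Real.log N + C ∧
    κ * Real.log N - C ≤ ∑ p ∈ (Icc 1 N).filter Nat.Prime, g w p * Real.log p) ∧
    (∀ N : ℕ, ∑ p ∈ (Icc 1 N).filter Nat.Prime, g w p * (g w p * Real.log p) ≤ C) := by
  obtain ⟨Ca, ha0, ha⟩ := log_sq_sum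
  have hA := h.nonneg
  refine ⟨A + (A ^ 2 * (A + 1)) * Ca + (A * (A + 1)) ^ 2 * Ca, by positivity, fun N hN => ?_, fun N => ?_⟩
  · have h1 := abs_le.1 (h.mer N hN)
    have h2 : ∑ p ∈ (Icc 1 N).filter Nat.Prime, (w p : ℝ) * (Real.log p / p) ≤
        ∑ p ∈ (Icc 1 N).filter Nat.Prime, g w p * Real.log p := by
      refine sum_le_sum fun p hp => ?_
      rw [mem_filter] at hp
      have h2 : (2 : ℝ) ≤ p := by exact_mod_cast hp.2.two_le
      have h3 := mul_le_mul_of_nonneg_right (h.g_dev p hp.2).1 (Real.log_nonneg (by linarith : (1 : ℝ) ≤ p))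
      refine le_trans (le_of_eq ?_) h3
      ring
    have h3 : ∑ p ∈ (Icc 1 N).filter Nat.Prime, g w p * Real.log p ≤
        ∑ p ∈ (Icc 1 N).filter Nat.Prime, (w p : ℝ) * (Real.log p / p) +
        (A ^ 2 * (A + 1)) * ∑ p ∈ (Icc 1 N).filter Nat.Prime, Real.log p / (p : ℝ) ^ 2 := by
      rw [mul_sum, ← sum_add_distrib]
      refine sum_le_sum fun p hp => ?_
      rw [mem_filter] at hp
      have h2 : (2 : ℝ) ≤ p := by exact_mod_cast hp.2.two_le
      have h3 := mul_le_mul_of_nonneg_right (h.g_dev p hp.2).2 (Real.log_nonneg (by linarith : (1 : ℝ) ≤ p))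
      refine h3.trans (le_of_eq ?_)
      ring
    have h4 : (A ^ 2 * (A + 1)) * ∑ p ∈ (Icc 1 N).filter Nat.Prime, Real.log p / (p : ℝ) ^ 2 ≤
        (A ^ 2 * (A + 1)) * Ca := mul_le_mul_of_nonneg_left (ha N) (by positivity)
    have h5 : 0 ≤ (A * (A + 1)) ^ 2 * Ca := by positivity
    have h6 : 0 ≤ (A ^ 2 * (A + 1)) * Ca := by positivity
    constructor
    · linarith [h1.1, h1.2]
    · linarith [h1.1, h1.2]
  · have h1 : ∑ p ∈ (Icc 1 N).filter Nat.Prime, g w p * (g w p * Real.log p) ≤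
        (A * (A + 1)) ^ 2 * ∑ p ∈ (Icc 1 N).filter Nat.Prime, Real.log p / (p : ℝ) ^ 2 := by
      rw [mul_sum]
      refine sum_le_sum fun p hp => ?_
      rw [mem_filter] at hp
      have h2 : (2 : ℝ) ≤ p := by exact_mod_cast hp.2.two_le
      have h3 := h.g_le p hp.2
      have h4 := g_nonneg h.lt p hp.2
      have h5 : g w p * g w p ≤ (A * (A + 1) / p) * (A * (A + 1) / p) :=
        mul_le_mul h3 h3 h4 (h4.trans h3)
      have h6 := mul_le_mul_of_nonneg_right h5 (Real.log_nonneg (by linarith : (1 : ℝ) ≤ p))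
      calc g w p * (g w p * Real.log p) = g w p * g w p * Real.log p := by ring
        _ ≤ (A * (A + 1) / p) * (A * (A + 1) / p) * Real.log p := h6
        _ = (A * (A + 1)) ^ 2 * (Real.log p / (p : ℝ) ^ 2) := by
            field_simp
    have h2 := mul_le_mul_of_nonneg_left (ha N) (by positivity : 0 ≤ (A * (A + 1)) ^ 2)
    have h6 : 0 ≤ (A ^ 2 * (A + 1)) * Ca := by positivity
    linarith

theorem gs_nonneg (hw : ∀ p : ℕ, p.Prime → w p < p) (s : ℕ) : 0 ≤ gs w s := by
  unfold gs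
  refine sum_nonneg fun p hp => ?_
  have hpp := Nat.prime_of_mem_primeFactors hp
  have h2 : (2 : ℝ) ≤ p := by exact_mod_cast hpp.two_le
  exact mul_nonneg (g_nonneg hw p hpp) (Real.log_nonneg (by linarith))

/-- the two inequalities -/
theorem LI_bounds (h : Dim w κ A) : ∃ C : ℝ, 1 ≤ C ∧ ∀ s : ℕ, 1 ≤ s → ∀ y : ℝ, 1 ≤ y →
    Ls w s y * (Real.log y - C) ≤ (κ + 1) * Is w s y ∧
      (κ + 1) * Is w s y ≤ Ls w s y * (Real.log y + C + gs w s) := by
  obtain ⟨C, hC0, hC1, hC2⟩ := MM_bounds h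
  have hκ : (0 : ℝ) ≤ κ := Nat.cast_nonneg _
  refine ⟨2 * C + κ + 1, by linarith, fun s hs1 y hy => ?_⟩
  have hw := h.lt
  have hL0 : 0 ≤ Ls w s y := sum_nonneg fun t _ => hs_nonneg hw s t
  have hid := log_identity (w := w) s y hy
  have hgl : ∀ p : ℕ, p.Prime → 0 ≤ g w p * Real.log p := by
    intro p hp
    have h2 : (2 : ℝ) ≤ p := by exact_mod_cast hp.two_le
    exact mul_nonneg (g_nonneg hw p hp) (Real.log_nonneg (by linarith))
  have hfl : ∀ t ∈ Icc 1 ⌊y⌋₊, 1 ≤ ⌊y⌋₊ / t ∧ (0 : ℝ) < t ∧ 1 ≤ y / t ∧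
      (((⌊y⌋₊ / t : ℕ) : ℕ) : ℝ) ≤ y / t ∧ y / t / 2 ≤ ((⌊y⌋₊ / t : ℕ) : ℝ) := by
    intro t ht
    rw [mem_Icc] at ht
    have ht0 : (0 : ℝ) < t := by exact_mod_cast ht.1
    have h1 : (t : ℝ) ≤ y := (by exact_mod_cast ht.2 : (t : ℝ) ≤ (⌊y⌋₊ : ℝ)).trans (Nat.floor_le (by linarith))
    have h2 : 1 ≤ y / t := by rwa [le_div_iff₀ ht0, one_mul]
    have h3 : ⌊y⌋₊ / t = ⌊y / t⌋₊ := (Nat.floor_div_natCast y t).symm
    refine ⟨?_, ht0, h2, ?_, ?_⟩
    · rw [Nat.le_div_iff_mul_le (by omega)]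
      omega
    · rw [h3]
      exact Nat.floor_le (by linarith)
    · rw [h3]
      exact Pool.Agent.H535.AW.floor_half _ h2
  constructor
  · -- upper bound
    have h1 : ∑ t ∈ Icc 1 ⌊y⌋₊, hs w s t *
        ∑ p ∈ (Icc 1 (⌊y⌋₊ / t)).filter (fun p => p.Prime ∧ ¬ p ∣ t), hs w s p * Real.log p ≤
        ∑ t ∈ Icc 1 ⌊y⌋₊, hs w s t * (κ * Real.log (y / t) + C) := by
      refine sum_le_sum fun t ht => mul_le_mul_of_nonneg_left ?_ (hs_nonneg hw s t)
      obtain ⟨f1, f2, f3, f4, f5⟩ := hfl t ht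
      calc ∑ p ∈ (Icc 1 (⌊y⌋₊ / t)).filter (fun p => p.Prime ∧ ¬ p ∣ t), hs w s p * Real.log p
          ≤ ∑ p ∈ (Icc 1 (⌊y⌋₊ / t)).filter (fun p => p.Prime ∧ ¬ p ∣ t), g w p * Real.log p := by
            refine sum_le_sum fun p hp => ?_
            rw [mem_filter] at hp
            have h2 : (2 : ℝ) ≤ p := by exact_mod_cast hp.2.1.two_le
            exact mul_le_mul_of_nonneg_right (hs_prime_le hw s p hp.2.1)
              (Real.log_nonneg (by linarith : (1 : ℝ) ≤ p))
        _ ≤ ∑ p ∈ (Icc 1 (⌊y⌋₊ / t)).filter Nat.Prime, g w p * Real.log p := by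
            refine sum_le_sum_of_subset_of_nonneg ?_ ?_
            · intro p hp
              rw [mem_filter] at hp ⊢
              exact ⟨hp.1, hp.2.1⟩
            · intro p hp _
              rw [mem_filter] at hp
              exact hgl p hp.2
        _ ≤ κ * Real.log ((⌊y⌋₊ / t : ℕ) : ℝ) + C := (hC1 _ f1).1
        _ ≤ κ * Real.log (y / t) + C := by
            have : Real.log ((⌊y⌋₊ / t : ℕ) : ℝ) ≤ Real.log (y / t) :=
              Real.log_le_log (by exact_mod_cast f1) f4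
            have := mul_le_mul_of_nonneg_left this hκ
            linarith
    have h2 : ∑ t ∈ Icc 1 ⌊y⌋₊, hs w s t * (κ * Real.log (y / t) + C) = κ * Is w s y + C * Ls w s y := by
      unfold Is Ls
      rw [mul_sum, mul_sum, ← sum_add_distrib]
      refine sum_congr rfl fun t _ => ?_
      ring
    rw [h2, ← hid] at h1
    have h3 : 0 ≤ (C + κ + 1) * Ls w s y := by positivity
    linarith only [h1, h3, (by ring : Ls w s y * (Real.log y - (2 * C + κ + 1)) =
      Ls w s y * Real.log y - C * Ls w s y - (C + κ + 1) * Ls w s y)]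
  · -- lower bound
    have h1 : ∀ t ∈ Icc 1 ⌊y⌋₊, κ * Real.log (y / t) - κ - C - gs w s ≤
        ∑ p ∈ (Icc 1 (⌊y⌋₊ / t)).filter (fun p => p.Prime ∧ ¬ p ∣ t), hs w s p * Real.log p +
        ∑ p ∈ t.primeFactors, g w p * Real.log p := by
      intro t ht
      obtain ⟨f1, f2, f3, f4, f5⟩ := hfl t ht
      have ht1 := (mem_Icc.1 ht).1
      have g1 : κ * Real.log (y / t) - κ ≤ κ * Real.log ((⌊y⌋₊ / t : ℕ) : ℝ) := by
        have g0 : Real.log (y / t) - Real.log 2 ≤ Real.log ((⌊y⌋₊ / t : ℕ) : ℝ) := by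
          rw [← Real.log_div (by linarith) (by norm_num)]
          exact Real.log_le_log (by linarith) f5
        have h6 : Real.log 2 ≤ 1 := by
          have := Real.log_two_lt_d9
          linarith
        have := mul_le_mul_of_nonneg_left (by linarith : Real.log (y / t) - 1 ≤
          Real.log ((⌊y⌋₊ / t : ℕ) : ℝ)) hκ
        linarith
      have g2 := (hC1 _ f1).2
      have g3 : ∑ p ∈ (Icc 1 (⌊y⌋₊ / t)).filter Nat.Prime, g w p * Real.log p ≤
          ∑ p ∈ (Icc 1 (⌊y⌋₊ / t)).filter (fun p => p.Prime ∧ ¬ p ∣ t), hs w s p * Real.log p +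
          ∑ p ∈ t.primeFactors, g w p * Real.log p + gs w s := by
        have q1 : ∑ p ∈ (Icc 1 (⌊y⌋₊ / t)).filter Nat.Prime, g w p * Real.log p ≤
            ∑ p ∈ (Icc 1 (⌊y⌋₊ / t)).filter Nat.Prime,
              ((if ¬ p ∣ t then hs w s p * Real.log p else 0) +
              (if p ∣ t then g w p * Real.log p else 0) +
              (if p ∣ s then g w p * Real.log p else 0)) := by
          refine sum_le_sum fun p hp => ?_
          rw [mem_filter] at hp
          have h2 : (2 : ℝ) ≤ p := by exact_mod_cast hp.2.two_le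
          have h3 : 0 ≤ g w p * Real.log p := hgl p hp.2
          have h4 : 0 ≤ hs w s p * Real.log p := mul_nonneg (hs_nonneg hw s p) (Real.log_nonneg (by linarith))
          by_cases a1 : p ∣ t
          · by_cases a2 : p ∣ s
            · simp only [a1, a2, not_true_eq_false, if_false, if_true]; linarith
            · simp only [a1, a2, not_true_eq_false, if_false, if_true]; linarith
          · by_cases a2 : p ∣ s
            · simp only [a1, a2, not_false_eq_true, if_false, if_true]; linarith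
            · simp only [a1, a2, not_false_eq_true, if_false, if_true]
              rw [hs_prime_eq s p hp.2 a2]
              linarith
        rw [sum_add_distrib, sum_add_distrib] at q1
        have q2 : ∑ p ∈ (Icc 1 (⌊y⌋₊ / t)).filter Nat.Prime, (if ¬ p ∣ t then hs w s p * Real.log p else 0) =
            ∑ p ∈ (Icc 1 (⌊y⌋₊ / t)).filter (fun p => p.Prime ∧ ¬ p ∣ t), hs w s p * Real.log p := by
          rw [← sum_filter, filter_filter]
        have q3 : ∀ m : ℕ, 1 ≤ m → ∑ p ∈ (Icc 1 (⌊y⌋₊ / t)).filter Nat.Prime,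
            (if p ∣ m then g w p * Real.log p else 0) ≤
            ∑ p ∈ m.primeFactors, g w p * Real.log p := by
          intro m hm
          rw [← sum_filter]
          refine sum_le_sum_of_subset_of_nonneg ?_ ?_
          · intro p hp
            rw [mem_filter, mem_filter] at hp
            exact Nat.mem_primeFactors.2 ⟨hp.1.2, hp.2, by omega⟩
          · intro p hp _
            exact hgl p (Nat.prime_of_mem_primeFactors hp)
        have q4 := q3 t ht1
        have q5 := q3 s hs1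
        unfold gs
        rw [q2] at q1
        linarith
      linarith
    have h2 : ∑ t ∈ Icc 1 ⌊y⌋₊, hs w s t * (κ * Real.log (y / t) - κ - C - gs w s) ≤
        ∑ t ∈ Icc 1 ⌊y⌋₊, hs w s t * (∑ p ∈ (Icc 1 (⌊y⌋₊ / t)).filter (fun p => p.Prime ∧ ¬ p ∣ t),
          hs w s p * Real.log p + ∑ p ∈ t.primeFactors, g w p * Real.log p) :=
      sum_le_sum fun t ht => mul_le_mul_of_nonneg_left (h1 t ht) (hs_nonneg hw s t)
    have h3 : ∑ t ∈ Icc 1 ⌊y⌋₊, hs w s t * (κ * Real.log (y / t) - κ - C - gs w s) =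
        κ * Is w s y - (κ + C + gs w s) * Ls w s y := by
      unfold Is Ls
      rw [mul_sum, mul_sum, ← sum_sub_distrib]
      refine sum_congr rfl fun t _ => ?_
      ring
    have h4 : ∑ t ∈ Icc 1 ⌊y⌋₊, hs w s t * ∑ p ∈ t.primeFactors, g w p * Real.log p ≤ C * Ls w s y := by
      rw [swap, mul_comm]
      unfold Ls
      rw [sum_mul]
      refine sum_le_sum fun t _ => mul_le_mul_of_nonneg_left ?_ (hs_nonneg hw s t)
      refine le_trans ?_ (hC2 (⌊y⌋₊ / t))
      calc ∑ p ∈ (Icc 1 (⌊y⌋₊ / t)).filter (fun p => p.Prime ∧ ¬ p ∣ t),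
            hs w s p * (g w p * Real.log p)
          ≤ ∑ p ∈ (Icc 1 (⌊y⌋₊ / t)).filter (fun p => p.Prime ∧ ¬ p ∣ t),
            g w p * (g w p * Real.log p) := by
            refine sum_le_sum fun p hp => ?_
            rw [mem_filter] at hp
            exact mul_le_mul_of_nonneg_right (hs_prime_le hw s p hp.2.1) (hgl p hp.2.1)
        _ ≤ ∑ p ∈ (Icc 1 (⌊y⌋₊ / t)).filter Nat.Prime, g w p * (g w p * Real.log p) := by
            refine sum_le_sum_of_subset_of_nonneg ?_ ?_
            · intro p hp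
              rw [mem_filter] at hp ⊢
              exact ⟨hp.1, hp.2.1⟩
            · intro p hp _
              rw [mem_filter] at hp
              exact mul_nonneg (g_nonneg hw p hp.2) (hgl p hp.2)
    have h5 : ∑ t ∈ Icc 1 ⌊y⌋₊, hs w s t * (∑ p ∈ (Icc 1 (⌊y⌋₊ / t)).filter (fun p => p.Prime ∧ ¬ p ∣ t),
          hs w s p * Real.log p + ∑ p ∈ t.primeFactors, g w p * Real.log p) =
        (Ls w s y * Real.log y - Is w s y) +
        ∑ t ∈ Icc 1 ⌊y⌋₊, hs w s t * ∑ p ∈ t.primeFactors, g w p * Real.log p := by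
      rw [hid, ← sum_add_distrib]
      refine sum_congr rfl fun t _ => ?_
      ring
    rw [h3, h5] at h2
    linarith only [h2, h4, hL0, (by ring : Ls w s y * (Real.log y + (2 * C + κ + 1) + gs w s) =
      Ls w s y * Real.log y + 2 * C * Ls w s y + κ * Ls w s y + Ls w s y + gs w s * Ls w s y),
      (by ring : (κ + C + gs w s) * Ls w s y = κ * Ls w s y + C * Ls w s y + gs w s * Ls w s y),
      (by ring : ((κ : ℝ) + 1) * Is w s y = κ * Is w s y + Is w s y)]

/-- the size of `gs` -/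
theorem gs_le (h : Dim w κ A) : ∃ C : ℝ, 0 ≤ C ∧ ∀ s z : ℕ, 1 ≤ s → 1 ≤ z →
    gs w s ≤ κ * Real.log z + C + C * (Real.log s / z) := by
  obtain ⟨C, hC0, hC1, _⟩ := MM_bounds h
  have hA := h.nonneg
  have hAA : 0 ≤ A * (A + 1) := by positivity
  refine ⟨C + A * (A + 1), by positivity, fun s z hs1 hz => ?_⟩
  have hz0 : (0 : ℝ) < z := by exact_mod_cast hz
  have h1 := (hC1 z hz).1
  have hgl : ∀ p : ℕ, p.Prime → 0 ≤ g w p * Real.log p := by
    intro p hp
    have h2 : (2 : ℝ) ≤ p := by exact_mod_cast hp.two_le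
    exact mul_nonneg (g_nonneg h.lt p hp) (Real.log_nonneg (by linarith))
  have h2 : gs w s ≤ ∑ p ∈ (Icc 1 z).filter Nat.Prime, g w p * Real.log p +
      ∑ p ∈ s.primeFactors, (A * (A + 1)) * (Real.log p / z) := by
    unfold gs
    rw [← sum_filter_add_sum_filter_not s.primeFactors (fun p => p ≤ z)
      (fun p : ℕ => g w p * Real.log p)]
    refine add_le_add ?_ ?_
    · refine sum_le_sum_of_subset_of_nonneg ?_ ?_
      · intro p hp
        rw [mem_filter] at hp ⊢
        have := Nat.prime_of_mem_primeFactors hp.1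
        exact ⟨mem_Icc.2 ⟨this.pos, hp.2⟩, this⟩
      · intro p hp _
        rw [mem_filter] at hp
        exact hgl p hp.2
    · calc ∑ p ∈ s.primeFactors.filter (fun p => ¬ p ≤ z), g w p * Real.log p
          ≤ ∑ p ∈ s.primeFactors.filter (fun p => ¬ p ≤ z), (A * (A + 1)) * (Real.log p / z) := by
            refine sum_le_sum fun p hp => ?_
            rw [mem_filter] at hp
            have h3 := (Nat.prime_of_mem_primeFactors hp.1)
            have h2 : (2 : ℝ) ≤ p := by exact_mod_cast h3.two_le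
            have h4 : (z : ℝ) ≤ p := by
              have : z ≤ p := by omega
              exact_mod_cast this
            have h5 : g w p ≤ A * (A + 1) / z :=
              (h.g_le p h3).trans (div_le_div_of_nonneg_left hAA hz0 h4)
            have h6 := mul_le_mul_of_nonneg_right h5 (Real.log_nonneg (by linarith : (1 : ℝ) ≤ p))
            refine h6.trans (le_of_eq ?_)
            ring
        _ ≤ ∑ p ∈ s.primeFactors, (A * (A + 1)) * (Real.log p / z) := by
            refine sum_le_sum_of_subset_of_nonneg (filter_subset _ _) ?_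
            intro p hp _
            have h2 : (2 : ℝ) ≤ p := by exact_mod_cast (Nat.prime_of_mem_primeFactors hp).two_le
            exact mul_nonneg hAA (div_nonneg (Real.log_nonneg (by linarith)) hz0.le)
  have h3 : ∑ p ∈ s.primeFactors, Real.log p ≤ Real.log s := by
    have e1 : ∑ p ∈ s.primeFactors, Real.log p = Real.log (∏ p ∈ s.primeFactors, p : ℕ) := by
      rw [Nat.cast_prod, Real.log_prod]
      intro p hp
      exact_mod_cast (Nat.prime_of_mem_primeFactors hp).ne_zero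
    rw [e1]
    have h4 : (∏ p ∈ s.primeFactors, p) ≤ s := Nat.le_of_dvd (by omega) (Nat.prod_primeFactors_dvd s)
    have h5 : 0 < ∏ p ∈ s.primeFactors, p := prod_pos fun p hp => (Nat.prime_of_mem_primeFactors hp).pos
    exact Real.log_le_log (by exact_mod_cast h5) (by exact_mod_cast h4)
  rw [← mul_sum, ← sum_div] at h2
  have h4 := mul_le_mul_of_nonneg_left (div_le_div_of_nonneg_right h3 hz0.le) hAA
  have h5 : 0 ≤ C * (Real.log s / z) := by
    have : 0 ≤ Real.log s := Real.log_nonneg (by exact_mod_cast hs1)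
    positivity
  linarith only [h1, h2, h4, h5, hAA, (by ring : (C + A * (A + 1)) * (Real.log s / z) =
    C * (Real.log s / z) + A * (A + 1) * (Real.log s / z))]

end Pool.Agent.H535.AK
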