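import Pool.Graph.R_seed8.H304R2.EC.MertAbs
import Pool.Graph.R_seed8.Helper919.Stage0

set_option autoImplicit false

/-!
Mertens sums of a quadratic character with a bounded error.  (`xx_approx`, `xx_tendsto` and `mert_xx` are
copied from the library file `H912R3/QM/Mert` in order to have few imports.)
-/

namespace Pool.Agent.H535.AK.Chi

open Finset ArithmeticFunction Filter Topology Pool.Agent.Helper919
open scoped ArithmeticFunction.zeta

/-- (adapted from `stage0_exists` of helper919) -/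
theorem xx_approx (n : ℤ) (hn : n ≠ 0) (hsq : ¬ IsSquare n) (L : ℝ)
    (hL : Tendsto (fun N : ℕ => (∑ m ∈ Ioc 0 N, (XX n * (ζ : ArithmeticFunction ℝ)) m) / (N : ℝ))
      atTop (𝓝 L)) (D : ℕ) :
    |L - ∑ d ∈ Ioc 0 D, XX n d * (1 / (d : ℝ))| ≤ (8 * n.natAbs : ℝ) / (D + 1) := by
  set B : ℝ := 8 * n.natAbs with hBdef
  have hB0 : 0 ≤ B := by positivity
  have hDpos : (0 : ℝ) < D + 1 := by positivity
  have h1 : Tendsto (fun N : ℕ => (∑ d ∈ Ioc 0 D, XX n d * ((N / d : ℕ) : ℝ)) / (N : ℝ)) atTop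
        (𝓝 (∑ d ∈ Ioc 0 D, XX n d * (1 / (d : ℝ)))) := by
    have h1 : Tendsto (fun N : ℕ => ∑ d ∈ Ioc 0 D, XX n d * (((N / d : ℕ) : ℝ) / (N : ℝ))) atTop
        (𝓝 (∑ d ∈ Ioc 0 D, XX n d * (1 / (d : ℝ)))) := by
      apply tendsto_finsetSum
      intro d hd
      exact (isWt_id.lim d (Finset.mem_Ioc.1 hd).1).const_mul _
    refine h1.congr fun N => ?_
    rw [Finset.sum_div]
    refine Finset.sum_congr rfl fun d _ => ?_
    ring
  have h2 := (hL.sub h1).abs
  refine le_of_tendsto h2 ?_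
  filter_upwards [eventually_ge_atTop (D + 1)] with N hN
  have hNpos : (0 : ℝ) < N := by exact_mod_cast (by omega : 0 < N)
  rw [sum_Ioc_mul_zeta_eq_sum (XX n) N]
  rw [← sub_div]
  have hsplit : ∑ d ∈ Ioc 0 N, XX n d * ((N / d : ℕ) : ℝ) - ∑ d ∈ Ioc 0 D, XX n d * ((N / d : ℕ) : ℝ)
      = ∑ d ∈ Ioc D N, XX n d * ((N / d : ℕ) : ℝ) := by
    rw [sub_eq_iff_eq_add, add_comm]
    rw [Finset.sum_Ioc_consecutive _ (Nat.zero_le D) (by omega)]
  rw [hsplit, abs_div, abs_of_pos hNpos, div_le_iff₀ hNpos]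
  have hS : ∀ M, D ≤ M → |∑ d ∈ Ioc D M, XX n d| ≤ B := by
    intro M hM
    have h1 := XX_sum_bound n hn hsq M
    have h2 := XX_sum_bound n hn hsq D
    have h3 : ∑ d ∈ Ioc D M, XX n d = ∑ d ∈ Ioc 0 M, XX n d - ∑ d ∈ Ioc 0 D, XX n d := by
      rw [eq_sub_iff_add_eq, add_comm, Finset.sum_Ioc_consecutive _ (Nat.zero_le D) hM]
    rw [h3, hBdef]
    rw [abs_le] at h1 h2 ⊢
    constructor <;> linarith [h1.1, h1.2, h2.1, h2.2]
  have h4 := Pool.Agent.Helper919.abel_bound (fun d => XX n d) (fun d => ((N / d : ℕ) : ℝ)) D B hS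
    (fun d _ => Nat.cast_nonneg _)
    (fun d hd => by
      have : N / (d + 1) ≤ N / d := Nat.div_le_div_left (by omega) (by omega)
      exact_mod_cast this) N hN
  refine h4.trans ?_
  have h5 : ((N / (D + 1) : ℕ) : ℝ) ≤ (N : ℝ) / (D + 1) := by
    have := @Nat.cast_div_le ℝ _ _ _ N (D + 1)
    push_cast at this
    exact this
  calc B * ((N / (D + 1) : ℕ) : ℝ) ≤ B * ((N : ℝ) / (D + 1)) := mul_le_mul_of_nonneg_left h5 hB0
    _ = B / (D + 1) * N := by ring

theorem xx_tendsto (n : ℤ) (hn : n ≠ 0) (hsq : ¬ IsSquare n) : ∃ L : ℝ, L ≠ 0 ∧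
    Tendsto (fun N : ℕ => ∑ d ∈ Icc 1 N, XX n d / (d : ℝ)) atTop (𝓝 L) := by
  obtain ⟨L, hL0, hL⟩ := stage0_nonsquare n hn hsq
  refine ⟨L, hL0.ne', ?_⟩
  rw [tendsto_iff_norm_sub_tendsto_zero]
  have h0 : Tendsto (fun N : ℕ => (8 * n.natAbs : ℝ) / ((N : ℝ) + 1)) atTop (𝓝 0) :=
    tendsto_const_nhds.div_atTop (tendsto_atTop_add_const_right _ _ tendsto_natCast_atTop_atTop)
  refine squeeze_zero (fun _ => norm_nonneg _) (fun N => ?_) h0
  have h1 := xx_approx n hn hsq L hL N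
  have h2 : ∑ d ∈ Icc 1 N, XX n d / (d : ℝ) = ∑ d ∈ Ioc 0 N, XX n d * (1 / (d : ℝ)) := by
    apply Finset.sum_congr
    · ext d
      simp only [Finset.mem_Icc, Finset.mem_Ioc]
      omega
    · intro d _
      rw [mul_one_div]
  rw [h2, Real.norm_eq_abs, abs_sub_comm]
  exact h1

/-- Mertens for the character -/
theorem mert_xx (n : ℤ) (hn : n ≠ 0) (hsq : ¬ IsSquare n) : ∃ C' : ℝ, ∀ N : ℕ,
    |∑ d ∈ Icc 1 N, ArithmeticFunction.vonMangoldt d * XX n d / d| ≤ C' := by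
  obtain ⟨L, hL0, hL⟩ := xx_tendsto n hn hsq
  apply Pool.Agent.H304R2.EC.mert_abs (fun d => XX n d) (fun d => XX n d) (4 * n.natAbs) L
  · intro d
    exact (XX_abs_le n d).trans (by norm_num)
  · intro m hm
    have h1 : ∀ d ∈ m.divisors, ArithmeticFunction.vonMangoldt d * XX n d * XX n (m / d) =
        ArithmeticFunction.vonMangoldt d * XX n m := by
      intro d hd
      rw [mul_assoc, ← XX_mul, Nat.mul_div_cancel' (Nat.dvd_of_mem_divisors hd)]
    show XX n m * Real.log m = ∑ d ∈ m.divisors, ArithmeticFunction.vonMangoldt d * XX n d * XX n (m / d)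
    rw [Finset.sum_congr rfl h1, ← Finset.sum_mul, ArithmeticFunction.vonMangoldt_sum]
    ring
  · intro N
    rcases Nat.eq_zero_or_pos N with rfl | hN
    · simp
    · have h1 : (1 : ℝ) ≤ Real.sqrt N := by
        rw [Real.one_le_sqrt]
        exact_mod_cast hN
      have h2 : ∑ d ∈ Icc 1 N, XX n d = ∑ d ∈ Ioc 0 N, XX n d := by
        apply Finset.sum_congr _ (fun _ _ => rfl)
        ext d
        simp only [Finset.mem_Icc, Finset.mem_Ioc]
        omega
      show |∑ d ∈ Icc 1 N, XX n d| ≤ _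
      rw [h2]
      refine (XX_sum_bound n hn hsq N).trans ?_
      have h3 : (0 : ℝ) ≤ 4 * n.natAbs := by positivity
      nlinarith
  · exact hL
  · exact hL0


/-- the sum over the primes -/
theorem chi_primes (D : ℤ) (hD : D ≠ 0) (hsq : ¬ IsSquare D) : ∃ C : ℝ, 0 ≤ C ∧ ∀ N : ℕ,
    |∑ p ∈ (Icc 1 N).filter Nat.Prime, XX D p * (Real.log p / p)| ≤ C := by
  obtain ⟨C, hC⟩ := mert_xx D hD hsq
  have hC0 : 0 ≤ C := (abs_nonneg _).trans (hC 0)
  have hs : Summable (fun n : ℕ => (if n.Prime then 0 else ArithmeticFunction.vonMangoldt n) / (n : ℝ)) := by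
    have h := ArithmeticFunction.vonMangoldt.summable_residueClass_non_primes_div (q := 1) 0
    refine h.congr fun n => ?_
    congr 2
    rw [ArithmeticFunction.vonMangoldt.residueClass, Set.indicator_of_mem]
    exact Subsingleton.elim _ _
  set S := ∑' n : ℕ, (if n.Prime then 0 else ArithmeticFunction.vonMangoldt n) / (n : ℝ) with hS
  have hnn : ∀ n : ℕ, 0 ≤ (if n.Prime then 0 else ArithmeticFunction.vonMangoldt n) / (n : ℝ) := by
    intro n
    apply div_nonneg _ (Nat.cast_nonneg n)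
    split_ifs
    · exact le_rfl
    · exact ArithmeticFunction.vonMangoldt_nonneg
  have hS0 : 0 ≤ S := tsum_nonneg hnn
  refine ⟨C + S, by positivity, fun N => ?_⟩
  have h1 : ∑ p ∈ (Icc 1 N).filter Nat.Prime, XX D p * (Real.log p / p) =
      ∑ d ∈ Icc 1 N, ArithmeticFunction.vonMangoldt d * XX D d / d -
      ∑ d ∈ Icc 1 N, (if d.Prime then 0 else ArithmeticFunction.vonMangoldt d) / (d : ℝ) * XX D d := by
    rw [sum_filter, ← sum_sub_distrib]
    apply sum_congr rfl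
    intro d _
    by_cases hp : d.Prime
    · rw [if_pos hp, if_pos hp, ArithmeticFunction.vonMangoldt_apply_prime hp]
      ring
    · rw [if_neg hp, if_neg hp]
      ring
  rw [h1]
  have h2 : |∑ d ∈ Icc 1 N, (if d.Prime then 0 else ArithmeticFunction.vonMangoldt d) / (d : ℝ) * XX D d| ≤ S := by
    refine (abs_sum_le_sum_abs _ _).trans ?_
    calc _ ≤ ∑ d ∈ Icc 1 N, (if d.Prime then 0 else ArithmeticFunction.vonMangoldt d) / (d : ℝ) := by
          apply sum_le_sum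
          intro d _
          rw [abs_mul, abs_of_nonneg (hnn d)]
          exact mul_le_of_le_one_right (hnn d) (XX_abs_le D d)
      _ ≤ S := hs.sum_le_tsum _ (fun n _ => hnn n)
  calc _ ≤ |∑ d ∈ Icc 1 N, ArithmeticFunction.vonMangoldt d * XX D d / d| +
        |∑ d ∈ Icc 1 N, (if d.Prime then 0 else ArithmeticFunction.vonMangoldt d) / (d : ℝ) * XX D d| := abs_sub _ _
    _ ≤ _ := add_le_add (hC N) h2

end Pool.Agent.H535.AK.Chi
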