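import Mathlib

set_option autoImplicit false

/-!
A count of dimensions: large sets carry weights which are perfectly distributed.
-/

open Finset

namespace Pool.Agent.H535.AK

theorem perfect (K : ℕ) (S : Finset ℤ) (hS : ∑ k ∈ Ioc K (2 * K), k < S.card) :
    ∃ u : ℤ → ℂ, (∀ t, u t ≠ 0 → t ∈ S) ∧ (∃ t, u t ≠ 0) ∧
      ∀ k ∈ Ioc K (2 * K), ∀ r : ℤ, ∑ t ∈ S.filter (fun t => t ≡ r [ZMOD k]), u t = 0 := by
  classical
  obtain ⟨I, hI⟩ : ∃ I : Finset (Σ _ : ℕ, ℕ), I = (Ioc K (2 * K)).sigma (fun k => range k) := ⟨_, rfl⟩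
  have hIc : I.card < S.card := by
    rw [hI, card_sigma]
    simpa using hS
  let T : (S → ℂ) →ₗ[ℂ] (I → ℂ) :=
    { toFun := fun v x => ∑ t : S, if (t : ℤ) ≡ (x.1.2 : ℤ) [ZMOD x.1.1] then v t else 0
      map_add' := by
        intro v v'
        funext x
        simp only [Pi.add_apply]
        rw [← sum_add_distrib]
        refine sum_congr rfl fun t _ => ?_
        split_ifs <;> simp
      map_smul' := by
        intro z v
        funext x
        simp only [Pi.smul_apply, smul_eq_mul, RingHom.id_apply]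
        rw [mul_sum]
        refine sum_congr rfl fun t _ => ?_
        split_ifs <;> simp }
  have hker : LinearMap.ker T ≠ ⊥ := by
    apply LinearMap.ker_ne_bot_of_finrank_lt
    rw [Module.finrank_fintype_fun_eq_card, Module.finrank_fintype_fun_eq_card, Fintype.card_coe, Fintype.card_coe]
    exact hIc
  obtain ⟨v, hv, hv0⟩ := Submodule.exists_mem_ne_zero_of_ne_bot hker
  rw [LinearMap.mem_ker] at hv
  refine ⟨fun t => if h : t ∈ S then v ⟨t, h⟩ else 0, ?_, ?_, ?_⟩
  · intro t ht
    by_contra h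
    exact ht (dif_neg h)
  · by_contra hcon
    push Not at hcon
    apply hv0
    funext x
    have := hcon x.1
    simpa using this
  · intro k hk r
    have hk' := mem_Ioc.1 hk
    have hk0 : (0 : ℤ) < k := by exact_mod_cast (by omega : 0 < k)
    have hr0 := Int.emod_nonneg r hk0.ne'
    have hr1 := Int.emod_lt_of_pos r hk0
    have hmem : (⟨k, (r % k).toNat⟩ : Σ _ : ℕ, ℕ) ∈ I := by
      rw [hI, mem_sigma, mem_range]
      refine ⟨hk, ?_⟩
      simp only
      omega
    have h1 := congrFun hv ⟨_, hmem⟩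
    have h2 : ∑ t : S, (if (t : ℤ) ≡ (((r % k).toNat : ℕ) : ℤ) [ZMOD k] then v t else 0) = 0 := h1
    rw [Int.toNat_of_nonneg hr0] at h2
    rw [sum_filter, ← sum_coe_sort S]
    refine Eq.trans ?_ h2
    refine sum_congr rfl fun t _ => ?_
    have h3 : ((t : ℤ) ≡ r [ZMOD k]) ↔ ((t : ℤ) ≡ r % k [ZMOD k]) := by
      constructor
      · intro h
        exact h.trans (Int.mod_modEq r k).symm
      · intro h
        exact h.trans (Int.mod_modEq r k)
    simp only [h3, dif_pos t.2]

end Pool.Agent.H535.AK
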