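import Pool.Agent.H535.AK.Main
import Pool.Agent.H535.AW.Fin

set_option autoImplicit false

/-!
The general form of the theorem: sifted sets and all the allowed classes.
-/

open Finset

namespace Pool.Agent.H535.AK

open Pool.Agent.Helper112 Pool.Agent.W110.HV
open Pool.Agent.H535.AW (SC min_center large2)

variable {w : ℕ → ℕ} {A : ℝ}

/-- the sum over the residue class of `a` modulo `k` in `(Y, Y + X]` -/
noncomputable def IC (u : ℤ → ℂ) (Y : ℤ) (X k : ℕ) (a : ℤ) : ℂ :=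
  ∑ t ∈ (Ioc Y (Y + X)).filter (fun t => (k : ℤ) ∣ t - a), u t

theorem shift_sum {M : Type*} [AddCommMonoid M] (X : ℕ) (Y : ℤ) (f : ℤ → M) :
    ∑ m ∈ Icc 1 X, f (Y + (m : ℕ)) = ∑ t ∈ Ioc Y (Y + X), f t := by
  apply sum_nbij' (fun m : ℕ => Y + (m : ℤ)) (fun t => (t - Y).toNat)
  · intro m hm
    rw [mem_Icc] at hm
    rw [mem_Ioc]
    omega
  · intro t ht
    rw [mem_Ioc] at ht
    rw [mem_Icc]
    omega
  · intro m _
    simp
  · intro t ht
    rw [mem_Ioc] at ht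
    have : ((t - Y).toNat : ℤ) = t - Y := Int.toNat_of_nonneg (by omega)
    rw [this]
    ring
  · intro m _
    rfl

theorem shift_mod (Y : ℤ) (Z k m a : ℕ) (ha : a < k) (hZ : (k : ℤ) ∣ (Z : ℤ) - Y) :
    (Z + m) % k = a ↔ (k : ℤ) ∣ (Y + (m : ℤ)) - a := by
  have h1 : (Z + m) % k = a ↔ (Z + m) % k = a % k := by rw [Nat.mod_eq_of_lt ha]
  rw [h1]
  have h2 : ((Z + m) % k = a % k) ↔ a ≡ (Z + m) [MOD k] := ⟨fun h => h.symm, fun h => Eq.symm h⟩
  rw [h2, Nat.modEq_iff_dvd]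
  push_cast
  have e : (Y + (m : ℤ)) - a = ((Z : ℤ) + m - a) - ((Z : ℤ) - Y) := by ring
  rw [e]
  constructor
  · intro h
    exact dvd_sub h hZ
  · intro h
    have := dvd_add h hZ
    rwa [sub_add_cancel] at this

theorem SC_eq (u : ℤ → ℂ) (Y : ℤ) (X Z k a : ℕ) (ha : a < k) (hZ : (k : ℤ) ∣ (Z : ℤ) - Y) :
    SC X Z k (fun m => u (Y + (m : ℤ))) a = IC u Y X k a := by
  unfold SC IC
  rw [sum_filter, sum_filter, ← shift_sum X Y (fun t => if (k : ℤ) ∣ t - a then u t else 0)]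
  refine sum_congr rfl fun m _ => ?_
  simp only [shift_mod Y Z k m a ha hZ]

theorem class_count (X Z k a : ℕ) (hk : 0 < k) :
    (((Icc 1 X).filter (fun m => (Z + m) % k = a)).card : ℝ) ≤ X / k + 2 := by
  have h1 : ((Icc 1 X).filter (fun m => (Z + m) % k = a)).card ≤ (Icc (Z / k) ((Z + X) / k)).card := by
    refine card_le_card_of_injOn (fun m => (Z + m) / k) ?_ ?_
    · intro m hm
      rw [mem_coe, mem_filter, mem_Icc] at hm
      rw [mem_coe, mem_Icc]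
      exact ⟨Nat.div_le_div_right (by omega), Nat.div_le_div_right (by omega)⟩
    · intro m hm m' hm' h
      rw [mem_coe, mem_filter] at hm hm'
      simp only at h
      have h2 := Nat.div_add_mod (Z + m) k
      have h3 := Nat.div_add_mod (Z + m') k
      rw [h, hm.2] at h2
      rw [hm'.2] at h3
      omega
  rw [Nat.card_Icc] at h1
  have h2 : (Z + X) / k + 1 - Z / k ≤ X / k + 2 := by
    have h3 : (Z + X) / k ≤ Z / k + X / k + 1 := by
      have h4 := Nat.div_add_mod Z k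
      have h5 := Nat.div_add_mod X k
      have h6 := Nat.mod_lt Z hk
      have h7 := Nat.mod_lt X hk
      have h8 : (Z + X) < (Z / k + X / k + 2) * k := by
        calc Z + X = (k * (Z / k) + Z % k) + (k * (X / k) + X % k) := by rw [h4, h5]
          _ < (k * (Z / k) + k) + (k * (X / k) + k) := by omega
          _ = (Z / k + X / k + 2) * k := by ring
      have h9 : (Z + X) / k < Z / k + X / k + 2 := (Nat.div_lt_iff_lt_mul hk).2 h8
      exact Nat.lt_succ_iff.1 h9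
    generalize (Z + X) / k = e1 at h3 ⊢
    generalize Z / k = e2 at h3 ⊢
    generalize X / k = e3 at h3 ⊢
    omega
  have h3 : (((Icc 1 X).filter (fun m => (Z + m) % k = a)).card : ℝ) ≤ ((X / k + 2 : ℕ) : ℝ) := by
    exact_mod_cast h1.trans h2
  refine h3.trans ?_
  push_cast
  have := Nat.cast_div_le (α := ℝ) (m := X) (n := k)
  linarith

/-- one modulus -/
theorem one_mod (X Z k : ℕ) (hk : 0 < k) (v : ℕ → ℂ) (S : Finset ℕ) (hS : S ⊆ range k) (hne : S.Nonempty)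
    (P : ℕ → Prop) [DecidablePred P]
    (hP : ∀ a ∈ range k, a ∉ S → ∀ m ∈ Icc 1 X, v m ≠ 0 → (Z + m) % k = a → P m)
    (I : ℝ) (hI : 1 / (S.card : ℝ) ≤ I) (μ : ℝ) (hμ : X / k + 2 ≤ μ)
    (c : ℂ) (H : ℝ) (hH : ∑ m ∈ Icc 1 X, ‖v m‖ ≤ H) :
    (∑ a ∈ range k, ‖SC X Z k v a‖ ^ 2 - ‖∑ m ∈ Icc 1 X, v m‖ ^ 2 * I) -
      μ * ∑ m ∈ (Icc 1 X).filter P, ‖v m‖ ^ 2 - (3 * H * I) * ∑ m ∈ (Icc 1 X).filter P, ‖v m‖ ≤
      ∑ a ∈ S, ‖SC X Z k v a - c‖ ^ 2 := by
  have hI0 : 0 ≤ I := le_trans (by positivity) hI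
  have hμ0 : 0 ≤ μ := le_trans (by positivity) hμ
  have h1 := min_center S hne (fun a => SC X Z k v a) c
  set U := ∑ m ∈ (Icc 1 X).filter P, ‖v m‖ ^ 2 with hU
  set W := ∑ m ∈ (Icc 1 X).filter P, ‖v m‖ with hW
  set S0 := ∑ m ∈ Icc 1 X, v m with hS0
  have hsub : ∀ a ∈ range k \ S, ∀ m ∈ (Icc 1 X).filter (fun m => (Z + m) % k = a), v m ≠ 0 →
      m ∈ ((Icc 1 X).filter P).filter (fun m => (Z + m) % k = a) := by
    intro a ha m hm hvm
    rw [mem_sdiff] at ha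
    rw [mem_filter] at hm
    exact mem_filter.2 ⟨mem_filter.2 ⟨hm.1, hP a ha.1 ha.2 m hm.1 hvm hm.2⟩, hm.2⟩
  -- the total of the squares over the classes outside `S`
  have h2 : ∑ a ∈ range k \ S, ‖SC X Z k v a‖ ^ 2 ≤ μ * U := by
    have h3 : ∀ a ∈ range k \ S, ‖SC X Z k v a‖ ^ 2 ≤
        μ * ∑ m ∈ ((Icc 1 X).filter P).filter (fun m => (Z + m) % k = a), ‖v m‖ ^ 2 := by
      intro a ha
      unfold SC
      have h4 : ‖∑ m ∈ (Icc 1 X).filter (fun m => (Z + m) % k = a), v m‖ ^ 2 ≤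
          (((Icc 1 X).filter (fun m => (Z + m) % k = a)).card : ℝ) *
            ∑ m ∈ (Icc 1 X).filter (fun m => (Z + m) % k = a), ‖v m‖ ^ 2 :=
        (pow_le_pow_left₀ (norm_nonneg _) (norm_sum_le _ _) 2).trans sq_sum_le_card_mul_sum_sq
      have h5 : ∑ m ∈ (Icc 1 X).filter (fun m => (Z + m) % k = a), ‖v m‖ ^ 2 ≤
          ∑ m ∈ ((Icc 1 X).filter P).filter (fun m => (Z + m) % k = a), ‖v m‖ ^ 2 := by
        rw [← sum_filter_ne_zero]
        refine sum_le_sum_of_subset_of_nonneg ?_ fun _ _ _ => by positivity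
        intro m hm
        rw [mem_filter] at hm
        refine hsub a ha m hm.1 fun h0 => hm.2 ?_
        rw [h0, norm_zero, zero_pow (by norm_num)]
      exact h4.trans (mul_le_mul ((class_count X Z k a hk).trans hμ) h5
        (sum_nonneg fun _ _ => by positivity) hμ0)
    refine (sum_le_sum h3).trans ?_
    rw [← mul_sum]
    refine mul_le_mul_of_nonneg_left ?_ hμ0
    calc ∑ a ∈ range k \ S, ∑ m ∈ ((Icc 1 X).filter P).filter (fun m => (Z + m) % k = a), ‖v m‖ ^ 2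
        ≤ ∑ a ∈ range k, ∑ m ∈ ((Icc 1 X).filter P).filter (fun m => (Z + m) % k = a), ‖v m‖ ^ 2 :=
          sum_le_sum_of_subset_of_nonneg sdiff_subset fun _ _ _ => sum_nonneg fun _ _ => by positivity
      _ = U := sum_fiberwise_of_maps_to (fun m _ => mem_range.2 (Nat.mod_lt _ hk)) _
  -- the total sum over the classes outside `S`
  have h3 : ‖∑ a ∈ range k \ S, SC X Z k v a‖ ≤ W := by
    have h4 : ∀ a ∈ range k \ S, ‖SC X Z k v a‖ ≤
        ∑ m ∈ ((Icc 1 X).filter P).filter (fun m => (Z + m) % k = a), ‖v m‖ := by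
      intro a ha
      unfold SC
      refine (norm_sum_le _ _).trans ?_
      rw [← sum_filter_ne_zero]
      refine sum_le_sum_of_subset_of_nonneg ?_ fun _ _ _ => norm_nonneg _
      intro m hm
      rw [mem_filter] at hm
      exact hsub a ha m hm.1 fun h0 => hm.2 (by rw [h0, norm_zero])
    refine (norm_sum_le _ _).trans ((sum_le_sum h4).trans ?_)
    calc ∑ a ∈ range k \ S, ∑ m ∈ ((Icc 1 X).filter P).filter (fun m => (Z + m) % k = a), ‖v m‖
        ≤ ∑ a ∈ range k, ∑ m ∈ ((Icc 1 X).filter P).filter (fun m => (Z + m) % k = a), ‖v m‖ :=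
          sum_le_sum_of_subset_of_nonneg sdiff_subset fun _ _ _ => sum_nonneg fun _ _ => norm_nonneg _
      _ = W := sum_fiberwise_of_maps_to (fun m _ => mem_range.2 (Nat.mod_lt _ hk)) _
  have h4 : ∑ a ∈ range k, SC X Z k v a = S0 :=
    sum_fiberwise_of_maps_to (fun m _ => mem_range.2 (Nat.mod_lt _ hk)) _
  have h5 : ∑ a ∈ range k \ S, SC X Z k v a + ∑ a ∈ S, SC X Z k v a = S0 := by
    rw [sum_sdiff hS, h4]
  have h6 : ∑ a ∈ range k \ S, ‖SC X Z k v a‖ ^ 2 + ∑ a ∈ S, ‖SC X Z k v a‖ ^ 2 =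
      ∑ a ∈ range k, ‖SC X Z k v a‖ ^ 2 := sum_sdiff hS
  have hWH : W ≤ H := by
    refine le_trans ?_ hH
    exact sum_le_sum_of_subset_of_nonneg (filter_subset _ _) fun _ _ _ => norm_nonneg _
  have hS0H : ‖S0‖ ≤ H := (norm_sum_le _ _).trans hH
  have hW0 : 0 ≤ W := sum_nonneg fun _ _ => norm_nonneg _
  have h7 : ‖∑ a ∈ S, SC X Z k v a‖ ^ 2 ≤ ‖S0‖ ^ 2 + 3 * H * W := by
    have h8 : ‖∑ a ∈ S, SC X Z k v a‖ ≤ ‖S0‖ + W := by
      have e : ∑ a ∈ S, SC X Z k v a = S0 - ∑ a ∈ range k \ S, SC X Z k v a := by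
        rw [← h5]
        ring
      rw [e]
      exact (norm_sub_le _ _).trans (by linarith)
    have h9 := pow_le_pow_left₀ (norm_nonneg _) h8 2
    have h10 : ‖S0‖ * W ≤ H * W := mul_le_mul_of_nonneg_right hS0H hW0
    have h11 : W * W ≤ H * W := mul_le_mul_of_nonneg_right hWH hW0
    nlinarith only [h9, h10, h11]
  have h8 : ‖∑ a ∈ S, SC X Z k v a‖ ^ 2 / (S.card : ℝ) ≤ (‖S0‖ ^ 2 + 3 * H * W) * I := by
    rw [div_eq_mul_one_div]
    exact mul_le_mul h7 hI (by positivity) (le_trans (by positivity) h7)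
  linarith only [h1, h2, h6, h8, (by ring : (‖S0‖ ^ 2 + 3 * H * W) * I = ‖S0‖ ^ 2 * I + (3 * H * I) * W)]

end Pool.Agent.H535.AK
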