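import Pool.Agent.H535.AK.Gen

set_option autoImplicit false

/-!
The general theorem.
-/

open Finset

namespace Pool.Agent.H535.AK

open Pool.Agent.Helper112 Pool.Agent.W110.HV
open Pool.Agent.H535.AW (SC min_center large2)

variable {w : ℕ → ℕ} {A : ℝ}

/-- the moduli in `(K, 2K]` for which `t` is in a removed class at one of the prime factors -/
noncomputable def BadK (B : ℕ → Finset ℤ) (K : ℕ) (t : ℤ) : Finset ℕ := by
  classical
  exact (Ioc K (2 * K)).filter (fun k => ∃ p : ℕ, p.Prime ∧ p ∣ k ∧ ∃ b ∈ B p, (p : ℤ) ∣ t - b)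

theorem mem_BadK (B : ℕ → Finset ℤ) (K : ℕ) (t : ℤ) (k : ℕ) :
    k ∈ BadK B K t ↔ k ∈ Ioc K (2 * K) ∧ ∃ p : ℕ, p.Prime ∧ p ∣ k ∧ ∃ b ∈ B p, (p : ℤ) ∣ t - b := by
  classical
  unfold BadK
  rw [mem_filter]

theorem num_g (ε r L s K PPv P F V : ℝ) (D : ℕ) (hε : 0 < ε) (hr : 0 ≤ r)
    (hP : 1 ≤ P) (hL : 16 * (r + 1) * P / ε ≤ L) (hL1 : 1 ≤ L) (hs : 16 * (r + 1) * P / ε * L ≤ s)
    (hK : s * L ^ (D + 3) ≤ K) (hPP0 : 0 ≤ PPv) (hPP : PPv ≤ P * L ^ D) (hF : 1 / L ≤ F) (hV : 0 ≤ V) :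
    (s ^ 2 / K + 2) * (r * (K / s) * V) + 3 * PPv / K * (r * (K / s)) * (s ^ 2 * V) ≤ (ε / 2) * F * K * V := by
  have hL0 : 0 < L := by linarith
  have hrP : 0 < (r + 1) * P := by positivity
  have hG : 0 < 16 * (r + 1) * P / ε := by positivity
  have hs0 : 0 < s := lt_of_lt_of_le (by positivity) hs
  have hK0 : 0 < K := lt_of_lt_of_le (by positivity) hK
  have e1 : (s ^ 2 / K + 2) * (r * (K / s) * V) = (r * s + 2 * r * (K / s)) * V := by
    field_simp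
  have e2 : 3 * PPv / K * (r * (K / s)) * (s ^ 2 * V) = 3 * PPv * r * s * V := by
    field_simp
  rw [e1, e2]
  have hLD : 1 ≤ L ^ D := one_le_pow₀ hL1
  have h1 : r * s + 3 * PPv * r * s ≤ 4 * (P * L ^ D) * r * s := by
    have h2 : 1 ≤ P * L ^ D := one_le_mul_of_one_le_of_one_le hP hLD
    have h3 : 1 + 3 * PPv ≤ 4 * (P * L ^ D) := by linarith
    have h4 := mul_le_mul_of_nonneg_right h3 (mul_nonneg hr hs0.le)
    linarith only [h4, (by ring : (1 + 3 * PPv) * (r * s) = r * s + 3 * PPv * r * s),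
      (by ring : 4 * (P * L ^ D) * (r * s) = 4 * (P * L ^ D) * r * s)]
  have hLe : 16 * (r + 1) * P ≤ L * ε := by rwa [div_le_iff₀ hε] at hL
  have h2 : 4 * (P * L ^ D) * r * s ≤ (ε / 4) * (1 / L) * K := by
    have h3 : (ε / 4) * (1 / L) * (s * L ^ (D + 3)) = (ε / 4) * L ^ 2 * L ^ D * s := by
      rw [pow_add]
      field_simp
    have h4 := mul_le_mul_of_nonneg_left hK (by positivity : 0 ≤ (ε / 4) * (1 / L))
    rw [h3] at h4
    refine le_trans ?_ h4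
    have h5 : 4 * P * r ≤ (ε / 4) * L ^ 2 := by
      have h6 : 16 * (r + 1) * P * 1 ≤ (L * ε) * L := mul_le_mul hLe hL1 (by norm_num) (by positivity)
      have h7 : 0 ≤ P := by linarith
      nlinarith only [h6, h7]
    have h6 := mul_le_mul_of_nonneg_right h5 (by positivity : 0 ≤ L ^ D * s)
    linarith only [h6, (by ring : 4 * P * r * (L ^ D * s) = 4 * (P * L ^ D) * r * s),
      (by ring : (ε / 4) * L ^ 2 * (L ^ D * s) = (ε / 4) * L ^ 2 * L ^ D * s)]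
  have h3 : 2 * r * (K / s) ≤ (ε / 4) * (1 / L) * K := by
    have h4 : 8 * r * L ≤ ε * s := by
      have h5 := mul_le_mul_of_nonneg_left hs hε.le
      have h6 : ε * (16 * (r + 1) * P / ε * L) = 16 * (r + 1) * P * L := by field_simp
      rw [h6] at h5
      have h7 : 8 * r ≤ 16 * (r + 1) * P := by
        have : 16 * (r + 1) * 1 ≤ 16 * (r + 1) * P := mul_le_mul_of_nonneg_left hP (by positivity)
        linarith
      have h8 := mul_le_mul_of_nonneg_right h7 hL0.le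
      linarith
    rw [show 2 * r * (K / s) = (2 * r * K) / s by ring, show (ε / 4) * (1 / L) * K = (ε * K) / (4 * L) by
      field_simp, div_le_div_iff₀ hs0 (by positivity)]
    have := mul_le_mul_of_nonneg_left h4 hK0.le
    nlinarith only [this]
  have h4 : (ε / 2) * (1 / L) * K ≤ (ε / 2) * F * K :=
    mul_le_mul_of_nonneg_right (mul_le_mul_of_nonneg_left hF (by positivity)) hK0.le
  have h5 : r * s + 2 * r * (K / s) + 3 * PPv * r * s ≤ (ε / 2) * F * K := by linarith only [h1, h2, h3, h4]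
  have h6 := mul_le_mul_of_nonneg_right h5 hV
  linarith only [h6]

/-- sums over the moduli of sums over the bad elements of the support -/
theorem sum_bad (B : ℕ → Finset ℤ) (X K : ℕ) (Y : ℤ) (f : ℕ → ℝ) (hf : ∀ m, 0 ≤ f m) (R : ℝ)
    (hsupp : ∀ m ∈ Icc 1 X, f m ≠ 0 → ((BadK B K (Y + (m : ℤ))).card : ℝ) ≤ R) :
    ∑ k ∈ Ioc K (2 * K), ∑ m ∈ (Icc 1 X).filter (fun m : ℕ => k ∈ BadK B K (Y + (m : ℤ))), f m ≤
      R * ∑ m ∈ Icc 1 X, f m := by
  rw [sum_congr rfl fun k _ => sum_filter (fun m : ℕ => k ∈ BadK B K (Y + (m : ℤ))) f, sum_comm, mul_sum]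
  refine sum_le_sum fun m hm => ?_
  rw [← sum_filter, sum_const, nsmul_eq_mul]
  by_cases h0 : f m = 0
  · rw [h0, mul_zero, mul_zero]
  · refine mul_le_mul_of_nonneg_right ?_ (hf m)
    have h1 : (Ioc K (2 * K)).filter (fun k => k ∈ BadK B K (Y + (m : ℤ))) = BadK B K (Y + (m : ℤ)) := by
      ext k
      rw [mem_filter, mem_BadK]
      tauto
    rw [h1]
    exact hsupp m hm h0

theorem rho_low (m X K : ℕ) (C L : ℝ) (hC : 8 ≤ C) (hLdef : L = Real.log X) (hL : 100 ≤ L) (hX : 1 ≤ X)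
    (hK : Real.sqrt X * L ^ C ≤ K) (hKX : K ≤ X) :
    1 / L ≤ 1 - (1 - Real.log ((K : ℝ) ^ 2 / X) / L) ^ (m + 1) := by
  have hX0 : (0 : ℝ) < X := by exact_mod_cast hX
  have hL0 : 0 < L := by linarith
  have h1 : L ^ 8 ≤ L ^ C := by
    rw [← Real.rpow_natCast]
    exact Real.rpow_le_rpow_of_exponent_le (by linarith) (by exact_mod_cast hC)
  have h2 : Real.sqrt X * L ^ 8 ≤ K :=
    (mul_le_mul_of_nonneg_left h1 (Real.sqrt_nonneg _)).trans hK
  have h3 : Real.sqrt X * 3 ≤ K := by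
    refine le_trans ?_ h2
    refine mul_le_mul_of_nonneg_left ?_ (Real.sqrt_nonneg _)
    refine le_trans ?_ (le_self_pow₀ (by linarith) (by norm_num))
    linarith
  have hK0 : (0 : ℝ) < K := lt_of_lt_of_le (mul_pos (Real.sqrt_pos.2 hX0) (by norm_num)) h3
  have h4 : (Real.sqrt X * 3) ^ 2 ≤ (K : ℝ) ^ 2 := pow_le_pow_left₀ (by positivity) h3 2
  have h5 : (9 : ℝ) ≤ (K : ℝ) ^ 2 / X := by
    rw [le_div_iff₀ hX0]
    rw [mul_pow, Real.sq_sqrt hX0.le] at h4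
    linarith
  have h6 : (1 : ℝ) ≤ Real.log ((K : ℝ) ^ 2 / X) := by
    rw [Real.le_log_iff_exp_le (by linarith)]
    have := Real.exp_one_lt_d9
    linarith
  have h7 : 1 / L ≤ Real.log ((K : ℝ) ^ 2 / X) / L := div_le_div_of_nonneg_right h6 hL0.le
  have h8 : Real.log ((K : ℝ) ^ 2 / X) / L ≤ 1 := by
    rw [div_le_one hL0, hLdef]
    apply Real.log_le_log (by linarith)
    rw [div_le_iff₀ hX0, ← pow_two]
    exact pow_le_pow_left₀ hK0.le (by exact_mod_cast hKX) 2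
  exact h7.trans (F_ge m _ (le_trans (by positivity) h7) h8)

/-- **The general theorem.** -/
theorem gen_var {m : ℕ} (hD : Dim w (m + 1) A) (r : ℝ) (hr : 0 ≤ r) (ε : ℝ) (hε : 0 < ε) (hε1 : ε ≤ 1) :
    ∃ C : ℝ, 8 ≤ C ∧ ∃ X0 : ℕ, ∀ X : ℕ, X0 ≤ X →
    ∀ K : ℕ, Real.sqrt X * Real.log X ^ C ≤ K → K ≤ X → ∀ (Y : ℤ) (B : ℕ → Finset ℤ) (u : ℤ → ℂ),
    Rem w B (Nat.sqrt X) → (∀ p : ℕ, p.Prime → (B p).card ≤ w p) →
    (∀ t ∈ Ioc Y (Y + X), u t ≠ 0 → ∀ p : ℕ, p.Prime → p ^ 2 ≤ X → ∀ b ∈ B p, ¬ (p : ℤ) ∣ t - b) →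
    (∀ t ∈ Ioc Y (Y + X), u t ≠ 0 → ((BadK B K t).card : ℝ) ≤ r * (K / Real.sqrt X)) →
    ∀ c : ℕ → ℂ,
    (1 - ε) * (1 - (1 - Real.log ((K : ℝ) ^ 2 / X) / Real.log X) ^ (m + 1)) * K *
        ∑ t ∈ Ioc Y (Y + X), ‖u t‖ ^ 2 ≤
      ∑ k ∈ Ioc K (2 * K), ∑ a ∈ Alw B k, ‖IC u Y X k a - c k‖ ^ 2 := by
  classical
  have hwlt := hD.lt
  obtain ⟨C1, hC1, X1, h⟩ := main_sum hD (ε / 2) (by positivity) (by linarith)
  obtain ⟨Ct, D, hCt, hPP⟩ := PP_le hD
  obtain ⟨P, hPdef⟩ : ∃ P : ℝ, P = Ct * 2 ^ D := ⟨_, rfl⟩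
  have hP1 : 1 ≤ P := by
    rw [hPdef]
    exact one_le_mul_of_one_le_of_one_le hCt (one_le_pow₀ (by norm_num))
  obtain ⟨X2, hX2⟩ := large2 (100 + 16 * (r + 1) * P / ε)
  refine ⟨C1 + D + 3, by
    have : (0 : ℝ) ≤ D := Nat.cast_nonneg _
    linarith, max X1 (max X2 1), fun X hX K hK hKX Y B u hRem hBw hu hbad c => ?_⟩
  have hXX1 : X1 ≤ X := (le_max_left _ _).trans hX
  have hXX2 : X2 ≤ X := (le_max_left _ _).trans ((le_max_right _ _).trans hX)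
  have hX1 : 1 ≤ X := (le_max_right _ _).trans ((le_max_right _ _).trans hX)
  have hX0 : (0 : ℝ) < X := by exact_mod_cast hX1
  obtain ⟨hL', hs'⟩ := hX2 X hXX2
  obtain ⟨L, hLdef⟩ : ∃ L : ℝ, L = Real.log X := ⟨_, rfl⟩
  obtain ⟨s, hsdef⟩ : ∃ s : ℝ, s = Real.sqrt X := ⟨_, rfl⟩
  have hG0 : 0 < 16 * (r + 1) * P / ε := by positivity
  have hK' := hK
  rw [← hLdef] at hL' hs' hK ⊢
  rw [← hsdef] at hs' hK hbad
  have hL100 : 100 ≤ L := by linarith
  have hL0 : 0 < L := by linarith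
  have hL1 : 1 ≤ L := by linarith
  have hLG : 16 * (r + 1) * P / ε ≤ L := by linarith
  have hsG : 16 * (r + 1) * P / ε * L ≤ s := by nlinarith only [hs', hL0]
  have hs0 : 0 < s := by
    rw [hsdef]
    exact Real.sqrt_pos.2 hX0
  have hs2 : s ^ 2 = X := by
    rw [hsdef]
    exact Real.sq_sqrt hX0.le
  have hKC1 : s * L ^ C1 ≤ K := by
    refine le_trans (mul_le_mul_of_nonneg_left ?_ hs0.le) hK
    refine Real.rpow_le_rpow_of_exponent_le hL1 ?_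
    have : (0 : ℝ) ≤ D := Nat.cast_nonneg _
    linarith
  have hKD : s * L ^ (D + 3) ≤ K := by
    refine le_trans (mul_le_mul_of_nonneg_left ?_ hs0.le) hK
    rw [← Real.rpow_natCast]
    refine Real.rpow_le_rpow_of_exponent_le hL1 ?_
    push_cast
    linarith
  have hsK : s ≤ K := le_trans (le_mul_of_one_le_right hs0.le (one_le_pow₀ hL1)) hKD
  have hK0 : (0 : ℝ) < K := lt_of_lt_of_le hs0 hsK
  have hK1 : 1 ≤ K := by exact_mod_cast hK0
  have hs3 : 3 ≤ s := by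
    have h1 : 16 * (r + 1) * P / ε * L ≥ 16 * L := by
      have h2 : 16 ≤ 16 * (r + 1) * P / ε := by
        rw [le_div_iff₀ hε]
        have : 1 * 1 ≤ (r + 1) * P := mul_le_mul (by linarith) hP1 (by norm_num) (by linarith)
        nlinarith only [this, hε1, hε]
      exact mul_le_mul_of_nonneg_right h2 hL0.le
    linarith
  have hK3 : 3 ≤ 2 * K := by
    have h2 : (3 : ℝ) ≤ K := by linarith
    have h3 : 3 ≤ K := by exact_mod_cast h2
    omega
  have hF : 1 / L ≤ 1 - (1 - Real.log ((K : ℝ) ^ 2 / X) / L) ^ (m + 1) :=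
    rho_low m X K C1 L hC1 hLdef hL100 hX1 (by rw [← hsdef]; exact hKC1) hKX
  obtain ⟨F, hFdef⟩ : ∃ F : ℝ, F = 1 - (1 - Real.log ((K : ℝ) ^ 2 / X) / L) ^ (m + 1) := ⟨_, rfl⟩
  rw [← hFdef] at hF ⊢
  -- the shift
  obtain ⟨Z, hZ⟩ : ∃ Z : ℕ, (Z : ℤ) = Y + ((2 * K).factorial : ℤ) * |Y| := by
    refine ⟨(Y + ((2 * K).factorial : ℤ) * |Y|).toNat, Int.toNat_of_nonneg ?_⟩
    have h1 : (1 : ℤ) ≤ ((2 * K).factorial : ℤ) := by exact_mod_cast Nat.factorial_pos _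
    have h2 : 0 ≤ |Y| := abs_nonneg Y
    have h3 := neg_abs_le Y
    nlinarith
  have hZk : ∀ k ∈ Ioc K (2 * K), (k : ℤ) ∣ (Z : ℤ) - Y := by
    intro k hk
    rw [mem_Ioc] at hk
    rw [hZ, add_sub_cancel_left]
    exact Dvd.dvd.mul_right (by exact_mod_cast Nat.dvd_factorial (by omega) hk.2) _
  obtain ⟨v, hvdef⟩ : ∃ v : ℕ → ℂ, v = fun m : ℕ => u (Y + (m : ℤ)) := ⟨_, rfl⟩
  have hmemY : ∀ m ∈ Icc 1 X, Y + (m : ℤ) ∈ Ioc Y (Y + X) := by
    intro m hm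
    rw [mem_Icc] at hm
    rw [mem_Ioc]
    omega
  obtain ⟨Bs, hBs⟩ : ∃ Bs : ℕ → Finset ℤ, Bs = fun p => (B p).image (fun b => b - Y) := ⟨_, rfl⟩
  have hRemS : Rem w Bs (Nat.sqrt X) := by
    refine ⟨fun p hp hpX => ?_, fun p hp hpX b hb c hc hd => ?_⟩
    · rw [hBs]
      simp only
      rw [card_image_of_injective _ (fun a b h => by simpa using h)]
      exact hRem.card p hp hpX
    · rw [hBs] at hb hc
      simp only [mem_image] at hb hc
      obtain ⟨b', hb', rfl⟩ := hb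
      obtain ⟨c', hc', rfl⟩ := hc
      rw [hRem.inj p hp hpX b' hb' c' hc' (by
        have e : b' - Y - (c' - Y) = b' - c' := by ring
        rwa [e] at hd)]
  have h1 := h X hXX1 K (by rw [← hLdef, ← hsdef]; exact hKC1) hKX Z Bs v hRemS (by
    intro n hn hne p hp hpX b hb hd
    rw [hBs] at hb
    simp only [mem_image] at hb
    obtain ⟨b', hb', rfl⟩ := hb
    rw [hvdef] at hne
    refine hu (Y + (n : ℤ)) (hmemY n hn) hne p hp (Nat.le_sqrt'.1 hpX) b' hb' ?_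
    have e : (n : ℤ) - (b' - Y) = Y + n - b' := by ring
    rwa [e] at hd)
  rw [← hLdef, ← hFdef] at h1
  obtain ⟨V, hV⟩ : ∃ V : ℝ, V = ∑ m ∈ Icc 1 X, ‖v m‖ ^ 2 := ⟨_, rfl⟩
  have hV0 : 0 ≤ V := by
    rw [hV]
    exact sum_nonneg fun _ _ => by positivity
  have hVu : ∑ t ∈ Ioc Y (Y + X), ‖u t‖ ^ 2 = V := by
    rw [hV, hvdef]
    exact (shift_sum X Y (fun t => ‖u t‖ ^ 2)).symm
  obtain ⟨H, hHdef⟩ : ∃ H : ℝ, H = s * Real.sqrt V := ⟨_, rfl⟩
  have hH2 : H * H = s ^ 2 * V := by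
    rw [hHdef]
    have := Real.mul_self_sqrt hV0
    calc s * Real.sqrt V * (s * Real.sqrt V) = s ^ 2 * (Real.sqrt V * Real.sqrt V) := by ring
      _ = s ^ 2 * V := by rw [this]
  have hH0 : 0 ≤ H := by
    rw [hHdef]
    positivity
  have hH : ∑ m ∈ Icc 1 X, ‖v m‖ ≤ H := by
    have h2 : (∑ m ∈ Icc 1 X, ‖v m‖) ^ 2 ≤ H ^ 2 := by
      have h3 := sq_sum_le_card_mul_sum_sq (s := Icc 1 X) (f := fun m => ‖v m‖)
      rw [Nat.card_Icc, Nat.add_sub_cancel, ← hV] at h3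
      rw [pow_two H, hH2, hs2]
      exact h3
    exact le_of_sq_le_sq h2 hH0
  have hPPb : PP w (2 * K) ≤ P * L ^ D := by
    refine (hPP (2 * K) hK3).trans ?_
    have hLg : Real.log ((2 * K : ℕ) : ℝ) ≤ 2 * L := by
      have h1 : ((2 * K : ℕ) : ℝ) ≤ 2 * X := by
        push_cast
        have : (K : ℝ) ≤ X := by exact_mod_cast hKX
        linarith
      have h2 : (0 : ℝ) < ((2 * K : ℕ) : ℝ) := by
        push_cast
        linarith
      have h3 := Real.log_le_log h2 h1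
      rw [Real.log_mul (by norm_num) hX0.ne', ← hLdef] at h3
      have := Real.log_two_lt_d9
      linarith
    have hLg0 : 0 ≤ Real.log ((2 * K : ℕ) : ℝ) := by
      apply Real.log_nonneg
      exact_mod_cast (by omega : 1 ≤ 2 * K)
    have h1 : Real.log ((2 * K : ℕ) : ℝ) ^ D ≤ (2 * L) ^ D := pow_le_pow_left₀ hLg0 hLg D
    calc Ct * Real.log ((2 * K : ℕ) : ℝ) ^ D ≤ Ct * (2 * L) ^ D := mul_le_mul_of_nonneg_left h1 (by linarith)
      _ = P * L ^ D := by rw [mul_pow, hPdef]; ring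
  have hPP0 : 0 ≤ PP w (2 * K) := zero_le_one.trans (PP_one_le hwlt _)
  have hbadv : ∀ n ∈ Icc 1 X, v n ≠ 0 → ((BadK B K (Y + (n : ℤ))).card : ℝ) ≤ r * (K / s) := by
    intro n hn hne
    rw [hvdef] at hne
    exact hbad (Y + (n : ℤ)) (hmemY n hn) hne
  obtain ⟨U, hU⟩ : ∃ U : ℕ → ℝ, U = fun k => ∑ m ∈ (Icc 1 X).filter
    (fun m : ℕ => k ∈ BadK B K (Y + (m : ℤ))), ‖v m‖ ^ 2 := ⟨_, rfl⟩
  obtain ⟨W, hW⟩ : ∃ W : ℕ → ℝ, W = fun k => ∑ m ∈ (Icc 1 X).filter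
    (fun m : ℕ => k ∈ BadK B K (Y + (m : ℤ))), ‖v m‖ := ⟨_, rfl⟩
  have hUs : ∑ k ∈ Ioc K (2 * K), U k ≤ r * (K / s) * V := by
    rw [hU, hV]
    refine sum_bad B X K Y (fun m => ‖v m‖ ^ 2) (fun m => by positivity) _ ?_
    intro n hn hne
    refine hbadv n hn fun h0 => hne ?_
    show ‖v n‖ ^ 2 = 0
    rw [h0, norm_zero, zero_pow (by norm_num)]
  have hWs : ∑ k ∈ Ioc K (2 * K), W k ≤ r * (K / s) * H := by
    refine le_trans ?_ (mul_le_mul_of_nonneg_left hH (by positivity))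
    rw [hW]
    refine sum_bad B X K Y (fun m => ‖v m‖) (fun m => norm_nonneg _) _ ?_
    intro n hn hne
    refine hbadv n hn fun h0 => hne ?_
    show ‖v n‖ = 0
    rw [h0, norm_zero]
  have hW0 : ∀ k, 0 ≤ W k := by
    intro k
    rw [hW]
    exact sum_nonneg fun _ _ => norm_nonneg _
  have hone : ∀ k ∈ Ioc K (2 * K),
      (∑ a ∈ range k, ‖SC X Z k v a‖ ^ 2 - ‖∑ n ∈ Icc 1 X, v n‖ ^ 2 * iv w k) -
        (X / K + 2) * U k - (3 * H * (PP w (2 * K) / K)) * W k ≤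
      ∑ a ∈ Alw B k, ‖IC u Y X k a - c k‖ ^ 2 := by
    intro k hk
    have hk' := hk
    rw [mem_Ioc] at hk
    have hkpos : 0 < k := by omega
    have hk0 : (0 : ℝ) < k := by exact_mod_cast hkpos
    have hKk : (K : ℝ) ≤ k := by exact_mod_cast hk.1.le
    have hcard := Alw_card hwlt B hBw k (by omega)
    have hsub : Alw B k ⊆ range k := by
      intro a ha
      exact mem_range.2 ((mem_Alw B k a).1 ha).1
    have hne : (Alw B k).Nonempty := by
      rw [nonempty_iff_ne_empty]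
      intro h0
      rw [h0, card_empty, Nat.cast_zero, zero_mul] at hcard
      linarith
    have hc0 : (0 : ℝ) < (Alw B k).card := by exact_mod_cast hne.card_pos
    have hI : 1 / ((Alw B k).card : ℝ) ≤ iv w k := by
      unfold iv
      rw [one_div_mul_eq_div, div_le_div_iff₀ hc0 hk0]
      linarith
    have hiv : iv w k ≤ PP w (2 * K) / K :=
      (iv_le hwlt k (2 * K) hk.2).trans (div_le_div_of_nonneg_left hPP0 hK0 hKk)
    have hμ : (X : ℝ) / k + 2 ≤ X / K + 2 := by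
      have := div_le_div_of_nonneg_left (Nat.cast_nonneg X : (0 : ℝ) ≤ X) hK0 hKk
      linarith
    have h3 := one_mod X Z k hkpos v (Alw B k) hsub hne (fun m : ℕ => k ∈ BadK B K (Y + (m : ℤ))) (by
      intro a ha hna n hn hvn hmod
      rw [mem_range] at ha
      rw [mem_Alw] at hna
      push Not at hna
      obtain ⟨p, hp, hpk, b, hb, hd⟩ := hna ha
      rw [mem_BadK]
      refine ⟨hk', p, hp, hpk, b, hb, ?_⟩
      have h4 := (shift_mod Y Z k n a ha (hZk k hk')).1 hmod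
      have h5 : (p : ℤ) ∣ (Y + (n : ℤ)) - a := (Int.natCast_dvd_natCast.2 hpk).trans h4
      have h6 := dvd_add h5 hd
      have e : Y + (n : ℤ) - a + (a - b) = Y + n - b := by ring
      rwa [e] at h6) (iv w k) hI (X / K + 2) hμ (c k) H hH
    have h4 : (3 * H * iv w k) * W k ≤ (3 * H * (PP w (2 * K) / K)) * W k :=
      mul_le_mul_of_nonneg_right (mul_le_mul_of_nonneg_left hiv (by positivity)) (hW0 k)
    have h6 : ∑ a ∈ Alw B k, ‖IC u Y X k a - c k‖ ^ 2 = ∑ a ∈ Alw B k, ‖SC X Z k v a - c k‖ ^ 2 := by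
      refine sum_congr rfl fun a ha => ?_
      rw [hvdef, SC_eq u Y X Z k a ((mem_Alw B k a).1 ha).1 (hZk k hk')]
    rw [h6]
    refine le_trans ?_ h3
    have e1 : U k = ∑ m ∈ (Icc 1 X).filter (fun m : ℕ => k ∈ BadK B K (Y + (m : ℤ))), ‖v m‖ ^ 2 := by rw [hU]
    have e2 : W k = ∑ m ∈ (Icc 1 X).filter (fun m : ℕ => k ∈ BadK B K (Y + (m : ℤ))), ‖v m‖ := by rw [hW]
    rw [← e1, ← e2]
    linarith only [h4]
  have hsum := sum_le_sum hone
  rw [sum_sub_distrib, sum_sub_distrib, ← mul_sum, ← mul_sum] at hsum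
  rw [← hV] at h1
  rw [hVu]
  have hUs2 : ((X : ℝ) / K + 2) * ∑ k ∈ Ioc K (2 * K), U k ≤ (s ^ 2 / K + 2) * (r * (K / s) * V) := by
    rw [hs2]
    exact mul_le_mul_of_nonneg_left hUs (by positivity)
  have hWs2 : (3 * H * (PP w (2 * K) / K)) * ∑ k ∈ Ioc K (2 * K), W k ≤
      3 * PP w (2 * K) / K * (r * (K / s)) * (s ^ 2 * V) := by
    have h2 : (3 * H * (PP w (2 * K) / K)) * ∑ k ∈ Ioc K (2 * K), W k ≤
        (3 * H * (PP w (2 * K) / K)) * (r * (K / s) * H) :=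
      mul_le_mul_of_nonneg_left hWs (by positivity)
    refine h2.trans (le_of_eq ?_)
    rw [← hH2]
    ring
  have hnum := num_g ε r L s K (PP w (2 * K)) P F V D hε hr hP1 hLG hL1 hsG hKD hPP0 hPPb hF hV0
  have hfin : (1 - ε) * F * K * V = (1 - ε / 2) * F * K * V - (ε / 2) * F * K * V := by ring
  rw [hfin]
  linarith only [hsum, h1, hUs2, hWs2, hnum]

end Pool.Agent.H535.AK
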