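import Pool.Agent.H535.AK.Mass
import Pool.Agent.H535.AW.Good

set_option autoImplicit false

/-!
Lower bound for the mean square at the fractions with denominators in `(K, 2K]` away from the fractions
with small denominators: abstract form.
-/

open Finset

namespace Pool.Agent.H535.AK

open Pool.Agent.Helper112 Pool.Agent.W110.HV
open Pool.Agent.H535.AW hiding mass good_part

theorem good_part (Q M X K n N R G : ℕ) (hQ : 0 < Q) (hM : M = N * G) (hG : 0 < G) (hN : 0 < N)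
    (hn : 0 < n) (hnK : n ≤ K) (hR : 0 < R) (v : ℕ → ℂ)
    (lm T : ℝ) (hT : 1 ≤ T) (hlm : 0 ≤ lm) (hmp : MP Q X v lm T)
    (hdiv : ∀ r : ℕ, 1 ≤ r → r ≤ Q → r ∣ M) (hdivK : ∀ k : ℕ, K < k → k ≤ 2 * K → k ∣ M)
    (hXM : X ≤ M) (hRT : (R : ℝ) * T ≤ Q)
    (hTn : 2 * T * ((Q : ℝ) + 1) * (1 / ((n : ℝ) + 1) + (R : ℝ) / N) ≤ 1)
    (η : ℝ) (hη : 0 < η) (hη1 : η ≤ 1)
    (B : ℝ) (hB : B = (1 - (n : ℝ) / K) / N - (2 / ((n : ℝ) + 1) + 1 / R) / K) (hB0 : 0 ≤ B) :
    ((K : ℝ) - n) * B * (N * ((1 - η) * (1 - lm) - (1 / η) * (2 * Real.pi * X / N) ^ 2)) *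
        ∑ n ∈ Icc 1 X, ‖v n‖ ^ 2 ≤
      ∑ k ∈ Ioc K (2 * K), (1 / (k : ℝ)) * ∑ j ∈ GF n N R k, ‖SX X v ((j : ℝ) / k)‖ ^ 2 := by
  classical
  have hM0 : 0 < M := by rw [hM]; positivity
  have hM0' : (0 : ℝ) < M := by exact_mod_cast hM0
  have hN0 : (0 : ℝ) < N := by exact_mod_cast hN
  have hG0 : (0 : ℝ) < G := by exact_mod_cast hG
  have hMG : (M : ℝ) = N * G := by exact_mod_cast hM
  set f : ℕ → ℂ := fun x => SX X v ((x : ℝ) / M) with hf
  set V := ∑ n ∈ Icc 1 X, ‖v n‖ ^ 2 with hV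
  have hV0 : 0 ≤ V := sum_nonneg fun _ _ => by positivity
  set Gd : Finset ℕ := (range N).filter (fun c => GoodC n N R c) with hGd
  -- step 1: lower bound for each `k`
  have h1 : ∀ k ∈ Ioc K (2 * K), ∑ c ∈ Gd,
      ((Ico ⌈(k : ℝ) * ((c : ℝ) / N)⌉ ⌈(k : ℝ) * ((c : ℝ) / N) + k / N⌉).card : ℝ) * max (EC f c G η) 0 ≤
      ∑ j ∈ GF n N R k, ‖SX X v ((j : ℝ) / k)‖ ^ 2 := by
    intro k hk
    rw [mem_Ioc] at hk
    have hk0 : 0 < k := by omega
    have hk0' : (0 : ℝ) < k := by exact_mod_cast hk0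
    obtain ⟨m, hm⟩ := hdivK k hk.1 hk.2
    have hmM : (M : ℝ) = k * m := by exact_mod_cast hm
    have hm0' : (0 : ℝ) < m := by
      by_contra hcon
      push Not at hcon
      have : (m : ℝ) = 0 := le_antisymm hcon (Nat.cast_nonneg _)
      rw [hmM, this, mul_zero] at hM0'
      exact lt_irrefl _ hM0'
    have e1 : ∑ j ∈ GF n N R k, ‖SX X v ((j : ℝ) / k)‖ ^ 2 =
        ∑ c ∈ Gd, ∑ j ∈ (range k).filter (fun j => j * N / k = c), ‖SX X v ((j : ℝ) / k)‖ ^ 2 := by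
      have hmap : ∀ j ∈ GF n N R k, j * N / k ∈ Gd := by
        intro j hj
        unfold GF at hj
        rw [mem_filter, mem_range] at hj
        rw [hGd, mem_filter, mem_range]
        refine ⟨?_, hj.2⟩
        rw [Nat.div_lt_iff_lt_mul hk0, mul_comm]
        exact Nat.mul_lt_mul_of_pos_left hj.1 hN
      rw [← sum_fiberwise_of_maps_to hmap]
      refine sum_congr rfl fun c hc => ?_
      rw [hGd, mem_filter] at hc
      refine sum_congr ?_ fun _ _ => rfl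
      ext j
      unfold GF
      rw [mem_filter, mem_filter, mem_filter]
      constructor
      · rintro ⟨⟨h1, _⟩, h3⟩
        exact ⟨h1, h3⟩
      · rintro ⟨h1, h3⟩
        refine ⟨⟨h1, ?_⟩, h3⟩
        rw [h3]
        exact hc.2
    rw [e1]
    refine sum_le_sum fun c hc => ?_
    rw [hGd, mem_filter, mem_range] at hc
    have h2 : ∀ j ∈ (range k).filter (fun j => j * N / k = c), max (EC f c G η) 0 ≤ ‖SX X v ((j : ℝ) / k)‖ ^ 2 := by
      intro j hj
      rw [mem_filter, mem_range] at hj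
      refine max_le ?_ (by positivity)
      have e2 : SX X v ((j : ℝ) / k) = f (j * m) := by
        rw [hf]
        simp only
        congr 1
        rw [hmM]
        push_cast
        field_simp
      rw [e2]
      apply EC_le f c G hG η hη
      rw [mem_Ico]
      -- `c ≤ jN/k < c+1`
      have h3 : c * k ≤ j * N := by
        rw [← hj.2]
        exact Nat.div_mul_le_self _ _
      have h4 : j * N < (c + 1) * k := by
        rw [← hj.2]
        have := Nat.lt_mul_div_succ (j * N) hk0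
        rw [mul_comm k] at this
        exact this
      have h5 : k * m = N * G := by rw [← hm, ← hM]
      constructor
      · have h6 : (c * G) * k ≤ (j * m) * k := by
          calc (c * G) * k = (c * k) * G := by ring
            _ ≤ (j * N) * G := Nat.mul_le_mul_right G h3
            _ = j * (N * G) := by ring
            _ = (j * m) * k := by rw [← h5]; ring
        exact Nat.le_of_mul_le_mul_right h6 hk0
      · have h6 : (j * m) * k < ((c + 1) * G) * k := by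
          calc (j * m) * k = j * (k * m) := by ring
            _ = (j * N) * G := by rw [h5]; ring
            _ < ((c + 1) * k) * G := Nat.mul_lt_mul_of_pos_right h4 hG
            _ = ((c + 1) * G) * k := by ring
        exact Nat.lt_of_mul_lt_mul_right h6
    have h3 := sum_le_sum h2
    rw [sum_const, nsmul_eq_mul] at h3
    refine le_trans (mul_le_mul_of_nonneg_right ?_ (le_max_right _ _)) h3
    exact_mod_cast cell_count N k c hk0 hN hc.1
  -- step 2: sum over `k`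
  have h2 : ∑ c ∈ Gd, (((K : ℝ) - n) * B) * max (EC f c G η) 0 ≤
      ∑ k ∈ Ioc K (2 * K), (1 / (k : ℝ)) * ∑ j ∈ GF n N R k, ‖SX X v ((j : ℝ) / k)‖ ^ 2 := by
    have h3 : ∑ k ∈ Ioc K (2 * K), (1 / (k : ℝ)) * ∑ c ∈ Gd,
        ((Ico ⌈(k : ℝ) * ((c : ℝ) / N)⌉ ⌈(k : ℝ) * ((c : ℝ) / N) + k / N⌉).card : ℝ) * max (EC f c G η) 0 ≤
        ∑ k ∈ Ioc K (2 * K), (1 / (k : ℝ)) * ∑ j ∈ GF n N R k, ‖SX X v ((j : ℝ) / k)‖ ^ 2 :=
      sum_le_sum fun k hk => mul_le_mul_of_nonneg_left (h1 k hk) (by positivity)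
    refine le_trans ?_ h3
    have e1 : ∑ k ∈ Ioc K (2 * K), (1 / (k : ℝ)) * ∑ c ∈ Gd,
        ((Ico ⌈(k : ℝ) * ((c : ℝ) / N)⌉ ⌈(k : ℝ) * ((c : ℝ) / N) + k / N⌉).card : ℝ) * max (EC f c G η) 0 =
        ∑ c ∈ Gd, (∑ k ∈ Ioc K (2 * K), (1 / (k : ℝ)) *
        ((Ico ⌈(k : ℝ) * ((c : ℝ) / N)⌉ ⌈(k : ℝ) * ((c : ℝ) / N) + k / N⌉).card : ℝ)) * max (EC f c G η) 0 := by
      rw [sum_congr rfl fun (k : ℕ) _ => mul_sum Gd _ (1 / (k : ℝ)), sum_comm]
      refine sum_congr rfl fun c _ => ?_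
      rw [sum_mul]
      refine sum_congr rfl fun k _ => ?_
      ring
    rw [e1]
    refine sum_le_sum fun c hc => mul_le_mul_of_nonneg_right ?_ (le_max_right _ _)
    rw [hGd, mem_filter] at hc
    exact count ((c : ℝ) / N) K n N R hn hnK hN hR hc.2 B hB hB0
  refine le_trans ?_ h2
  rw [← mul_sum, mul_assoc]
  have hKn : (n : ℝ) ≤ K := by exact_mod_cast hnK
  refine mul_le_mul_of_nonneg_left ?_ (mul_nonneg (by linarith) hB0)
  have h3 : ∑ c ∈ Gd, EC f c G η ≤ ∑ c ∈ Gd, max (EC f c G η) 0 := sum_le_sum fun c _ => le_max_left _ _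
  refine le_trans ?_ h3
  -- step 3
  have h4 : ∑ c ∈ Gd, EC f c G η = (1 - η) * (1 / G) * (∑ c ∈ Gd, ∑ x ∈ Ico (c * G) ((c + 1) * G), ‖f x‖ ^ 2) -
      (G / η) * ∑ c ∈ Gd, ∑ t ∈ Ico (c * G) ((c + 1) * G), ‖f (t + 1) - f t‖ ^ 2 := by
    unfold EC
    rw [sum_sub_distrib, ← mul_sum, ← mul_sum]
  have h5 : ∑ c ∈ Gd, ∑ t ∈ Ico (c * G) ((c + 1) * G), ‖f (t + 1) - f t‖ ^ 2 ≤
      M * (2 * Real.pi * X / M) ^ 2 * V := by
    rw [hGd, ← sum_cells N G hG (fun t => ‖f (t + 1) - f t‖ ^ 2) (fun c => GoodC n N R c)]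
    refine le_trans (sum_le_sum_of_subset_of_nonneg (filter_subset _ _) fun _ _ _ => by positivity) ?_
    rw [← hM]
    exact diff_sum X M hXM hM0 v
  have h6 : (1 - lm) * (M * V) ≤ ∑ c ∈ Gd, ∑ x ∈ Ico (c * G) ((c + 1) * G), ‖f x‖ ^ 2 := by
    rw [hGd, ← sum_cells N G hG (fun x => ‖f x‖ ^ 2) (fun c => GoodC n N R c)]
    have h7 := sum_filter_add_sum_filter_not (range (N * G)) (fun x => GoodC n N R (x / G)) (fun x => ‖f x‖ ^ 2)
    have h8 := Pool.Agent.H535.AK.mass Q M X hQ v lm T hT hlm hmp hdiv hXM hM0 (BadP n N R G)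
      (bad_arc Q n N R G M hM hG hN T hT hdiv hRT hTn)
    have h9 := parseval X M hXM hM0 v
    have h10 : ∑ x ∈ range (N * G), ‖f x‖ ^ 2 = M * V := by
      rw [← hM]
      exact h9
    have h11 : ∑ x ∈ (range (N * G)).filter (fun x => ¬ GoodC n N R (x / G)), ‖f x‖ ^ 2 ≤ lm * (M * V) := by
      refine le_trans (le_of_eq ?_) h8
      unfold BadP
      rfl
    linarith
  rw [h4]
  have h7 : (1 - η) * (1 / G) * ((1 - lm) * (M * V)) ≤
      (1 - η) * (1 / G) * (∑ c ∈ Gd, ∑ x ∈ Ico (c * G) ((c + 1) * G), ‖f x‖ ^ 2) :=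
    mul_le_mul_of_nonneg_left h6 (mul_nonneg (by linarith) (by positivity))
  have h8 : (G / η) * ∑ c ∈ Gd, ∑ t ∈ Ico (c * G) ((c + 1) * G), ‖f (t + 1) - f t‖ ^ 2 ≤
      (G / η) * (M * (2 * Real.pi * X / M) ^ 2 * V) := mul_le_mul_of_nonneg_left h5 (by positivity)
  have h9 : N * ((1 - η) * (1 - lm) - (1 / η) * (2 * Real.pi * X / N) ^ 2) * V =
      (1 - η) * (1 / G) * ((1 - lm) * (M * V)) - (G / η) * (M * (2 * Real.pi * X / M) ^ 2 * V) := by
    rw [hMG]
    field_simp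
  linarith

end Pool.Agent.H535.AK
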