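import Pool.Agent.H535.AK.Hs
import Pool.Agent.H535.AW.Psd

set_option autoImplicit false

/-!
The decomposition of the Ramanujan sums adapted to the sieve, and the positivity of its parts.
-/

open Finset

namespace Pool.Agent.H535.AK

open Pool.Agent.H535.AW (cr cr_one cr_mul sum_div_mul PD PD_one PD_mul PD_prod PD_form PD_cr cr_prime)

variable {w : ℕ → ℕ}

/-- the primitive part at a prime power -/
noncomputable def kp (w : ℕ → ℕ) (p j : ℕ) (h : ℤ) : ℂ :=
  cr (p ^ j) h - (if j = 1 then ((g w p : ℝ) : ℂ) else 0)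

/-- the primitive part -/
noncomputable def kk (w : ℕ → ℕ) (s : ℕ) (h : ℤ) : ℂ := ∏ p ∈ s.primeFactors, kp w p (s.factorization p) h

theorem kk_one (h : ℤ) : kk w 1 h = 1 := by
  unfold kk
  simp

theorem kk_mul {m n : ℕ} (hmn : m.Coprime n) (h : ℤ) : kk w (m * n) h = kk w m h * kk w n h := by
  unfold kk
  rw [hmn.primeFactors_mul, prod_union hmn.disjoint_primeFactors]
  congr 1
  · refine prod_congr rfl fun p hp => ?_
    congr 1
    rw [Nat.factorization_mul_of_coprime hmn, Finsupp.add_apply]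
    have : n.factorization p = 0 := by
      apply Nat.factorization_eq_zero_of_not_dvd
      intro hd
      have h1 := hmn.disjoint_primeFactors
      rw [Finset.disjoint_left] at h1
      have h2 := Nat.mem_primeFactors.1 hp
      rcases Nat.eq_zero_or_pos n with h0 | h0
      · subst h0
        rw [Nat.coprime_zero_right] at hmn
        subst hmn
        exact h2.1.one_lt.ne' (Nat.dvd_one.1 h2.2.1)
      · exact h1 hp (Nat.mem_primeFactors.2 ⟨h2.1, hd, h0.ne'⟩)
    omega
  · refine prod_congr rfl fun p hp => ?_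
    congr 1
    rw [Nat.factorization_mul_of_coprime hmn, Finsupp.add_apply]
    have : m.factorization p = 0 := by
      apply Nat.factorization_eq_zero_of_not_dvd
      intro hd
      have h1 := hmn.disjoint_primeFactors
      rw [Finset.disjoint_right] at h1
      have h2 := Nat.mem_primeFactors.1 hp
      rcases Nat.eq_zero_or_pos m with h0 | h0
      · subst h0
        rw [Nat.coprime_zero_left] at hmn
        subst hmn
        exact h2.1.one_lt.ne' (Nat.dvd_one.1 h2.2.1)
      · exact h1 hp (Nat.mem_primeFactors.2 ⟨h2.1, hd, h0.ne'⟩)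
    omega

theorem kk_pow {p : ℕ} (hp : p.Prime) {j : ℕ} (hj : 0 < j) (h : ℤ) : kk w (p ^ j) h = kp w p j h := by
  unfold kk
  rw [Nat.primeFactors_prime_pow hj.ne' hp, prod_singleton, hp.factorization_pow, Finsupp.single_eq_same]

/-- the decomposition of the Ramanujan sum -/
theorem cr_decomp (h : ℤ) (r : ℕ) (hr : 1 ≤ r) :
    cr r h = ∑ s ∈ r.divisors, kk w s h * (hs w s (r / s) : ℂ) := by
  induction r using Nat.recOnPosPrimePosCoprime with
  | prime_pow p j hp hj =>
    rw [Nat.divisors_prime_pow hp, sum_map]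
    simp only [Function.Embedding.coeFn_mk]
    rw [sum_range_succ]
    have hp0 : 0 < p := hp.pos
    rw [Nat.div_self (pow_pos hp0 j), hs_one, kk_pow hp hj]
    obtain ⟨i, rfl⟩ : ∃ i, j = i + 1 := ⟨j - 1, by omega⟩
    rw [sum_range_succ']
    have h1 : ∑ k ∈ range i, kk w (p ^ (k + 1)) h *
        ((hs w (p ^ (k + 1)) (p ^ (i + 1) / p ^ (k + 1)) : ℝ) : ℂ) = 0 := by
      refine sum_eq_zero fun k hk => ?_
      rw [mem_range] at hk
      have e1 : p ^ (i + 1) / p ^ (k + 1) = p ^ (i - k) := by
        rw [Nat.pow_div (by omega) hp0]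
        congr 1
        omega
      have e2 : hs w (p ^ (k + 1)) (p ^ (i + 1) / p ^ (k + 1)) = 0 := by
        rw [e1]
        unfold hs
        rw [if_neg]
        rintro ⟨_, h3⟩
        have h4 : ¬ (p ^ (i - k)).Coprime (p ^ (k + 1)) := by
          rw [Nat.coprime_pow_left_iff (by omega), Nat.coprime_pow_right_iff (by omega)]
          exact fun h5 => hp.one_lt.ne' (by simpa using h5)
        exact h4 h3
      rw [e2]
      simp
    rw [h1, zero_add, pow_zero, kk_one, Nat.div_one]
    have h2 : (hs w 1 (p ^ (i + 1)) : ℂ) = (if i + 1 = 1 then ((g w p : ℝ) : ℂ) else 0) := by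
      rcases Nat.eq_zero_or_pos i with hi | hi
      · subst hi
        rw [zero_add, pow_one, if_pos rfl, hs_prime_eq 1 p hp (by
          intro hd
          exact hp.one_lt.ne' (Nat.dvd_one.1 hd))]
      · rw [if_neg (by omega), hs_zero_of_not]
        · simp
        · intro hsq
          have h3 := hsq p (by
            rw [← pow_two]
            exact pow_dvd_pow p (by omega))
          exact hp.one_lt.ne' (Nat.isUnit_iff.1 h3)
    rw [h2]
    unfold kp
    push_cast
    ring
  | zero => omega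
  | one => rw [cr_one]; simp [kk_one, hs_one]
  | coprime a b ha hb hab iha ihb =>
    rw [cr_mul hab, iha (by omega), ihb (by omega), sum_div_mul hab, sum_product,
      sum_mul_sum]
    refine sum_congr rfl fun d hd => sum_congr rfl fun e he => ?_
    simp only
    rw [Nat.mem_divisors] at hd he
    have h1 : a * b / (d * e) = a / d * (b / e) := Nat.mul_div_mul_comm hd.1 he.1
    have hda := Nat.div_dvd_of_dvd hd.1
    have heb := Nat.div_dvd_of_dvd he.1
    rw [h1, hs_mul2 ((hab.coprime_dvd_left hda).coprime_dvd_right heb)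
      ((hab.coprime_dvd_left hda).coprime_dvd_right he.1)
      ((hab.symm.coprime_dvd_left heb).coprime_dvd_right hd.1),
      kk_mul ((hab.coprime_dvd_left hd.1).coprime_dvd_right he.1)]
    push_cast
    ring

/-- the residue classes `B p` removed modulo the primes `p ≤ Q` -/
structure Rem (w : ℕ → ℕ) (B : ℕ → Finset ℤ) (Q : ℕ) : Prop where
  card : ∀ p : ℕ, p.Prime → p ≤ Q → (B p).card = w p
  inj : ∀ p : ℕ, p.Prime → p ≤ Q → ∀ b ∈ B p, ∀ c ∈ B p, (p : ℤ) ∣ b - c → b = c

theorem PD_kp_one (A : Set ℤ) (p : ℕ) (hp : p.Prime) (hw : w p < p) (B : Finset ℤ) (hB : B.card = w p)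
    (hinj : ∀ b ∈ B, ∀ c ∈ B, (p : ℤ) ∣ b - c → b = c)
    (hA : ∀ n ∈ A, ∀ b ∈ B, ¬ (p : ℤ) ∣ n - b) :
    PD A (kp w p 1) := by
  classical
  have : Fact p.Prime := ⟨hp⟩
  set R : Finset (ZMod p) := B.image (fun b : ℤ => (b : ZMod p)) with hR
  have hRc : R.card = w p := by
    rw [hR, card_image_of_injOn, hB]
    intro b hb c hc h
    apply hinj b hb c hc
    rw [← ZMod.intCast_zmod_eq_zero_iff_dvd, Int.cast_sub]
    simp only at h
    rw [h, sub_self]
  set q : ℝ := 1 / ((p : ℝ) - w p) with hq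
  have h2 : (2 : ℝ) ≤ p := by exact_mod_cast hp.two_le
  have hw' : (w p : ℝ) + 1 ≤ p := by exact_mod_cast hw
  have hp1 : (p : ℝ) - w p ≠ 0 := by
    have : 0 < (p : ℝ) - w p := by linarith
    exact this.ne'
  refine ⟨{a : ZMod p // a ∉ R}, inferInstance,
    fun a n => ((Real.sqrt p * ((if (n : ZMod p) = (a : ZMod p) then 1 else 0) - q) : ℝ) : ℂ),
    fun m hm n hn => ?_⟩
  have hnot : ∀ n ∈ A, (n : ZMod p) ∉ R := by
    intro n hn h
    rw [hR, mem_image] at h
    obtain ⟨b, hb, h1⟩ := h
    apply hA n hn b hb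
    rw [← ZMod.intCast_zmod_eq_zero_iff_dvd, Int.cast_sub, h1, sub_self]
  have hmb := hnot m hm
  have hnb := hnot n hn
  have hdvd : (p : ℤ) ∣ m - n ↔ (m : ZMod p) = (n : ZMod p) := by
    rw [← ZMod.intCast_zmod_eq_zero_iff_dvd, Int.cast_sub, sub_eq_zero]
  have hreal : ∑ a : {a : ZMod p // a ∉ R},
      (Real.sqrt p * ((if (m : ZMod p) = (a : ZMod p) then 1 else 0) - q)) *
      (Real.sqrt p * ((if (n : ZMod p) = (a : ZMod p) then 1 else 0) - q)) =
      (if (m : ZMod p) = (n : ZMod p) then (p : ℝ) else 0) - 1 - g w p := by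
    have s1 : ∀ c : ZMod p, c ∉ R → ∑ a : {a : ZMod p // a ∉ R},
        (if c = (a : ZMod p) then (1 : ℝ) else 0) = 1 := by
      intro c hc
      rw [sum_eq_single (⟨c, hc⟩ : {a : ZMod p // a ∉ R})]
      · simp
      · intro a _ ha
        rw [if_neg]
        intro h
        exact ha (Subtype.ext h.symm)
      · intro h
        exact absurd (mem_univ _) h
    have s2 : ∑ a : {a : ZMod p // a ∉ R},
        (if (m : ZMod p) = (a : ZMod p) then (1 : ℝ) else 0) * (if (n : ZMod p) = (a : ZMod p) then (1 : ℝ) else 0) =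
        if (m : ZMod p) = (n : ZMod p) then 1 else 0 := by
      split_ifs with h
      · refine (sum_congr rfl fun a _ => ?_).trans (s1 (m : ZMod p) hmb)
        rw [← h]
        by_cases h3 : (m : ZMod p) = (a : ZMod p)
        · rw [if_pos h3, mul_one]
        · rw [if_neg h3, mul_zero]
      · refine sum_eq_zero fun a _ => ?_
        by_cases h3 : (m : ZMod p) = (a : ZMod p)
        · rw [if_pos h3, if_neg (fun h4 : (n : ZMod p) = (a : ZMod p) => h (h3.trans h4.symm)), mul_zero]
        · rw [if_neg h3, zero_mul]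
    have s3 : ((univ : Finset {a : ZMod p // a ∉ R}).card : ℝ) = (p : ℝ) - w p := by
      rw [card_univ, Fintype.card_subtype_compl, ZMod.card, Fintype.card_coe, hRc,
        Nat.cast_sub hw.le]
    have hsq : Real.sqrt p * Real.sqrt p = p := Real.mul_self_sqrt (by linarith)
    have e1 : ∀ a : {a : ZMod p // a ∉ R},
        (Real.sqrt p * ((if (m : ZMod p) = (a : ZMod p) then 1 else 0) - q)) *
        (Real.sqrt p * ((if (n : ZMod p) = (a : ZMod p) then 1 else 0) - q)) =
        p * ((if (m : ZMod p) = (a : ZMod p) then (1 : ℝ) else 0) * (if (n : ZMod p) = (a : ZMod p) then (1 : ℝ) else 0))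
        - p * q * (if (m : ZMod p) = (a : ZMod p) then (1 : ℝ) else 0)
        - p * q * (if (n : ZMod p) = (a : ZMod p) then (1 : ℝ) else 0) + p * q ^ 2 := by
      intro a
      calc _ = (Real.sqrt p * Real.sqrt p) * (((if (m : ZMod p) = (a : ZMod p) then (1 : ℝ) else 0) - q) *
            ((if (n : ZMod p) = (a : ZMod p) then (1 : ℝ) else 0) - q)) := by ring
        _ = _ := by
          rw [hsq]
          ring
    rw [sum_congr rfl fun a _ => e1 a, sum_add_distrib, sum_sub_distrib, sum_sub_distrib, ← mul_sum,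
      ← mul_sum, ← mul_sum, s1 _ hmb, s1 _ hnb, s2, sum_const, nsmul_eq_mul, s3]
    have hq1 : ((p : ℝ) - w p) * q = 1 := by rw [hq]; field_simp
    have hg : g w p = w p * q := by
      unfold g
      rw [hq]
      ring
    have hq2 : (p : ℝ) * q = 1 + g w p := by rw [hg]; linarith
    have hq3 : ((p : ℝ) - w p) * (p * q ^ 2) = 1 + g w p := by
      calc ((p : ℝ) - w p) * (p * q ^ 2) = (((p : ℝ) - w p) * q) * (p * q) := by ring
        _ = 1 + g w p := by rw [hq1, hq2]; ring
    rw [hq3]
    split_ifs <;> linarith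
  unfold kp
  rw [if_pos rfl, pow_one, cr_prime p hp]
  have e2 : (if (p : ℤ) ∣ m - n then (p : ℂ) else 0) - 1 - ((g w p : ℝ) : ℂ) =
      (((if (m : ZMod p) = (n : ZMod p) then (p : ℝ) else 0) - 1 - g w p : ℝ) : ℂ) := by
    by_cases h : (m : ZMod p) = (n : ZMod p)
    · rw [if_pos (hdvd.2 h), if_pos h]
      push_cast
      ring
    · rw [if_neg (fun hh => h (hdvd.1 hh)), if_neg h]
      push_cast
      ring
  rw [e2, ← hreal]
  push_cast
  refine sum_congr rfl fun a _ => ?_
  simp only [map_mul, map_sub, Complex.conj_ofReal]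

theorem PD_kk (hw : ∀ p : ℕ, p.Prime → w p < p) (A : Set ℤ) (B : ℕ → Finset ℤ) (Q s : ℕ) (hQ : s ≤ Q)
    (hR : Rem w B Q) (hA : ∀ n ∈ A, ∀ p ∈ s.primeFactors, ∀ b ∈ B p, ¬ (p : ℤ) ∣ n - b) :
    PD A (kk w s) := by
  unfold kk
  refine PD_prod A s.primeFactors (fun p => kp w p (s.factorization p)) fun p hp => ?_
  have hpp := Nat.prime_of_mem_primeFactors hp
  have hpQ : p ≤ Q := (Nat.le_of_mem_primeFactors hp).trans hQ
  by_cases h1 : s.factorization p = 1
  · rw [h1]
    exact PD_kp_one A p hpp (hw p hpp) (B p) (hR.card p hpp hpQ) (hR.inj p hpp hpQ) fun n hn => hA n hn p hp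
  · have h2 : kp w p (s.factorization p) = cr (p ^ s.factorization p) := by
      funext h
      unfold kp
      rw [if_neg h1, sub_zero]
    rw [h2]
    exact PD_cr A _ (Nat.one_le_pow _ _ hpp.pos)

end Pool.Agent.H535.AK
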