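import Pool.Agent.H535.AK.Bd
import Pool.Agent.H535.AW.Lam

set_option autoImplicit false

/-!
The growth of the sums of the sieve weights, dimension `κ`.
-/

open Finset

namespace Pool.Agent.H535.AK

open Pool.Agent.H535.AW (floor_exp_mem deriv_max log_small)

variable {w : ℕ → ℕ} {κ : ℕ} {A : ℝ}

theorem Ls_eq (s : ℕ) (l b : ℝ) (hl : l ≤ b) :
    Ls w s (Real.exp l) = ∑ t ∈ Icc 1 ⌊Real.exp b⌋₊, hs w s t * (if Real.log t ≤ l then 1 else 0) := by
  unfold Ls
  have h1 : Icc 1 ⌊Real.exp l⌋₊ = (Icc 1 ⌊Real.exp b⌋₊).filter (fun t : ℕ => Real.log t ≤ l) := by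
    ext t
    rw [mem_filter, mem_Icc, mem_Icc]
    constructor
    · rintro ⟨h1, h2⟩
      have h3 := (floor_exp_mem t h1 l).1 h2
      exact ⟨⟨h1, (floor_exp_mem t h1 b).2 (h3.trans hl)⟩, h3⟩
    · rintro ⟨⟨h1, _⟩, h3⟩
      exact ⟨h1, (floor_exp_mem t h1 l).2 h3⟩
  rw [h1, sum_filter]
  refine sum_congr rfl fun t _ => ?_
  split_ifs <;> ring

theorem Is_eq (s : ℕ) (l b : ℝ) (hl : l ≤ b) :
    Is w s (Real.exp l) = ∑ t ∈ Icc 1 ⌊Real.exp b⌋₊, hs w s t * max (l - Real.log t) 0 := by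
  unfold Is
  have h1 : Icc 1 ⌊Real.exp l⌋₊ = (Icc 1 ⌊Real.exp b⌋₊).filter (fun t : ℕ => Real.log t ≤ l) := by
    ext t
    rw [mem_filter, mem_Icc, mem_Icc]
    constructor
    · rintro ⟨h1, h2⟩
      have h3 := (floor_exp_mem t h1 l).1 h2
      exact ⟨⟨h1, (floor_exp_mem t h1 b).2 (h3.trans hl)⟩, h3⟩
    · rintro ⟨⟨h1, _⟩, h3⟩
      exact ⟨h1, (floor_exp_mem t h1 l).2 h3⟩
  rw [h1, sum_filter]
  refine sum_congr rfl fun t ht => ?_
  have ht0 : (0 : ℝ) < t := by exact_mod_cast (mem_Icc.1 ht).1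
  split_ifs with h
  · rw [Real.log_div (Real.exp_pos l).ne' ht0.ne', Real.log_exp, max_eq_left (by linarith)]
  · rw [max_eq_right (by linarith), mul_zero]

theorem mono (hw : ∀ p : ℕ, p.Prime → w p < p) (m s : ℕ) (A a b : ℝ) (hab : a ≤ b) (hA : 0 < a + A)
    (h : ∀ l : ℝ, a ≤ l → l ≤ b → ((m : ℝ) + 1) * Is w s (Real.exp l) ≤ Ls w s (Real.exp l) * (l + A)) :
    Is w s (Real.exp a) / (a + A) ^ (m + 1) ≤ Is w s (Real.exp b) / (b + A) ^ (m + 1) := by
  set M := ⌊Real.exp b⌋₊ with hM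
  set J : ℝ → ℝ := fun l => ∑ t ∈ Icc 1 M, hs w s t * max (l - Real.log t) 0 with hJ
  set D : ℝ → ℝ := fun l => ∑ t ∈ Icc 1 M, hs w s t * (if Real.log t ≤ l then 1 else 0) with hD
  have hJd : ∀ x : ℝ, HasDerivWithinAt J (D x) (Set.Ici x) x := by
    intro x
    have : HasDerivWithinAt (∑ t ∈ Icc 1 M, fun l : ℝ => hs w s t * max (l - Real.log t) 0)
        (∑ t ∈ Icc 1 M, hs w s t * (if Real.log t ≤ x then 1 else 0)) (Set.Ici x) x :=
      HasDerivWithinAt.sum fun t _ => (deriv_max (Real.log t) x).const_mul (hs w s t)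
    have e : J = ∑ t ∈ Icc 1 M, fun l : ℝ => hs w s t * max (l - Real.log t) 0 := by
      ext l
      simp only [hJ, Finset.sum_apply]
    rw [e]
    exact this
  have hJc : Continuous J := by
    refine continuous_finsetSum _ fun t _ => continuous_const.mul ?_
    exact (continuous_id.sub continuous_const).max continuous_const
  have hJI : ∀ l, l ≤ b → J l = Is w s (Real.exp l) := fun l hl => (Is_eq s l b hl).symm
  have hDL : ∀ l, l ≤ b → D l = Ls w s (Real.exp l) := fun l hl => (Ls_eq s l b hl).symm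
  have hpos : ∀ l, a ≤ l → 0 < l + A := fun l hl => by linarith
  have key := image_le_of_deriv_right_le_deriv_boundary (f := fun _ : ℝ => J a / (a + A) ^ (m + 1))
    (f' := fun _ => 0) (a := a) (b := b) (B := fun l => J l / (l + A) ^ (m + 1))
    (B' := fun l => (D l * (l + A) ^ (m + 1) - J l * (((m + 1 : ℕ) : ℝ) * (l + A) ^ m)) /
      ((l + A) ^ (m + 1)) ^ 2)
    continuousOn_const (fun x _ => hasDerivWithinAt_const _ _ _) le_rfl
    (by
      refine ContinuousOn.div hJc.continuousOn ?_ ?_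
      · exact ((continuous_id.add continuous_const).pow (m + 1)).continuousOn
      · intro x hx
        exact (pow_pos (hpos x hx.1) (m + 1)).ne')
    (by
      intro x hx
      have hx0 := hpos x hx.1
      have h1 : HasDerivWithinAt (fun l : ℝ => (l + A) ^ (m + 1)) (((m + 1 : ℕ) : ℝ) * (x + A) ^ m)
          (Set.Ici x) x := by
        have h2 : HasDerivWithinAt (fun l : ℝ => l + A) 1 (Set.Ici x) x :=
          (hasDerivWithinAt_id x _).add_const A
        have h3 := h2.fun_pow (m + 1)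
        simpa using h3
      exact (hJd x).div h1 (pow_pos hx0 (m + 1)).ne')
    (by
      intro x hx
      have hx0 := hpos x hx.1
      have h1 := h x hx.1 hx.2.le
      rw [← hJI x hx.2.le, ← hDL x hx.2.le] at h1
      apply div_nonneg _ (by positivity)
      have h2 := mul_le_mul_of_nonneg_right h1 (pow_nonneg hx0.le m)
      push_cast
      linarith only [h2, (by ring : D x * (x + A) ^ (m + 1) = D x * (x + A) * (x + A) ^ m),
        (by ring : J x * (((m : ℝ) + 1) * (x + A) ^ m) = ((m : ℝ) + 1) * J x * (x + A) ^ m)])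
  have h2 := key (Set.right_mem_Icc.2 hab)
  rw [hJI a hab, hJI b le_rfl] at h2
  exact h2

/-- comparison of `L` at two points -/
theorem ratio (hw : ∀ p : ℕ, p.Prime → w p < p) (m : ℕ) (C : ℝ) (hC : 1 ≤ C)
    (hLI : ∀ s : ℕ, 1 ≤ s → ∀ y : ℝ, 1 ≤ y →
      Ls w s y * (Real.log y - C) ≤ ((m : ℝ) + 1) * Is w s y ∧
        ((m : ℝ) + 1) * Is w s y ≤ Ls w s y * (Real.log y + C + gs w s))
    (s : ℕ) (hs1 : 1 ≤ s) (A : ℝ) (hA : C + gs w s ≤ A) (a b : ℝ) (ha : 0 ≤ a) (hab : a ≤ b) :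
    Ls w s (Real.exp a) * ((a - C) * (b + A) ^ m) ≤ Ls w s (Real.exp b) * (a + A) ^ (m + 1) := by
  have hg := gs_nonneg hw s
  have hA0 : 0 < a + A := by linarith
  have hb0 : 0 < b + A := by linarith
  have hL : ∀ l, 0 ≤ Ls w s (Real.exp l) := fun l => sum_nonneg fun t _ => hs_nonneg hw s t
  have h1 := mono hw m s A a b hab hA0 (by
    intro l hl _
    have h2 := (hLI s hs1 (Real.exp l) (Real.one_le_exp (by linarith))).2
    rw [Real.log_exp] at h2
    have h3 : Ls w s (Real.exp l) * (l + C + gs w s) ≤ Ls w s (Real.exp l) * (l + A) :=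
      mul_le_mul_of_nonneg_left (by linarith) (hL l)
    linarith)
  rw [div_le_div_iff₀ (by positivity) (by positivity)] at h1
  have h2 := (hLI s hs1 (Real.exp a) (Real.one_le_exp ha)).1
  rw [Real.log_exp] at h2
  have h3 := (hLI s hs1 (Real.exp b) (Real.one_le_exp (by linarith))).2
  rw [Real.log_exp] at h3
  have h4 : Ls w s (Real.exp b) * (b + C + gs w s) ≤ Ls w s (Real.exp b) * (b + A) :=
    mul_le_mul_of_nonneg_left (by linarith) (hL b)
  have h5 : ((m : ℝ) + 1) * Is w s (Real.exp b) ≤ Ls w s (Real.exp b) * (b + A) := h3.trans h4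
  have hm0 : (0 : ℝ) ≤ (m : ℝ) + 1 := by positivity
  have h1' := mul_le_mul_of_nonneg_left h1 hm0
  have h6 : Ls w s (Real.exp a) * (a - C) * (b + A) ^ (m + 1) ≤
      Ls w s (Real.exp b) * (b + A) * (a + A) ^ (m + 1) := by
    calc Ls w s (Real.exp a) * (a - C) * (b + A) ^ (m + 1)
        ≤ ((m : ℝ) + 1) * Is w s (Real.exp a) * (b + A) ^ (m + 1) :=
          mul_le_mul_of_nonneg_right h2 (by positivity)
      _ ≤ ((m : ℝ) + 1) * Is w s (Real.exp b) * (a + A) ^ (m + 1) := by linarith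
      _ ≤ Ls w s (Real.exp b) * (b + A) * (a + A) ^ (m + 1) := mul_le_mul_of_nonneg_right h5 (by positivity)
  have h7 : (Ls w s (Real.exp a) * ((a - C) * (b + A) ^ m)) * (b + A) ≤
      (Ls w s (Real.exp b) * (a + A) ^ (m + 1)) * (b + A) := by
    linarith only [h6, (by ring : (Ls w s (Real.exp a) * ((a - C) * (b + A) ^ m)) * (b + A) =
      Ls w s (Real.exp a) * (a - C) * (b + A) ^ (m + 1)),
      (by ring : (Ls w s (Real.exp b) * (a + A) ^ (m + 1)) * (b + A) =
      Ls w s (Real.exp b) * (b + A) * (a + A) ^ (m + 1))]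
  exact le_of_mul_le_mul_right h7 hb0

theorem Ls_nonneg (hw : ∀ p : ℕ, p.Prime → w p < p) (s : ℕ) (y : ℝ) : 0 ≤ Ls w s y :=
  sum_nonneg fun t _ => hs_nonneg hw s t

theorem Ls_mono (hw : ∀ p : ℕ, p.Prime → w p < p) (s : ℕ) {y z : ℝ} (h : y ≤ z) :
    Ls w s y ≤ Ls w s z := by
  unfold Ls
  refine sum_le_sum_of_subset_of_nonneg ?_ (fun t _ _ => hs_nonneg hw s t)
  exact Icc_subset_Icc_right (Nat.floor_le_floor h)

theorem lam_core (hw : ∀ p : ℕ, p.Prime → w p < p) (m : ℕ) (C : ℝ) (hC : 1 ≤ C)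
    (hLI : ∀ s : ℕ, 1 ≤ s → ∀ y : ℝ, 1 ≤ y →
      Ls w s y * (Real.log y - C) ≤ (((m + 1 : ℕ) : ℝ) + 1) * Is w s y ∧
        (((m + 1 : ℕ) : ℝ) + 1) * Is w s y ≤ Ls w s y * (Real.log y + C + gs w s))
    (ε : ℝ) (hε : 0 < ε) (hε1 : ε ≤ 1) (s : ℕ) (hs1 : 1 ≤ s) (B l τ : ℝ) (hB : C + gs w s ≤ B)
    (hBl : 4 * B ≤ ε * l) (hτ : 12 / ε ^ 2 * B ≤ τ) (hτl : τ ≤ l) (a : ℝ) (ha : 0 ≤ a)
    (hal : a + τ ≤ l) :
    Ls w s (Real.exp a) ≤ (1 - (1 - ε) * τ / l) ^ (m + 1) * Ls w s (Real.exp (a + τ)) := by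
  have hg := gs_nonneg hw s
  have hB1 : 1 ≤ B := by linarith
  have hCB : C ≤ B := by linarith
  have hl : 0 < l := by nlinarith
  have hτ0 : 0 < τ := lt_of_lt_of_le (by positivity) hτ
  have hτ1 : 12 * B ≤ ε ^ 2 * τ := by
    rw [div_mul_eq_mul_div, div_le_iff₀ (by positivity)] at hτ
    linarith
  have hL1 := Ls_nonneg hw s (Real.exp (a + τ))
  have hlam : ε ≤ 1 - (1 - ε) * τ / l := by
    have h1 : (1 - ε) * τ / l ≤ 1 - ε := by
      rw [div_le_iff₀ hl]
      exact mul_le_mul_of_nonneg_left hτl (by linarith)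
    linarith
  set lam := 1 - (1 - ε) * τ / l with hlamdef
  have hlam0 : 0 < lam := lt_of_lt_of_le hε hlam
  have hlaml : lam * l = l - (1 - ε) * τ := by
    rw [hlamdef]
    field_simp
  have hε2 : ε ^ 2 ≤ ε := by nlinarith
  have hτ2 : 12 * B ≤ ε * τ := by nlinarith
  rcases le_or_gt (8 * B) (ε * a) with hcase | hcase
  · -- large `a`
    have h1 := ratio hw (m + 1) C hC hLI s hs1 B hB a (a + τ) ha (by linarith)
    set x := a + B with hx
    have hx0 : 0 < x := by linarith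
    have hxa : 8 * B ≤ ε * x := by nlinarith
    have hx2B : 0 < x - 2 * B := by nlinarith
    have hxτ : 0 < x + τ := by linarith
    have hkey : x ^ 2 ≤ lam * ((x - 2 * B) * (x + τ)) := by
      have h2 : x ^ 2 * l ≤ (lam * l) * ((x - 2 * B) * (x + τ)) := by
        rw [hlaml]
        have h3 : x + τ ≤ l + B := by linarith
        have h4 : (x - 2 * B) * (x + τ) ≤ x * (l + B) :=
          mul_le_mul (by linarith) h3 (by linarith) hx0.le
        have h5 : (1 - ε) * τ * ((x - 2 * B) * (x + τ)) ≤ (1 - ε) * τ * (x * (l + B)) :=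
          mul_le_mul_of_nonneg_left h4 (mul_nonneg (by linarith) hτ0.le)
        have h6 : (1 - ε) * (l + B) ≤ l - 3 / 4 * (ε * l) := by nlinarith
        have h7 : (1 - ε) * τ * (x * (l + B)) ≤ τ * x * (l - 3 / 4 * (ε * l)) := by
          have := mul_le_mul_of_nonneg_left h6 (mul_nonneg hτ0.le hx0.le)
          nlinarith
        have h8 : 2 * B * x * l ≤ 1 / 4 * (ε * τ) * x * l := by
          have : 2 * B ≤ 1 / 4 * (ε * τ) := by linarith
          exact mul_le_mul_of_nonneg_right (mul_le_mul_of_nonneg_right this hx0.le) hl.le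
        have h9 : 2 * B * τ * l ≤ 1 / 4 * (ε * x) * τ * l := by
          have : 2 * B ≤ 1 / 4 * (ε * x) := by linarith
          exact mul_le_mul_of_nonneg_right (mul_le_mul_of_nonneg_right this hτ0.le) hl.le
        have h10 : 0 ≤ ε * x * τ * l := by positivity
        nlinarith
      have h3 : x ^ 2 * l ≤ (lam * ((x - 2 * B) * (x + τ))) * l := by linarith
      exact le_of_mul_le_mul_right h3 hl
    have hkey1 : x ≤ lam * (x + τ) := by
      have h2 : lam * ((x - 2 * B) * (x + τ)) ≤ lam * (x * (x + τ)) :=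
        mul_le_mul_of_nonneg_left (mul_le_mul_of_nonneg_right (by linarith) hxτ.le) hlam0.le
      have h3 : x * x ≤ (lam * (x + τ)) * x := by
        linarith only [hkey, h2, (by ring : x ^ 2 = x * x), (by ring : lam * (x * (x + τ)) = (lam * (x + τ)) * x)]
      exact le_of_mul_le_mul_right h3 hx0
    have hkey2 : x ^ (m + 1 + 1) ≤ lam ^ (m + 1) * ((x - 2 * B) * (x + τ) ^ (m + 1)) := by
      calc x ^ (m + 1 + 1) = x ^ 2 * x ^ m := by ring
        _ ≤ (lam * ((x - 2 * B) * (x + τ))) * (lam * (x + τ)) ^ m :=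
            mul_le_mul hkey (pow_le_pow_left₀ hx0.le hkey1 m) (by positivity)
              (by positivity)
        _ = lam ^ (m + 1) * ((x - 2 * B) * (x + τ) ^ (m + 1)) := by
            rw [mul_pow]
            ring
    have h2 : Ls w s (Real.exp a) * ((x - 2 * B) * (x + τ) ^ (m + 1)) ≤
        Ls w s (Real.exp (a + τ)) * x ^ (m + 1 + 1) := by
      refine le_trans (mul_le_mul_of_nonneg_left ?_ (Ls_nonneg hw s _)) h1
      have e1 : a + τ + B = x + τ := by rw [hx]; ring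
      rw [e1]
      exact mul_le_mul_of_nonneg_right (by linarith) (by positivity)
    have h3 : Ls w s (Real.exp a) * ((x - 2 * B) * (x + τ) ^ (m + 1)) ≤
        (lam ^ (m + 1) * Ls w s (Real.exp (a + τ))) * ((x - 2 * B) * (x + τ) ^ (m + 1)) := by
      refine h2.trans ?_
      have := mul_le_mul_of_nonneg_left hkey2 hL1
      refine this.trans (le_of_eq ?_)
      ring
    exact le_of_mul_le_mul_right h3 (mul_pos hx2B (by positivity))
  · -- small `a`
    obtain ⟨k, hk⟩ : ∃ k : ℝ, k = 8 / ε := ⟨_, rfl⟩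
    have hkε : k * ε = 8 := by rw [hk]; field_simp
    have hk8 : 8 ≤ k := by
      rw [hk, le_div_iff₀ hε]
      linarith
    clear hk
    have e1 : ε * (k * B) = 8 * B := by
      rw [← hkε]
      ring
    have hak : a ≤ k * B := by
      have : ε * a ≤ ε * (k * B) := by
        rw [e1]
        exact hcase.le
      exact le_of_mul_le_mul_left this hε
    have hkB : k * B ≤ a + τ := by
      have h0 : 0 ≤ ε * a := mul_nonneg hε.le ha
      have : ε * (k * B) ≤ ε * (a + τ) := by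
        rw [e1]
        linarith only [hτ2, h0, hB1]
      exact le_of_mul_le_mul_left this hε
    have h1 := ratio hw (m + 1) C hC hLI s hs1 B hB (k * B) (a + τ) (by positivity) hkB
    have h2 : Ls w s (Real.exp a) ≤ Ls w s (Real.exp (k * B)) := Ls_mono hw s (Real.exp_le_exp.2 hak)
    have h3 : Ls w s (Real.exp (k * B)) * (((k - 1) * B) * τ ^ (m + 1)) ≤
        Ls w s (Real.exp (a + τ)) * ((k + 1) * B) ^ (m + 1 + 1) := by
      have e1 : k * B + B = (k + 1) * B := by ring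
      rw [e1] at h1
      refine le_trans (mul_le_mul_of_nonneg_left ?_ (Ls_nonneg hw s _)) h1
      have hh : (k - 1) * B ≤ k * B - C := by linarith only [hCB]
      have hh2 : 0 ≤ k * B - C := by
        have := mul_le_mul_of_nonneg_right hk8 (by linarith : (0 : ℝ) ≤ B)
        linarith only [this, hCB, hB1]
      exact mul_le_mul hh (pow_le_pow_left₀ hτ0.le (by linarith) _) (by positivity) hh2
    have h4 : ((k + 1) * B) ^ 2 ≤ ε * (((k - 1) * B) * τ) := by
      have h5 : (k + 1) ^ 2 ≤ 12 / 8 * k * (k - 1) := by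
        have := mul_nonneg (by linarith : (0 : ℝ) ≤ k - 8) (by linarith : (0 : ℝ) ≤ k)
        nlinarith only [this, hk8]
      have h6 : 12 / 8 * k * B ≤ ε * τ := by
        have e2 : ε * (12 / 8 * k * B) = 12 / 8 * (k * ε) * B := by ring
        have : ε * (12 / 8 * k * B) ≤ ε * (ε * τ) := by
          rw [e2, hkε]
          linarith only [hτ1]
        exact le_of_mul_le_mul_left this hε
      calc ((k + 1) * B) ^ 2 = (k + 1) ^ 2 * B ^ 2 := by ring
        _ ≤ (12 / 8 * k * (k - 1)) * B ^ 2 := mul_le_mul_of_nonneg_right h5 (by positivity)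
        _ = ((k - 1) * B) * (12 / 8 * k * B) := by ring
        _ ≤ ((k - 1) * B) * (ε * τ) := mul_le_mul_of_nonneg_left h6 (mul_nonneg (by linarith) (by linarith))
        _ = ε * (((k - 1) * B) * τ) := by ring
    have h4' : (k + 1) * B ≤ ε * τ := by
      have h5 : 0 < (k + 1) * B := mul_pos (by linarith) (by linarith)
      have h6 : ε * (((k - 1) * B) * τ) ≤ (ε * τ) * ((k + 1) * B) := by
        have : (k - 1) * B ≤ (k + 1) * B := mul_le_mul_of_nonneg_right (by linarith) (by linarith)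
        have := mul_le_mul_of_nonneg_left this (by positivity : 0 ≤ ε * τ)
        linarith only [this, (by ring : ε * (((k - 1) * B) * τ) = ε * τ * ((k - 1) * B))]
      have h7 : ((k + 1) * B) * ((k + 1) * B) ≤ (ε * τ) * ((k + 1) * B) := by
        linarith only [h4, h6, (by ring : ((k + 1) * B) ^ 2 = ((k + 1) * B) * ((k + 1) * B))]
      exact le_of_mul_le_mul_right h7 h5
    have hk1 : 0 < (k - 1) * B := mul_pos (by linarith) (by linarith)
    have h4'' : ((k + 1) * B) ^ (m + 1 + 1) ≤ ε ^ (m + 1) * (((k - 1) * B) * τ ^ (m + 1)) := by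
      have h5 : 0 < (k + 1) * B := mul_pos (by linarith) (by linarith)
      calc ((k + 1) * B) ^ (m + 1 + 1) = ((k + 1) * B) ^ 2 * ((k + 1) * B) ^ m := by ring
        _ ≤ (ε * (((k - 1) * B) * τ)) * (ε * τ) ^ m :=
            mul_le_mul h4 (pow_le_pow_left₀ h5.le h4' m) (by positivity) (by positivity)
        _ = ε ^ (m + 1) * (((k - 1) * B) * τ ^ (m + 1)) := by
            rw [mul_pow]
            ring
    have hpos : 0 < ((k - 1) * B) * τ ^ (m + 1) := mul_pos hk1 (by positivity)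
    have h5 : Ls w s (Real.exp a) * (((k - 1) * B) * τ ^ (m + 1)) ≤
        (lam ^ (m + 1) * Ls w s (Real.exp (a + τ))) * (((k - 1) * B) * τ ^ (m + 1)) := by
      calc Ls w s (Real.exp a) * (((k - 1) * B) * τ ^ (m + 1))
          ≤ Ls w s (Real.exp (k * B)) * (((k - 1) * B) * τ ^ (m + 1)) :=
            mul_le_mul_of_nonneg_right h2 hpos.le
        _ ≤ Ls w s (Real.exp (a + τ)) * ((k + 1) * B) ^ (m + 1 + 1) := h3
        _ ≤ Ls w s (Real.exp (a + τ)) * (ε ^ (m + 1) * (((k - 1) * B) * τ ^ (m + 1))) :=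
            mul_le_mul_of_nonneg_left h4'' hL1
        _ = ε ^ (m + 1) * (Ls w s (Real.exp (a + τ)) * (((k - 1) * B) * τ ^ (m + 1))) := by ring
        _ ≤ lam ^ (m + 1) * (Ls w s (Real.exp (a + τ)) * (((k - 1) * B) * τ ^ (m + 1))) :=
            mul_le_mul_of_nonneg_right (pow_le_pow_left₀ hε.le hlam _) (mul_nonneg hL1 hpos.le)
        _ = (lam ^ (m + 1) * Ls w s (Real.exp (a + τ))) * (((k - 1) * B) * τ ^ (m + 1)) := by ring
    exact le_of_mul_le_mul_right h5 hpos

/-- the ratio `L(w)/L(T w)`, uniformly in `s` -/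
theorem lam {m : ℕ} (h : Dim w (m + 1) A) (ε : ℝ) (hε : 0 < ε) (hε1 : ε ≤ 1) :
    ∃ (Q0 : ℕ) (E : ℝ), 3 ≤ Q0 ∧ 0 < E ∧ ∀ Q : ℕ, Q0 ≤ Q → ∀ τ : ℝ,
    E * Real.log (Real.log Q) ≤ τ → τ ≤ Real.log Q → ∀ s : ℕ, 1 ≤ s → s ≤ Q →
    ∀ z : ℝ, 0 < z → z * s * Real.exp τ ≤ Q →
    Ls w s z ≤ (1 - (1 - ε) * τ / Real.log Q) ^ (m + 1) * Ls w s (z * Real.exp τ) := by
  have hw := h.lt
  obtain ⟨C, hC, hLI⟩ := LI_bounds h
  obtain ⟨C1, hC1, hgs⟩ := gs_le h
  set M : ℝ := ((m + 1 : ℕ) : ℝ) + 1 with hMdef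
  have hM : 1 ≤ M := by
    rw [hMdef]
    have : (0 : ℝ) ≤ ((m + 1 : ℕ) : ℝ) := Nat.cast_nonneg _
    linarith
  have hM1 : ((m + 1 : ℕ) : ℝ) = M - 1 := by rw [hMdef]; ring
  have hM0 : 0 ≤ M - 1 := by linarith
  obtain ⟨x0, hx0⟩ := log_small (ε / (4 * M)) (by positivity)
  set c2 := C + 2 * C1 + M with hc2
  refine ⟨max 3 ⌈Real.exp (max x0 (Real.exp c2))⌉₊, 12 / ε ^ 2 * M, le_max_left _ _, by positivity, ?_⟩
  intro Q hQ τ hτ1 hτ2 s hs1 hsQ z hw' hwQ
  have hQ3 : (3 : ℝ) ≤ Q := by exact_mod_cast (le_max_left _ _).trans hQ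
  have hQe : Real.exp (max x0 (Real.exp c2)) ≤ Q :=
    (Nat.le_ceil _).trans (by exact_mod_cast (le_max_right _ _).trans hQ)
  have hlQ : max x0 (Real.exp c2) ≤ Real.log Q := by
    rw [Real.le_log_iff_exp_le (by linarith)]
    exact hQe
  have hlQ1 : x0 ≤ Real.log Q := (le_max_left _ _).trans hlQ
  have hlQ2 : Real.exp c2 ≤ Real.log Q := (le_max_right _ _).trans hlQ
  have hlpos : 0 < Real.log Q := lt_of_lt_of_le (Real.exp_pos _) hlQ2
  have hll : c2 ≤ Real.log (Real.log Q) := by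
    rw [Real.le_log_iff_exp_le hlpos]
    exact hlQ2
  set ll := Real.log (Real.log Q) with hlldef
  have h1 : ll ≤ ε / (4 * M) * Real.log Q := hx0 _ hlQ1
  have hc20 : 0 ≤ c2 := by rw [hc2]; positivity
  have hl1 : (1 : ℝ) ≤ Real.log Q := by
    have : Real.exp 0 ≤ Real.exp c2 := Real.exp_le_exp.2 hc20
    rw [Real.exp_zero] at this
    linarith
  -- the bound for `gs`
  have hg : C + gs w s ≤ M * ll := by
    have h2 := hgs s ⌈Real.log Q⌉₊ hs1 (Nat.one_le_ceil_iff.2 hlpos)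
    have h3 : Real.log Q ≤ ⌈Real.log Q⌉₊ := Nat.le_ceil _
    have h4 : (⌈Real.log Q⌉₊ : ℝ) ≤ 2 * Real.log Q := by
      have := Nat.ceil_lt_add_one hlpos.le
      linarith
    have h5 : Real.log (⌈Real.log Q⌉₊ : ℝ) ≤ 1 + ll := by
      have h6 : Real.log (⌈Real.log Q⌉₊ : ℝ) ≤ Real.log (2 * Real.log Q) :=
        Real.log_le_log (by linarith) h4
      rw [Real.log_mul (by norm_num) hlpos.ne'] at h6
      have := Real.log_two_lt_d9
      linarith
    have h6 : Real.log s / (⌈Real.log Q⌉₊ : ℝ) ≤ 1 := by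
      rw [div_le_one (by linarith)]
      refine le_trans (Real.log_le_log (by exact_mod_cast hs1) (by exact_mod_cast hsQ)) h3
    have h7 : C1 * (Real.log s / (⌈Real.log Q⌉₊ : ℝ)) ≤ C1 * 1 := mul_le_mul_of_nonneg_left h6 hC1
    rw [hM1] at h2
    have h8 : (M - 1) * Real.log (⌈Real.log Q⌉₊ : ℝ) ≤ (M - 1) * (1 + ll) :=
      mul_le_mul_of_nonneg_left h5 hM0
    linarith only [h2, h7, h8, hll, hc2, (by ring : (M - 1) * (1 + ll) = M - 1 + M * ll - ll)]
  have hcoef : 0 ≤ 1 - (1 - ε) * τ / Real.log Q := by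
    have h2 : (1 - ε) * τ / Real.log Q ≤ 1 - ε := by
      rw [div_le_iff₀ hlpos]
      exact mul_le_mul_of_nonneg_left hτ2 (by linarith)
    linarith
  rcases lt_or_ge z 1 with hw1 | hw1
  · have h2 : Ls w s z = 0 := by
      unfold Ls
      rw [Nat.floor_eq_zero.2 hw1]
      simp
    rw [h2]
    exact mul_nonneg (pow_nonneg hcoef _) (Ls_nonneg hw s _)
  · have ha : 0 ≤ Real.log z := Real.log_nonneg hw1
    have h2 : Real.log z + τ ≤ Real.log Q := by
      have h3 : z * Real.exp τ ≤ Q := by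
        refine le_trans ?_ hwQ
        have h4 : (1 : ℝ) ≤ s := by exact_mod_cast hs1
        have h5 : 0 < z * Real.exp τ := by positivity
        calc z * Real.exp τ = z * Real.exp τ * 1 := by ring
          _ ≤ z * Real.exp τ * s := mul_le_mul_of_nonneg_left h4 h5.le
          _ = z * s * Real.exp τ := by ring
      have h4 := Real.log_le_log (by positivity) h3
      rw [Real.log_mul hw'.ne' (Real.exp_pos τ).ne', Real.log_exp] at h4
      exact h4
    have h5 : 4 * (M * ll) ≤ ε * Real.log Q := by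
      have h6 := mul_le_mul_of_nonneg_left h1 (by positivity : 0 ≤ 4 * M)
      have e : 4 * M * (ε / (4 * M) * Real.log Q) = ε * Real.log Q := by field_simp
      linarith
    have h3 := lam_core hw m C hC hLI ε hε hε1 s hs1 (M * ll) (Real.log Q) τ hg h5
      (by
        refine le_trans (le_of_eq ?_) hτ1
        ring) hτ2 (Real.log z) ha h2
    rw [Real.exp_add, Real.exp_log hw'] at h3
    exact h3

end Pool.Agent.H535.AK
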