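import Mathlib

set_option autoImplicit false

/-!
The choice of the parameters.
-/

open Finset

namespace Pool.Agent.H535.AK

/-- the parameters: numerical facts -/
theorem par (e : ℝ) (he : 0 < e) (he1 : e ≤ 1 / 16) (X K j : ℕ) (hj : 2 ≤ j) (L s : ℝ) (hs : s = Real.sqrt X)
    (hL : 100 / e ^ 3 ≤ L) (hsL : 16 * L ≤ s) (hK : s * L ^ (j + 2) ≤ K) (hKX : K ≤ X) :
    ∃ (Q n N R : ℕ) (T : ℝ), Q = Nat.sqrt X ∧ s / 2 ≤ Q ∧ (Q : ℝ) ≤ s ∧ 0 < Q ∧ 0 < N ∧ 0 < n ∧ n ≤ K ∧ 0 < R ∧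
      R * (n + 1) ≤ N ∧ R ≤ Q ∧ 1 ≤ T ∧ T ≤ Q ∧ (R : ℝ) * T ≤ Q ∧
      2 * T * ((Q : ℝ) + 1) * (1 / ((n : ℝ) + 1) + (R : ℝ) / N) ≤ 1 ∧
      (K : ℝ) / s / L ^ (j + 1) ≤ T ∧ (n : ℝ) ≤ e * K ∧
      1 - 6 * e ≤ ((1 - (n : ℝ) / K) / N - (2 / ((n : ℝ) + 1) + 1 / R) / K) * N ∧
      (1 / e) * (2 * Real.pi * X / N) ^ 2 ≤ e / L ∧
      (X : ℝ) * (1 / R) ≤ e ^ 2 * K / (3 * L ^ j) := by
  have he3 : 0 < e ^ 3 := by positivity
  have he2 : 0 < e ^ 2 := by positivity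
  have hL0 : 0 < L := lt_of_lt_of_le (by positivity) hL
  have hLe : 100 ≤ L * e ^ 3 := by rwa [div_le_iff₀ he3] at hL
  have hee : e ^ 3 ≤ e ^ 2 := pow_le_pow_of_le_one he.le (by linarith) (by norm_num)
  have hee2 : e ^ 2 ≤ e := by nlinarith only [he, he1]
  have hLe2 : 100 ≤ L * e ^ 2 := le_trans hLe (mul_le_mul_of_nonneg_left hee hL0.le)
  have hLe1 : 100 ≤ L * e := le_trans hLe2 (mul_le_mul_of_nonneg_left hee2 hL0.le)
  have hL100 : 100 ≤ L := by nlinarith only [hLe1, he, he1, hL0]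
  have hs0 : 0 < s := by linarith
  have hX0 : (0 : ℝ) ≤ X := Nat.cast_nonneg _
  have hsX : s ^ 2 = X := by rw [hs, Real.sq_sqrt hX0]
  have hKX' : (K : ℝ) ≤ X := by exact_mod_cast hKX
  have hL1 : (1 : ℝ) ≤ L := by linarith
  have hL4 : 1 ≤ L ^ (j + 2) := one_le_pow₀ hL1
  have hKs : s ≤ K := le_trans (le_mul_of_one_le_right hs0.le hL4) hK
  have hK0 : (0 : ℝ) < K := by linarith
  have hXpos : (0 : ℝ) < X := by linarith
  -- Q
  obtain ⟨Q, hQdef⟩ : ∃ Q : ℕ, Q = Nat.sqrt X := ⟨_, rfl⟩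
  have hQ1 : (Q : ℝ) ≤ s := by
    rw [hQdef, hs]
    exact Real.nat_sqrt_le_real_sqrt
  have hQ2 : s < Q + 1 := by
    have h1 : X < (Q + 1) * (Q + 1) := by
      rw [hQdef]
      exact Nat.lt_succ_sqrt X
    have h2 : (X : ℝ) < ((Q : ℝ) + 1) * (Q + 1) := by exact_mod_cast h1
    rw [← hsX] at h2
    have h3 : s ^ 2 < ((Q : ℝ) + 1) ^ 2 := by linarith only [h2, (by ring : ((Q : ℝ) + 1) * (Q + 1) = (Q + 1) ^ 2)]
    exact lt_of_pow_lt_pow_left₀ 2 (by positivity) h3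
  have hQs : s / 2 ≤ Q := by linarith
  have hQ0 : (0 : ℝ) < Q := by linarith
  -- n
  obtain ⟨n, hndef⟩ : ∃ n : ℕ, n = ⌊e * K⌋₊ := ⟨_, rfl⟩
  have hn1 : (n : ℝ) ≤ e * K := by
    rw [hndef]
    exact Nat.floor_le (by positivity)
  have hn2 : e * K < n + 1 := by
    rw [hndef]
    exact Nat.lt_floor_add_one _
  have heK : 16 ≤ e * K := by
    have h1 : e * (16 * L) ≤ e * K := mul_le_mul_of_nonneg_left (hsL.trans hKs) he.le
    linarith only [h1, hLe1]
  have hn0 : (0 : ℝ) < n := by linarith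
  have hn3 : (n : ℝ) + 1 ≤ 2 * (e * K) := by linarith
  -- N
  obtain ⟨N, hNdef⟩ : ∃ N : ℕ, N = ⌈12 * X * L ^ j / e⌉₊ := ⟨_, rfl⟩
  have hN1 : 12 * X * L ^ j / e ≤ N := by
    rw [hNdef]
    exact Nat.le_ceil _
  have hN1' : 12 * X * L ^ j ≤ N * e := by rwa [div_le_iff₀ he] at hN1
  have hbig : 12 * (X : ℝ) ≤ 12 * X * L ^ j / e := by
    rw [le_div_iff₀ he]
    have h1 : e ≤ L ^ j := le_trans (by linarith) (one_le_pow₀ hL1)
    have h2 := mul_le_mul_of_nonneg_left h1 (by positivity : (0 : ℝ) ≤ 12 * X)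
    linarith only [h2]
  have hN2 : (N : ℝ) ≤ 2 * (12 * X * L ^ j / e) := by
    have h1 : (N : ℝ) < 12 * X * L ^ j / e + 1 := by
      rw [hNdef]
      exact Nat.ceil_lt_add_one (by positivity)
    linarith
  have hN2' : (N : ℝ) * e ≤ 24 * X * L ^ j := by
    have : (2 * (12 * X * L ^ j / e)) * e = 24 * X * L ^ j := by field_simp; ring
    rw [← this]
    exact mul_le_mul_of_nonneg_right hN2 he.le
  have hN0 : (0 : ℝ) < N := by linarith
  have hNX : 12 * (X : ℝ) ≤ N := hbig.trans hN1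
  -- R
  obtain ⟨R, hRdef⟩ : ∃ R : ℕ, R = N / (n + 1) := ⟨_, rfl⟩
  have hR1 : R * (n + 1) ≤ N := by
    rw [hRdef]
    exact Nat.div_mul_le_self _ _
  have hR1' : (R : ℝ) * (n + 1) ≤ N := by exact_mod_cast hR1
  have hR2 : (N : ℝ) < (R + 1) * (n + 1) := by
    have : N < (R + 1) * (n + 1) := by
      rw [hRdef]
      have := Nat.lt_mul_div_succ N (Nat.succ_pos n)
      rw [mul_comm] at this
      exact this
    exact_mod_cast this
  have hR3 : (N : ℝ) ≤ 2 * R * (n + 1) := by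
    have h0 : e * K ≤ 1 * K := mul_le_mul_of_nonneg_right (by linarith) hK0.le
    have h1 : (n : ℝ) + 1 ≤ N / 2 := by linarith
    have h2 : ((R : ℝ) + 1) * (n + 1) = R * (n + 1) + (n + 1) := by ring
    linarith
  have hR0 : (0 : ℝ) < R := by
    by_contra hcon
    have : (R : ℝ) = 0 := le_antisymm (not_lt.1 hcon) (Nat.cast_nonneg _)
    rw [this] at hR3
    linarith
  have hRinv : 1 / (R : ℝ) ≤ 4 * e * K / N := by
    rw [div_le_div_iff₀ hR0 hN0]
    calc 1 * (N : ℝ) = N := one_mul _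
      _ ≤ 2 * R * (n + 1) := hR3
      _ ≤ 2 * R * (2 * (e * K)) := mul_le_mul_of_nonneg_left hn3 (by positivity)
      _ = 4 * e * K * R := by ring
  have hK2 : (X : ℝ) * L ^ (2 * j + 4) ≤ K ^ 2 := by
    have h1 : (s * L ^ (j + 2)) ^ 2 ≤ (K : ℝ) ^ 2 := pow_le_pow_left₀ (by positivity) hK 2
    have h2 : (s * L ^ (j + 2)) ^ 2 = X * L ^ (2 * j + 4) := by
      rw [mul_pow, hsX, ← pow_mul]
      congr 2
      ring
    linarith
  -- R ≤ Q
  have hRQ : (R : ℝ) ≤ Q := by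
    -- R (eK) ≤ N ≤ 24 X L² / e
    have h1 : (R : ℝ) * (e * K) ≤ N := le_trans (mul_le_mul_of_nonneg_left hn2.le hR0.le) hR1'
    have h2 : (R : ℝ) * (e ^ 2 * K) ≤ 24 * X * L ^ j := by
      have h2a := mul_le_mul_of_nonneg_right h1 he.le
      linarith only [h2a, hN2', (by ring : (R : ℝ) * (e ^ 2 * K) = (R : ℝ) * (e * K) * e)]
    have h3 : (R : ℝ) * (e ^ 2 * (s * L ^ (j + 2))) ≤ 24 * s ^ 2 * L ^ j := by
      rw [hsX]
      refine le_trans ?_ h2
      exact mul_le_mul_of_nonneg_left (mul_le_mul_of_nonneg_left hK he2.le) hR0.le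
    have h4 : ((R : ℝ) * (e ^ 2 * L ^ 2)) * (s * L ^ j) ≤ (24 * s) * (s * L ^ j) := by
      linarith only [h3, (by ring : ((R : ℝ) * (e ^ 2 * L ^ 2)) * (s * L ^ j) = (R : ℝ) * (e ^ 2 * (s * L ^ (j + 2)))),
        (by ring : (24 * s) * (s * L ^ j) = 24 * s ^ 2 * L ^ j)]
    have h5 : (R : ℝ) * (e ^ 2 * L ^ 2) ≤ 24 * s := le_of_mul_le_mul_right h4 (by positivity)
    have h6 : 100 ≤ e ^ 2 * L ^ 2 := by
      have h6a : (L * e ^ 2) * 1 ≤ (L * e ^ 2) * L := mul_le_mul_of_nonneg_left hL1 (by positivity)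
      linarith only [h6a, hLe2, (by ring : (L * e ^ 2) * L = e ^ 2 * L ^ 2)]
    have h7 : (R : ℝ) * 100 ≤ 24 * s := le_trans (mul_le_mul_of_nonneg_left h6 hR0.le) h5
    linarith
  -- T
  obtain ⟨T, hTdef⟩ : ∃ T : ℝ, T = e / (12 * L ^ j) * (n + 1) / (4 * (Q + 1)) := ⟨_, rfl⟩
  have hTlow : (K : ℝ) / s / L ^ (j + 1) ≤ T := by
    rw [hTdef, div_div, div_le_div_iff₀ (by positivity) (by positivity)]
    have h1 : (Q : ℝ) + 1 ≤ 2 * s := by linarith
    have h2 : (K : ℝ) * (4 * (Q + 1)) ≤ K * (8 * s) := mul_le_mul_of_nonneg_left (by linarith) hK0.le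
    have h3 : e / (12 * L ^ j) * (n + 1) * (s * L ^ (j + 1)) = (e * L / 12) * ((n + 1) * s) := by
      rw [pow_succ]
      field_simp
    rw [h3]
    have h4 : (e * L / 12) * ((e * K) * s) ≤ (e * L / 12) * ((n + 1) * s) :=
      mul_le_mul_of_nonneg_left (mul_le_mul_of_nonneg_right hn2.le hs0.le) (by positivity)
    have h5 : (e * L / 12) * ((e * K) * s) = (L * e ^ 2 / 12) * (K * s) := by ring
    have h6 : 8 * (K * s) ≤ (L * e ^ 2 / 12) * (K * s) :=
      mul_le_mul_of_nonneg_right (by linarith) (by positivity)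
    linarith only [h2, h4, h5, h6, (by ring : (K : ℝ) * (8 * s) = 8 * (K * s))]
  have hT1 : 1 ≤ T := by
    refine le_trans ?_ hTlow
    rw [div_div, one_le_div (by positivity)]
    refine le_trans ?_ hK
    exact mul_le_mul_of_nonneg_left (pow_le_pow_right₀ hL1 (by norm_num)) hs0.le
  have hd1 : e / (12 * L ^ j) ≤ 1 := by
    rw [div_le_one (by positivity)]
    have h1 : 1 ≤ L ^ j := one_le_pow₀ hL1
    linarith only [h1, he1]
  have hXQ : (X : ℝ) ≤ (Q + 1) ^ 2 := by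
    rw [← hsX]
    exact pow_le_pow_left₀ hs0.le hQ2.le 2
  have hTQ : T ≤ Q := by
    rw [hTdef, div_le_iff₀ (by positivity)]
    have h1 : e / (12 * L ^ j) * ((n : ℝ) + 1) ≤ 1 * (n + 1) :=
      mul_le_mul_of_nonneg_right hd1 (by positivity)
    have h2 : (n : ℝ) + 1 ≤ X := by
      have h3 : 2 * (e * (K : ℝ)) ≤ 2 * (1 / 16 * X) :=
        mul_le_mul_of_nonneg_left (mul_le_mul he1 hKX' hK0.le (by norm_num)) (by norm_num)
      linarith only [h3, hn3, hX0]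
    have h4 : (Q : ℝ) * (4 * (Q + 1)) = 4 * Q ^ 2 + 4 * Q := by ring
    have h5 : ((Q : ℝ) + 1) ^ 2 = Q ^ 2 + 2 * Q + 1 := by ring
    have h6 : (1 : ℝ) ≤ Q := by linarith only [hQs, hsL, hL100]
    have h7 : (Q : ℝ) * 1 ≤ Q * Q := mul_le_mul_of_nonneg_left h6 hQ0.le
    linarith only [h1, h2, h4, h5, h6, h7, hXQ, (by ring : (Q : ℝ) ^ 2 = Q * Q)]
  have hRT : (R : ℝ) * T ≤ Q := by
    have h1 : (R : ℝ) * T = (e / (12 * L ^ j)) * (R * (n + 1)) / (4 * (Q + 1)) := by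
      rw [hTdef]
      ring
    rw [h1, div_le_iff₀ (by positivity)]
    have h2 : (e / (12 * L ^ j)) * (R * (n + 1)) ≤ (e / (12 * L ^ j)) * N :=
      mul_le_mul_of_nonneg_left hR1' (by positivity)
    have h3 : (e / (12 * L ^ j)) * N ≤ 2 * X := by
      rw [div_mul_eq_mul_div, div_le_iff₀ (by positivity)]
      linarith
    have h4 : (Q : ℝ) * (4 * (Q + 1)) = 4 * Q ^ 2 + 4 * Q := by ring
    have h5 : ((Q : ℝ) + 1) ^ 2 = Q ^ 2 + 2 * Q + 1 := by ring
    have h6 : (1 : ℝ) ≤ Q := by linarith only [hQs, hsL, hL100]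
    have h7 : (Q : ℝ) * 1 ≤ Q * Q := mul_le_mul_of_nonneg_left h6 hQ0.le
    linarith only [h2, h3, h4, h5, h6, h7, hXQ, (by ring : (Q : ℝ) ^ 2 = Q * Q)]
  refine ⟨Q, n, N, R, T, hQdef, hQs, hQ1, by exact_mod_cast hQ0, by exact_mod_cast hN0, by exact_mod_cast hn0,
    ?_, by exact_mod_cast hR0, hR1, by exact_mod_cast hRQ, hT1, hTQ, hRT, ?_, hTlow, hn1, ?_, ?_, ?_⟩
  · have : (n : ℝ) ≤ K := by
      have h1 : e * (K : ℝ) ≤ 1 * K := mul_le_mul_of_nonneg_right (by linarith) hK0.le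
      linarith only [h1, hn1]
    exact_mod_cast this
  · have h1 : (R : ℝ) / N ≤ 1 / ((n : ℝ) + 1) := by
      rw [div_le_div_iff₀ hN0 (by positivity)]
      linarith
    have h2 : 2 * T * ((Q : ℝ) + 1) * (1 / ((n : ℝ) + 1) + (R : ℝ) / N) ≤
        2 * T * ((Q : ℝ) + 1) * (1 / ((n : ℝ) + 1) + 1 / ((n : ℝ) + 1)) :=
      mul_le_mul_of_nonneg_left (by linarith) (by positivity)
    have h3 : 2 * T * ((Q : ℝ) + 1) * (1 / ((n : ℝ) + 1) + 1 / ((n : ℝ) + 1)) = e / (12 * L ^ j) := by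
      rw [hTdef]
      field_simp
      ring
    linarith
  · have h1 : (n : ℝ) / K ≤ e := by
      rw [div_le_iff₀ hK0]
      exact hn1
    have h2 : 2 / ((n : ℝ) + 1) ≤ 2 / (e * K) := div_le_div_of_nonneg_left (by norm_num) (by positivity) hn2.le
    have h3 : 2 / (e * K) / K * N ≤ e := by
      have h4 : 2 / (e * K) / K * N = 2 * N / (e * K ^ 2) := by
        field_simp
      rw [h4, div_le_iff₀ (by positivity)]
      -- 2 N ≤ e² K²
      have h5 : 2 * N * e ≤ 48 * X * L ^ j := by linarith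
      have h6 : 48 * X * L ^ j ≤ (e * (e * K ^ 2)) * e := by
        have h7 : (e * (e * K ^ 2)) * e = e ^ 3 * K ^ 2 := by ring
        rw [h7]
        have h8 : e ^ 3 * (X * L ^ (2 * j + 4)) ≤ e ^ 3 * K ^ 2 := mul_le_mul_of_nonneg_left hK2 he3.le
        have h9 : 48 * X * L ^ j ≤ e ^ 3 * (X * L ^ (2 * j + 4)) := by
          have h10 : e ^ 3 * (X * L ^ (2 * j + 4)) = (L * e ^ 3) * (X * L ^ j) * L ^ (j + 3) := by ring
          rw [h10]
          have h11 : 1 ≤ L ^ (j + 3) := one_le_pow₀ hL1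
          have h12 : 100 * (X * L ^ j) ≤ (L * e ^ 3) * (X * L ^ j) :=
            mul_le_mul_of_nonneg_right hLe (by positivity)
          have h13 : (L * e ^ 3) * (X * L ^ j) * 1 ≤ (L * e ^ 3) * (X * L ^ j) * L ^ (j + 3) :=
            mul_le_mul_of_nonneg_left h11 (by positivity)
          have h14 : 0 ≤ X * L ^ j := by positivity
          linarith only [h12, h13, h14, (by ring : 48 * (X : ℝ) * L ^ j = 48 * (X * L ^ j))]
        linarith
      exact le_of_mul_le_mul_right (h5.trans h6) he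
    have h4 : 1 / (R : ℝ) / K * N ≤ 4 * e := by
      have h5 : 1 / (R : ℝ) / K * N ≤ 4 * e * K / N / K * N :=
        mul_le_mul_of_nonneg_right (div_le_div_of_nonneg_right hRinv hK0.le) hN0.le
      have h6 : 4 * e * K / N / K * N = 4 * e := by field_simp
      linarith
    have h5 : ((1 - (n : ℝ) / K) / N - (2 / ((n : ℝ) + 1) + 1 / R) / K) * N =
        (1 - (n : ℝ) / K) - (2 / ((n : ℝ) + 1) / K * N) - 1 / (R : ℝ) / K * N := by
      field_simp
      ring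
    rw [h5]
    have h6 : 2 / ((n : ℝ) + 1) / K * N ≤ 2 / (e * K) / K * N :=
      mul_le_mul_of_nonneg_right (div_le_div_of_nonneg_right h2 hK0.le) hN0.le
    linarith
  · have h1 : (X : ℝ) / N ≤ e / (12 * L ^ j) := by
      rw [div_le_div_iff₀ hN0 (by positivity)]
      linarith
    have h2 : 2 * Real.pi * X / N ≤ 8 * (e / (12 * L ^ j)) := by
      have h3 : 2 * Real.pi * X / N = (2 * Real.pi) * (X / N) := by ring
      rw [h3]
      refine mul_le_mul ?_ h1 (by positivity) (by norm_num)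
      have := Real.pi_lt_four
      linarith
    have h3 : (2 * Real.pi * X / N) ^ 2 ≤ (8 * (e / (12 * L ^ j))) ^ 2 :=
      pow_le_pow_left₀ (by positivity) h2 2
    calc (1 / e) * (2 * Real.pi * X / N) ^ 2 ≤ (1 / e) * (8 * (e / (12 * L ^ j))) ^ 2 :=
          mul_le_mul_of_nonneg_left h3 (by positivity)
      _ = (4 / 9) * e / (L ^ j) ^ 2 := by
          field_simp
          ring
      _ ≤ e / L := by
          rw [div_le_div_iff₀ (by positivity) hL0]
          have h4 : L ≤ (L ^ j) ^ 2 := by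
            calc L = L ^ 1 := (pow_one L).symm
              _ ≤ L ^ (j * 2) := pow_le_pow_right₀ hL1 (by omega)
              _ = (L ^ j) ^ 2 := pow_mul L j 2
          have h5 : e * L ≤ e * (L ^ j) ^ 2 := mul_le_mul_of_nonneg_left h4 he.le
          have h6 : 0 ≤ e * L := by positivity
          linarith only [h5, h6]
  · calc (X : ℝ) * (1 / R) ≤ X * (4 * e * K / N) := mul_le_mul_of_nonneg_left hRinv hX0
      _ = (4 * e * K) * (X / N) := by ring
      _ ≤ (4 * e * K) * (e / (12 * L ^ j)) := by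
          refine mul_le_mul_of_nonneg_left ?_ (by positivity)
          rw [div_le_div_iff₀ hN0 (by positivity)]
          linarith
      _ = e ^ 2 * K / (3 * L ^ j) := by
          field_simp
          ring

end Pool.Agent.H535.AK
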