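import Pool.Agent.H535.AK.Ker
import Pool.Agent.H535.AK.Lam
import Pool.Agent.H535.AW.PropA

set_option autoImplicit false

/-!
The basic inequality for the mean squares over the fractions with small denominators.
-/

open Finset

namespace Pool.Agent.H535.AK

open Pool.Agent.Helper112 Pool.Agent.W110.HV
open Pool.Agent.H535.AW (SX GG GG_cr cr cr_exp sum_divs PD PD_form)

variable {w : ℕ → ℕ}

/-- the primitive part -/
noncomputable def QQ (w : ℕ → ℕ) (X : ℕ) (v : ℕ → ℂ) (s : ℕ) : ℝ :=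
  (∑ m ∈ Icc 1 X, ∑ n ∈ Icc 1 X, v m * (starRingEnd ℂ) (v n) * kk w s ((m : ℤ) - n)).re

theorem GG_eq (X : ℕ) (v : ℕ → ℂ) (r : ℕ) (hr : 1 ≤ r) :
    GG X v r = ∑ s ∈ r.divisors, QQ w X v s * hs w s (r / s) := by
  have h1 : ((GG X v r : ℝ) : ℂ) = ∑ s ∈ r.divisors,
      (∑ m ∈ Icc 1 X, ∑ n ∈ Icc 1 X, v m * (starRingEnd ℂ) (v n) * kk w s ((m : ℤ) - n)) *
        (hs w s (r / s) : ℂ) := by
    rw [GG_cr X v r hr]
    have e1 : ∀ m ∈ Icc 1 X, ∀ n ∈ Icc 1 X, v m * (starRingEnd ℂ) (v n) * cr r ((m : ℤ) - n) =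
        ∑ s ∈ r.divisors, v m * (starRingEnd ℂ) (v n) * kk w s ((m : ℤ) - n) * (hs w s (r / s) : ℂ) := by
      intro m _ n _
      rw [cr_decomp (w := w) _ r hr, mul_sum]
      refine sum_congr rfl fun s _ => ?_
      ring
    rw [sum_congr rfl fun m hm => sum_congr rfl fun n hn => e1 m hm n hn]
    rw [sum_congr rfl fun m _ => sum_comm, sum_comm]
    refine sum_congr rfl fun s _ => ?_
    rw [sum_mul]
    refine sum_congr rfl fun m _ => ?_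
    rw [sum_mul]
  have h2 := congrArg Complex.re h1
  rw [Complex.ofReal_re, Complex.re_sum] at h2
  rw [h2]
  refine sum_congr rfl fun s _ => ?_
  unfold QQ
  rw [Complex.mul_re, Complex.ofReal_re, Complex.ofReal_im, mul_zero, sub_zero]

theorem QQ_nonneg (hw : ∀ p : ℕ, p.Prime → w p < p) (X : ℕ) (v : ℕ → ℂ) (B : ℕ → Finset ℤ) (Q s : ℕ)
    (hs1 : 1 ≤ s) (hQ : s ≤ Q) (hR : Rem w B Q)
    (hv : ∀ n ∈ Icc 1 X, v n ≠ 0 → ∀ p : ℕ, p.Prime → p ≤ Q → ∀ b ∈ B p, ¬ (p : ℤ) ∣ (n : ℤ) - b) :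
    0 ≤ QQ w X v s := by
  unfold QQ
  refine PD_form {n : ℤ | ∀ p ∈ s.primeFactors, ∀ b ∈ B p, ¬ (p : ℤ) ∣ n - b} (kk w s)
    (PD_kk hw _ B Q s hQ hR fun n hn => hn) X v ?_
  intro n hn hn0 p hp
  have h1 := Nat.mem_primeFactors.1 hp
  exact hv n hn hn0 p h1.1 ((Nat.le_of_dvd hs1 h1.2.1).trans hQ)

theorem sum_GG (X : ℕ) (v : ℕ → ℂ) (Y : ℝ) (N : ℕ) (hN : ⌊Y⌋₊ ≤ N) :
    ∑ r ∈ Icc 1 ⌊Y⌋₊, GG X v r = ∑ s ∈ Icc 1 N, QQ w X v s * Ls w s (Y / s) := by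
  have h1 : ∑ r ∈ Icc 1 ⌊Y⌋₊, GG X v r = ∑ s ∈ Icc 1 ⌊Y⌋₊, QQ w X v s * Ls w s (Y / s) := by
    rw [sum_congr rfl fun r hr => GG_eq (w := w) X v r (mem_Icc.1 hr).1,
      sum_divs ⌊Y⌋₊ (fun s t => QQ w X v s * hs w s t)]
    refine sum_congr rfl fun s _ => ?_
    unfold Ls
    rw [← mul_sum, Nat.floor_div_natCast]
  rw [h1]
  refine sum_subset (Icc_subset_Icc_right hN) fun s hs1 hs2 => ?_
  rw [mem_Icc] at hs1 hs2
  have h2 : ⌊Y⌋₊ < s := by omega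
  have h3 : Ls w s (Y / s) = 0 := by
    unfold Ls
    rw [Nat.floor_div_natCast, Nat.div_eq_of_lt h2]
    simp
  rw [h3, mul_zero]

/-- the main inequality for the mean squares -/
theorem propA (hw : ∀ p : ℕ, p.Prime → w p < p) (Q X : ℕ) (B : ℕ → Finset ℤ) (v : ℕ → ℂ) (hR : Rem w B Q)
    (hv : ∀ n ∈ Icc 1 X, v n ≠ 0 → ∀ p : ℕ, p.Prime → p ≤ Q → ∀ b ∈ B p, ¬ (p : ℤ) ∣ (n : ℤ) - b)
    (lm T : ℝ) (hT : 1 ≤ T)
    (hlam : ∀ s : ℕ, 1 ≤ s → s ≤ Q → ∀ z : ℝ, 0 < z → z * s * T ≤ Q → Ls w s z ≤ lm * Ls w s (z * T))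
    (Y : ℝ) (hY0 : 0 < Y) (hY : Y * T ≤ Q) :
    ∑ r ∈ Icc 1 ⌊Y⌋₊, GG X v r ≤ lm * ∑ r ∈ Icc 1 ⌊Y * T⌋₊, GG X v r := by
  have hYT : Y ≤ Y * T := le_mul_of_one_le_right hY0.le hT
  rw [sum_GG (w := w) X v Y ⌊Y * T⌋₊ (Nat.floor_le_floor hYT), sum_GG (w := w) X v (Y * T) ⌊Y * T⌋₊ le_rfl,
    mul_sum]
  refine sum_le_sum fun s hs1 => ?_
  rw [mem_Icc] at hs1
  have hs0 : (0 : ℝ) < s := by exact_mod_cast hs1.1
  have hsQ : s ≤ Q := by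
    have h1 : ⌊Y * T⌋₊ ≤ Q := by
      have := Nat.floor_le_floor hY
      rwa [Nat.floor_natCast] at this
    exact hs1.2.trans h1
  have hQ := QQ_nonneg hw X v B Q s hs1.1 hsQ hR hv
  have h2 := hlam s hs1.1 hsQ (Y / s) (by positivity) (by
    have : Y / s * s * T = Y * T := by field_simp
    rw [this]
    exact hY)
  have e1 : Y / s * T = Y * T / s := by ring
  rw [e1] at h2
  have := mul_le_mul_of_nonneg_left h2 hQ
  linarith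

theorem GG_ge (hw : ∀ p : ℕ, p.Prime → w p < p) (Q X : ℕ) (B : ℕ → Finset ℤ) (v : ℕ → ℂ) (hR : Rem w B Q)
    (hv : ∀ n ∈ Icc 1 X, v n ≠ 0 → ∀ p : ℕ, p.Prime → p ≤ Q → ∀ b ∈ B p, ¬ (p : ℤ) ∣ (n : ℤ) - b)
    (r : ℕ) (hr : 1 ≤ r) (hrQ : r ≤ Q) : hs w 1 r * ‖∑ n ∈ Icc 1 X, v n‖ ^ 2 ≤ GG X v r := by
  have hone : QQ w X v 1 = ‖∑ n ∈ Icc 1 X, v n‖ ^ 2 := by
    unfold QQ
    have h1 : ∑ m ∈ Icc 1 X, ∑ n ∈ Icc 1 X, v m * (starRingEnd ℂ) (v n) * kk w 1 ((m : ℤ) - n) =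
        (∑ m ∈ Icc 1 X, v m) * (starRingEnd ℂ) (∑ n ∈ Icc 1 X, v n) := by
      rw [map_sum, sum_mul_sum]
      refine sum_congr rfl fun m _ => sum_congr rfl fun n _ => ?_
      rw [kk_one, mul_one]
    rw [h1, Complex.mul_conj, Complex.ofReal_re, Complex.normSq_eq_norm_sq]
  rw [GG_eq (w := w) X v r hr]
  have h1 : QQ w X v 1 * hs w 1 (r / 1) ≤ ∑ s ∈ r.divisors, QQ w X v s * hs w s (r / s) := by
    refine single_le_sum (f := fun s => QQ w X v s * hs w s (r / s)) (fun s hs1 => ?_)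
      (Nat.mem_divisors.2 ⟨one_dvd r, by omega⟩)
    rw [Nat.mem_divisors] at hs1
    exact mul_nonneg (QQ_nonneg hw X v B Q s (Nat.pos_of_dvd_of_pos hs1.1 hr)
      ((Nat.le_of_dvd hr hs1.1).trans hrQ) hR hv) (hs_nonneg hw _ _)
  rw [Nat.div_one, hone] at h1
  linarith

end Pool.Agent.H535.AK
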