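import Pool.Agent.H535.AK.Var
import Pool.Agent.H535.AK.Par
import Pool.Agent.H535.AK.PropA
import Pool.Agent.H535.AK.Lam
import Pool.Agent.H535.AW.Main

set_option autoImplicit false

/-!
The lower bound for the variance, summed over the moduli: general dimension.
-/

open Finset

namespace Pool.Agent.H535.AK

open Pool.Agent.Helper112 Pool.Agent.W110.HV
open Pool.Agent.H535.AW (SX GG SC large)

variable {w : ℕ → ℕ} {A : ℝ}

theorem conv_bound (m : ℕ) (e ρ x : ℝ) (he : 0 ≤ e) (he1 : 2 * e ≤ 1) (hρ1 : ρ ≤ 1)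
    (hx0 : 0 ≤ x) (hx : x ≤ 1 - (1 - 2 * e) * ρ) :
    (1 - 2 * e) * (1 - (1 - ρ) ^ (m + 1)) ≤ 1 - x ^ (m + 1) := by
  have h1 : x ^ (m + 1) ≤ (1 - (1 - 2 * e) * ρ) ^ (m + 1) := pow_le_pow_left₀ hx0 hx _
  have h2 := (convexOn_pow (𝕜 := ℝ) (m + 1)).2 (Set.mem_Ici.2 zero_le_one)
    (Set.mem_Ici.2 (by linarith : 0 ≤ 1 - ρ)) (by linarith : 0 ≤ 2 * e) (by linarith : 0 ≤ 1 - 2 * e)
    (by ring)
  simp only [smul_eq_mul, one_pow, mul_one] at h2
  have h3 : 2 * e + (1 - 2 * e) * (1 - ρ) = 1 - (1 - 2 * e) * ρ := by ring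
  rw [h3] at h2
  linarith

theorem F_ge (m : ℕ) (ρ : ℝ) (h0 : 0 ≤ ρ) (h1 : ρ ≤ 1) : ρ ≤ 1 - (1 - ρ) ^ (m + 1) := by
  have h2 : (1 - ρ) ^ (m + 1) ≤ 1 - ρ := by
    calc (1 - ρ) ^ (m + 1) ≤ (1 - ρ) ^ 1 := pow_le_pow_of_le_one (by linarith) (by linarith) (by omega)
      _ = 1 - ρ := pow_one _
  linarith

/-- the lower bound for the sum over the moduli -/
theorem main_sum {m : ℕ} (hD : Dim w (m + 1) A) (ε : ℝ) (hε : 0 < ε) (hε1 : ε ≤ 1) :
    ∃ C : ℝ, 8 ≤ C ∧ ∃ X0 : ℕ, ∀ X : ℕ, X0 ≤ X →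
    ∀ K : ℕ, Real.sqrt X * Real.log X ^ C ≤ K → K ≤ X → ∀ (Y : ℕ) (B : ℕ → Finset ℤ) (v : ℕ → ℂ),
    Rem w B (Nat.sqrt X) →
    (∀ n ∈ Icc 1 X, v n ≠ 0 → ∀ p : ℕ, p.Prime → p ≤ Nat.sqrt X → ∀ b ∈ B p, ¬ (p : ℤ) ∣ (n : ℤ) - b) →
    (1 - ε) * (1 - (1 - Real.log ((K : ℝ) ^ 2 / X) / Real.log X) ^ (m + 1)) * K * ∑ n ∈ Icc 1 X, ‖v n‖ ^ 2 ≤
      ∑ k ∈ Ioc K (2 * K), (∑ a ∈ range k, ‖SC X Y k v a‖ ^ 2 -
        ‖∑ n ∈ Icc 1 X, v n‖ ^ 2 * iv w k) := by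
  have hwlt := hD.lt
  obtain ⟨e, hedef⟩ : ∃ e : ℝ, e = ε / 16 := ⟨_, rfl⟩
  have he : 0 < e := by rw [hedef]; positivity
  have he1 : e ≤ 1 / 16 := by rw [hedef]; linarith
  obtain ⟨Q0, E, hQ0, hE, hlamT⟩ := lam hD e he (by linarith)
  obtain ⟨Ct, D, hCt, hPP⟩ := PP_le hD
  obtain ⟨X0, hX0⟩ := large (100 / e ^ 3 + Ct * 2 ^ D) Q0
  obtain ⟨j, hjdef⟩ : ∃ j : ℕ, j = D + 2 := ⟨_, rfl⟩
  obtain ⟨C, hCdef⟩ : ∃ C : ℝ, C = 8 + ((j : ℝ) + 2) / e + 2 * E := ⟨_, rfl⟩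
  have he2 : 0 < e ^ 2 := by positivity
  have hj0 : (0 : ℝ) ≤ j := Nat.cast_nonneg _
  have hje0 : 0 ≤ ((j : ℝ) + 2) / e := by positivity
  have hje1 : (j : ℝ) + 2 ≤ ((j : ℝ) + 2) / e := by
    rw [le_div_iff₀ he]
    have := mul_le_mul_of_nonneg_left (by linarith : e ≤ 1) (by linarith : 0 ≤ (j : ℝ) + 2)
    linarith
  have hC8 : 8 ≤ C := by
    rw [hCdef]
    linarith
  have hCj : (j : ℝ) + 2 ≤ C := by
    rw [hCdef]
    linarith
  have hCe : (j : ℝ) + 1 ≤ C * e := by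
    have h1 : ((j : ℝ) + 2) / e * e = j + 2 := by field_simp
    have h2 : ((j : ℝ) + 2) / e * e ≤ C * e := mul_le_mul_of_nonneg_right (by rw [hCdef]; linarith) he.le
    linarith
  have hCE : 2 * E ≤ C := by
    rw [hCdef]
    linarith
  refine ⟨C, hC8, X0, fun X hX K hK hKX Y B v hR hv => ?_⟩
  obtain ⟨hL', hsL, hQ0X, hX2⟩ := hX0 X hX
  obtain ⟨L, hLdef⟩ : ∃ L : ℝ, L = Real.log X := ⟨_, rfl⟩
  obtain ⟨s, hsdef⟩ : ∃ s : ℝ, s = Real.sqrt X := ⟨_, rfl⟩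
  rw [← hLdef] at hL' hsL hK ⊢
  rw [← hsdef] at hsL hK
  have hCt0 : 0 ≤ Ct * 2 ^ D := by positivity
  have he3 : 0 < e ^ 3 := by positivity
  have he3' : 0 ≤ 100 / e ^ 3 := by positivity
  have hL : 100 / e ^ 3 ≤ L := by linarith
  have hLCt : Ct * 2 ^ D ≤ L := by linarith
  have hLe : 100 ≤ L * e ^ 3 := by rwa [div_le_iff₀ he3] at hL
  have hee : e ^ 3 ≤ 1 := pow_le_one₀ he.le (by linarith)
  have hL0 : 0 < L := lt_of_lt_of_le (by positivity) hL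
  have hL100 : 100 ≤ L := by
    have h1 : L * e ^ 3 ≤ L * 1 := mul_le_mul_of_nonneg_left hee hL0.le
    linarith only [h1, hLe]
  have hL1 : 1 ≤ L := by linarith
  have hs0 : 0 < s := by linarith
  have hXr : (2 : ℝ) ≤ X := by exact_mod_cast hX2
  have hX00 : (0 : ℝ) < X := by linarith
  have hsX : s ^ 2 = X := by rw [hsdef, Real.sq_sqrt hX00.le]
  have hLC4 : L ^ (j + 2) ≤ L ^ C := by
    have h1 : L ^ (((j + 2 : ℕ) : ℝ)) ≤ L ^ C := Real.rpow_le_rpow_of_exponent_le hL1 (by push_cast; linarith)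
    rwa [Real.rpow_natCast] at h1
  have hK4 : s * L ^ (j + 2) ≤ K := le_trans (mul_le_mul_of_nonneg_left hLC4 hs0.le) hK
  obtain ⟨Q, n, N, R, T, hQdef, hQs, hQs2, hQpos, hN, hn, hnK, hRp, hRN, hRQ, hT1, hTQ, hRT, hTn, hTlow, hne,
    hBN, hpi, hXR⟩ := par e he he1 X K j (by omega) L s hsdef hL hsL hK4 hKX
  have hK0 : (0 : ℝ) < K := lt_of_lt_of_le (by positivity) hK4
  have hN0 : (0 : ℝ) < N := by exact_mod_cast hN
  have hR0 : (0 : ℝ) < R := by exact_mod_cast hRp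
  have hQr : (0 : ℝ) < Q := by exact_mod_cast hQpos
  have hT0 : 0 < T := by linarith
  -- logarithms
  obtain ⟨W, hWdef⟩ : ∃ W : ℝ, W = Real.log ((K : ℝ) / s) := ⟨_, rfl⟩
  have hlogL : 1 ≤ Real.log L := by
    rw [Real.le_log_iff_exp_le hL0]
    have := Real.exp_one_lt_d9
    linarith
  have hw1 : C * Real.log L ≤ W := by
    rw [hWdef, ← Real.log_rpow hL0]
    apply Real.log_le_log (by positivity)
    rw [le_div_iff₀ hs0, mul_comm]
    exact hK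
  have hw8 : 8 ≤ W := by
    have h1 : 8 * 1 ≤ C * Real.log L := mul_le_mul hC8 hlogL (by norm_num) (by linarith)
    linarith only [h1, hw1]
  have hlogs : Real.log s = L / 2 := by
    have h1 : Real.log (s ^ 2) = L := by rw [hsX, hLdef]
    rw [Real.log_pow] at h1
    push_cast at h1
    linarith
  have hrho : Real.log ((K : ℝ) ^ 2 / X) = 2 * W := by
    rw [hWdef, ← hsX, ← div_pow, Real.log_pow]
    push_cast
    ring
  obtain ⟨ρ, hρdef⟩ : ∃ ρ : ℝ, ρ = 2 * W / L := ⟨_, rfl⟩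
  have hρL : ρ * L = 2 * W := by rw [hρdef]; field_simp
  have hρ0 : 0 < ρ := by rw [hρdef]; positivity
  have hρ1 : 1 / L ≤ ρ := by
    rw [hρdef]
    exact div_le_div_of_nonneg_right (by linarith) hL0.le
  have hρle : ρ ≤ 1 := by
    rw [hρdef, div_le_one hL0]
    have h1 : Real.log K ≤ L := by
      rw [hLdef]
      exact Real.log_le_log hK0 (by exact_mod_cast hKX)
    have h2 : W = Real.log K - L / 2 := by rw [hWdef, Real.log_div hK0.ne' hs0.ne', hlogs]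
    linarith
  obtain ⟨F, hFdef⟩ : ∃ F : ℝ, F = 1 - (1 - ρ) ^ (m + 1) := ⟨_, rfl⟩
  have hFρ : ρ ≤ F := by
    rw [hFdef]
    exact F_ge m ρ hρ0.le hρle
  have hF0 : 0 < F := lt_of_lt_of_le hρ0 hFρ
  -- tau
  obtain ⟨τ, hτdef⟩ : ∃ τ : ℝ, τ = Real.log T := ⟨_, rfl⟩
  have hexp : Real.exp τ = T := by rw [hτdef, Real.exp_log hT0]
  have hτ1 : (1 - e) * W ≤ τ := by
    have h1 : Real.log ((K : ℝ) / s / L ^ (j + 1)) ≤ τ := by
      rw [hτdef]
      exact Real.log_le_log (by positivity) hTlow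
    rw [Real.log_div (by positivity) (by positivity), Real.log_pow, ← hWdef] at h1
    push_cast at h1
    have h2 : ((j : ℝ) + 1) * Real.log L ≤ e * W := by
      calc ((j : ℝ) + 1) * Real.log L ≤ (C * e) * Real.log L := mul_le_mul_of_nonneg_right hCe (by linarith)
        _ = e * (C * Real.log L) := by ring
        _ ≤ e * W := mul_le_mul_of_nonneg_left hw1 he.le
    linarith
  have hτ0 : 0 < τ := lt_of_lt_of_le (mul_pos (by linarith) (by linarith)) hτ1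
  have hτQ : τ ≤ Real.log Q := by
    rw [hτdef]
    exact Real.log_le_log hT0 hTQ
  have hlogQ : Real.log Q ≤ L / 2 := by
    rw [← hlogs]
    exact Real.log_le_log hQr hQs2
  have hlogQ0 : 0 < Real.log Q := lt_of_lt_of_le hτ0 hτQ
  have hτ2 : E * Real.log (Real.log Q) ≤ τ := by
    have h1 : Real.log (Real.log Q) ≤ Real.log L := Real.log_le_log hlogQ0 (by linarith)
    have h2 : E * Real.log (Real.log Q) ≤ E * Real.log L := mul_le_mul_of_nonneg_left h1 hE.le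
    have h3 : (2 * E) * Real.log L ≤ C * Real.log L := mul_le_mul_of_nonneg_right hCE (by linarith)
    have h4 : 1 / 2 * W ≤ (1 - e) * W := mul_le_mul_of_nonneg_right (by linarith) (by linarith)
    linarith only [h2, h3, h4, hw1, hτ1]
  have hQ0Q : Q0 ≤ Q := by rw [hQdef]; exact hQ0X
  obtain ⟨x, hxdef⟩ : ∃ x : ℝ, x = 1 - (1 - e) * τ / Real.log Q := ⟨_, rfl⟩
  have hx0 : 0 ≤ x := by
    rw [hxdef, sub_nonneg, div_le_one hlogQ0]
    have h1 : (1 - e) * τ ≤ 1 * τ := mul_le_mul_of_nonneg_right (by linarith) hτ0.le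
    linarith only [h1, hτQ]
  have hxlow : x ≤ 1 - (1 - 2 * e) * ρ := by
    have h1 : 1 - x = (1 - e) * τ / Real.log Q := by rw [hxdef]; ring
    have h2 : (1 - e) * τ / (L / 2) ≤ (1 - e) * τ / Real.log Q :=
      div_le_div_of_nonneg_left (mul_nonneg (by linarith) hτ0.le) hlogQ0 hlogQ
    have h6 : (1 - 2 * e) * ρ ≤ (1 - e) * τ / (L / 2) := by
      rw [le_div_iff₀ (by linarith)]
      have h3 : (1 - 2 * e) * ρ * (L / 2) = (1 - 2 * e) * W := by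
        calc (1 - 2 * e) * ρ * (L / 2) = (1 - 2 * e) * (ρ * L) / 2 := by ring
          _ = (1 - 2 * e) * W := by rw [hρL]; ring
      rw [h3]
      have h4 : (1 - e) * ((1 - e) * W) ≤ (1 - e) * τ := mul_le_mul_of_nonneg_left hτ1 (by linarith)
      have h5 : 0 ≤ e ^ 2 * W := by positivity
      linarith only [h4, h5, (by ring : (1 - e) * ((1 - e) * W) = (1 - 2 * e) * W + e ^ 2 * W)]
    linarith only [h1, h2, h6]
  obtain ⟨lm, hlmdef⟩ : ∃ lm : ℝ, lm = x ^ (m + 1) := ⟨_, rfl⟩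
  have hlm0 : 0 ≤ lm := by
    rw [hlmdef]
    positivity
  have hlmlow : (1 - 2 * e) * F ≤ 1 - lm := by
    rw [hFdef, hlmdef]
    exact conv_bound m e ρ x he.le (by linarith) hρle hx0 hxlow
  have hlam : ∀ s : ℕ, 1 ≤ s → s ≤ Q → ∀ z : ℝ, 0 < z → z * s * T ≤ Q → Ls w s z ≤ lm * Ls w s (z * T) := by
    intro s' h1 h2 z h3 h4
    have h5 := hlamT Q hQ0Q τ hτ2 hτQ s' h1 h2 z h3 (by rw [hexp]; exact h4)
    rw [hexp] at h5
    rw [hlmdef, hxdef]
    exact h5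
  have hRQ' : Rem w B Q := by rw [hQdef]; exact hR
  have hvQ : ∀ n ∈ Icc 1 X, v n ≠ 0 → ∀ p : ℕ, p.Prime → p ≤ Q → ∀ b ∈ B p, ¬ (p : ℤ) ∣ (n : ℤ) - b := by
    rw [hQdef]; exact hv
  have hmp : MP Q X v lm T := by
    intro θ Y' hY0 hYT
    refine propA hwlt Q X B (fun n => v n * ee (n * θ)) hRQ' ?_ lm T hT1 hlam Y' hY0 hYT
    intro n hn hne p hp hpQ b hb
    exact hvQ n hn (left_ne_zero_of_mul hne) p hp hpQ b hb
  have hge : ∀ r : ℕ, 1 ≤ r → r ≤ Q → hs w 1 r * ‖∑ n ∈ Icc 1 X, v n‖ ^ 2 ≤ GG X v r :=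
    fun r hr hrQ => GG_ge hwlt Q X B v hRQ' hvQ r hr hrQ
  -- the sum over the moduli
  set V := ∑ n ∈ Icc 1 X, ‖v n‖ ^ 2 with hV
  have hV0 : 0 ≤ V := sum_nonneg fun _ _ => by positivity
  obtain ⟨Bd, hBdef⟩ : ∃ Bd : ℝ, Bd = (1 - (n : ℝ) / K) / N - (2 / ((n : ℝ) + 1) + 1 / R) / K := ⟨_, rfl⟩
  rw [← hBdef] at hBN
  have hB0 : 0 ≤ Bd := by
    by_contra hcon
    push Not at hcon
    have : Bd * N < 0 := mul_neg_of_neg_of_pos hcon hN0
    linarith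
  have hXf : X ≤ (2 * X).factorial := (by omega : X ≤ 2 * X).trans (Nat.self_le_factorial _)
  have hmain := sum_D hwlt Q (N * (2 * X).factorial) X Y K n N R (2 * X).factorial hQpos rfl
    (Nat.factorial_pos _) hN hn hnK hRp hRN hRQ v hge lm T hT1 hlm0 hmp
    (fun r hr1 hr2 => (Nat.dvd_factorial hr1 (by
      have h1 : Q ≤ X := by rw [hQdef]; exact Nat.sqrt_le_self X
      omega)).mul_left N)
    (fun k hk1 hk2 => (Nat.dvd_factorial (by omega) (by omega)).mul_left N)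
    (hXf.trans (Nat.le_mul_of_pos_left _ hN)) hRT hTn e he (by linarith) Bd hBdef hB0
  refine le_trans ?_ hmain
  -- the numerical inequality
  rw [hrho, ← hρdef, ← hFdef, ← hV]
  have hFL : 1 / L ≤ F := hρ1.trans hFρ
  have hbr : (1 - 4 * e) * F ≤ (1 - e) * (1 - lm) - (1 / e) * (2 * Real.pi * X / N) ^ 2 := by
    have h1 : (1 - e) * ((1 - 2 * e) * F) ≤ (1 - e) * (1 - lm) := mul_le_mul_of_nonneg_left hlmlow (by linarith)
    have h2 : e / L ≤ e * F := by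
      have := mul_le_mul_of_nonneg_left hFL he.le
      rw [mul_one_div] at this
      exact this
    have h3 : 0 ≤ e ^ 2 * F := by positivity
    linarith only [h1, h2, h3, hpi, (by ring : (1 - e) * ((1 - 2 * e) * F) = (1 - 3 * e) * F + 2 * (e ^ 2 * F)),
      (by ring : (1 - 3 * e) * F = (1 - 4 * e) * F + e * F)]
  have hbr0 : 0 ≤ (1 - 4 * e) * F := mul_nonneg (by linarith) hF0.le
  have hKn : (1 - e) * K ≤ (K : ℝ) - n := by linarith
  have hm1 : (1 - 11 * e) * F * K ≤ ((K : ℝ) - n) * Bd *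
      (N * ((1 - e) * (1 - lm) - (1 / e) * (2 * Real.pi * X / N) ^ 2)) := by
    have h1 : ((K : ℝ) - n) * Bd * (N * ((1 - e) * (1 - lm) - (1 / e) * (2 * Real.pi * X / N) ^ 2)) =
        (((K : ℝ) - n) * (Bd * N)) * ((1 - e) * (1 - lm) - (1 / e) * (2 * Real.pi * X / N) ^ 2) := by ring
    rw [h1]
    have h2 : ((1 - e) * K) * (1 - 6 * e) ≤ ((K : ℝ) - n) * (Bd * N) :=
      mul_le_mul hKn hBN (by linarith) (le_trans (mul_nonneg (by linarith) hK0.le) hKn)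
    have h3 : (((1 - e) * K) * (1 - 6 * e)) * ((1 - 4 * e) * F) ≤
        (((K : ℝ) - n) * (Bd * N)) * ((1 - e) * (1 - lm) - (1 / e) * (2 * Real.pi * X / N) ^ 2) :=
      mul_le_mul h2 hbr hbr0 (le_trans (mul_nonneg (mul_nonneg (by linarith) hK0.le) (by linarith)) h2)
    refine le_trans ?_ h3
    have h4 : (1 - 11 * e) ≤ (1 - e) * (1 - 6 * e) * (1 - 4 * e) := by
      have h7 : 0 ≤ e ^ 2 * (34 - 24 * e) := mul_nonneg he2.le (by linarith)
      linarith only [h7, (by ring : (1 - e) * (1 - 6 * e) * (1 - 4 * e) = 1 - 11 * e + e ^ 2 * (34 - 24 * e))]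
    have h5 : 0 ≤ F * K := by positivity
    have h6 := mul_le_mul_of_nonneg_right h4 h5
    linarith only [h6, (by ring : (1 - 11 * e) * (F * K) = (1 - 11 * e) * F * K),
      (by ring : (1 - e) * (1 - 6 * e) * (1 - 4 * e) * (F * K) = (((1 - e) * K) * (1 - 6 * e)) * ((1 - 4 * e) * F))]
  have hK3 : 3 ≤ 2 * K := by
    have h1 : s * 1 ≤ s * L ^ (j + 2) := mul_le_mul_of_nonneg_left (one_le_pow₀ hL1) hs0.le
    have h2 : (3 : ℝ) ≤ K := by linarith only [h1, hK4, hsL, hL100]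
    have h3 : 3 ≤ K := by exact_mod_cast h2
    omega
  have hLg : Real.log ((2 * K : ℕ) : ℝ) ≤ 2 * L := by
    have h1 : ((2 * K : ℕ) : ℝ) ≤ 2 * X := by
      push_cast
      have : (K : ℝ) ≤ X := by exact_mod_cast hKX
      linarith
    have h2 : (0 : ℝ) < ((2 * K : ℕ) : ℝ) := by
      push_cast
      linarith
    have h3 := Real.log_le_log h2 h1
    rw [Real.log_mul (by norm_num) hX00.ne', ← hLdef] at h3
    have := Real.log_two_lt_d9
    linarith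
  have hLg0 : 0 ≤ Real.log ((2 * K : ℕ) : ℝ) := by
    apply Real.log_nonneg
    exact_mod_cast (by omega : 1 ≤ 2 * K)
  have hPPb : PP w (2 * K) ≤ Ct * 2 ^ D * L ^ D := by
    refine (hPP (2 * K) hK3).trans ?_
    have h1 : Real.log ((2 * K : ℕ) : ℝ) ^ D ≤ (2 * L) ^ D := pow_le_pow_left₀ hLg0 hLg D
    calc Ct * Real.log ((2 * K : ℕ) : ℝ) ^ D ≤ Ct * (2 * L) ^ D := mul_le_mul_of_nonneg_left h1 (by linarith)
      _ = Ct * 2 ^ D * L ^ D := by rw [mul_pow]; ring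
  have htail : (X : ℝ) * ((3 / R) * PP w (2 * K)) ≤ e * F * K := by
    have h1 : (X : ℝ) * ((3 / R) * PP w (2 * K)) = 3 * ((X : ℝ) * (1 / R)) * PP w (2 * K) := by ring
    rw [h1]
    have h2 : 3 * ((X : ℝ) * (1 / R)) * PP w (2 * K) ≤ 3 * (e ^ 2 * K / (3 * L ^ j)) * (Ct * 2 ^ D * L ^ D) := by
      refine mul_le_mul (by linarith) hPPb (zero_le_one.trans (PP_one_le hwlt _)) (by positivity)
    refine h2.trans ?_
    have h3 : 3 * (e ^ 2 * K / (3 * L ^ j)) * (Ct * 2 ^ D * L ^ D) = e ^ 2 * K * (Ct * 2 ^ D) / L ^ 2 := by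
      rw [hjdef, pow_add]
      field_simp
    rw [h3]
    have h4 : e ^ 2 * K * (Ct * 2 ^ D) / L ^ 2 ≤ e ^ 2 * K * L / L ^ 2 :=
      div_le_div_of_nonneg_right (mul_le_mul_of_nonneg_left hLCt (by positivity)) (by positivity)
    have h5 : e ^ 2 * K * L / L ^ 2 = (e ^ 2 * K) * (1 / L) := by field_simp
    have hee2 : e ^ 2 ≤ e := by nlinarith only [he, he1]
    have h6 : (e ^ 2 * K) * (1 / L) ≤ (e * K) * F :=
      mul_le_mul (mul_le_mul_of_nonneg_right hee2 hK0.le) hFL (by positivity) (by positivity)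
    linarith only [h4, h5, h6, (by ring : (e * K) * F = e * F * (K : ℝ))]
  have hfin1 := mul_le_mul_of_nonneg_right hm1 hV0
  have hfin2 := mul_le_mul_of_nonneg_right htail hV0
  have hfin3 : (1 - ε) * F * K * V ≤ (1 - 11 * e) * F * K * V - e * F * K * V := by
    have h1 : ε = 16 * e := by rw [hedef]; ring
    have h2 : 0 ≤ e * (F * K * V) := by positivity
    rw [h1]
    linarith only [h2, (by ring : (1 - 11 * e) * F * K * V - e * F * K * V =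
      (1 - 16 * e) * F * K * V + 4 * (e * (F * K * V)))]
  have hfin4 : (X : ℝ) * V * ((3 / R) * PP w (2 * K)) = (X : ℝ) * ((3 / R) * PP w (2 * K)) * V := by ring
  rw [hfin4]
  linarith

end Pool.Agent.H535.AK
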