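import Pool.Agent.H535.AW.Mass

set_option autoImplicit false

/-!
The share of the mass near the fractions with small denominators: abstract form.
-/

open Finset

namespace Pool.Agent.H535.AK

open Pool.Agent.Helper112 Pool.Agent.W110.HV
open Pool.Agent.H535.AW

/-- the basic inequality, for all twists -/
def MP (Q X : ℕ) (v : ℕ → ℂ) (lm T : ℝ) : Prop :=
  ∀ θ Y : ℝ, 0 < Y → Y * T ≤ Q →
    ∑ r ∈ Icc 1 ⌊Y⌋₊, GG X (fun n => v n * ee (n * θ)) r ≤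
      lm * ∑ r ∈ Icc 1 ⌊Y * T⌋₊, GG X (fun n => v n * ee (n * θ)) r

theorem mass (Q M X : ℕ) (hQ : 0 < Q) (v : ℕ → ℂ)
    (lm T : ℝ) (hT : 1 ≤ T) (hlm : 0 ≤ lm) (hmp : MP Q X v lm T)
    (hdiv : ∀ r : ℕ, 1 ≤ r → r ≤ Q → r ∣ M) (hXM : X ≤ M) (hM : 0 < M) (Bad : Finset ℕ)
    (hBad : ∀ x ∈ Bad, ∃ (i : ℤ) (r a : ℕ), 1 ≤ r ∧ (r : ℝ) * T ≤ Q ∧ a < r ∧ a.Coprime r ∧
      2 * ((r : ℝ) * T) * ((Q : ℝ) + 1) * |(i : ℝ)| ≤ M ∧ x = gp M i r a) :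
    ∑ x ∈ Bad, ‖SX X v ((x : ℝ) / M)‖ ^ 2 ≤ lm * (M * ∑ n ∈ Icc 1 X, ‖v n‖ ^ 2) := by
  have hT0 : (0 : ℝ) < T := by linarith
  have hM0 : (0 : ℝ) < M := by exact_mod_cast hM
  have h1 : Bad ⊆ (US Q M T).image (fun t => gp M t.1 t.2.1 t.2.2) := by
    intro x hx
    obtain ⟨i, r, a, h1, h2, h3, h4, h5, h6⟩ := hBad x hx
    rw [mem_image]
    refine ⟨⟨i, r, a⟩, ?_, h6.symm⟩
    unfold US
    rw [mem_sigma, mem_sigma, mem_filter, mem_range, mem_Icc, mem_Icc]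
    have hr1 : (1 : ℝ) ≤ r := by exact_mod_cast h1
    refine ⟨?_, ⟨h1, ?_⟩, h3, h4⟩
    · have h7 : |(i : ℝ)| ≤ M := by
        refine le_trans ?_ h5
        have h8 : 1 ≤ 2 * ((r : ℝ) * T) * ((Q : ℝ) + 1) := by
          have h9 : 1 ≤ (r : ℝ) * T := one_le_mul_of_one_le_of_one_le hr1 hT
          have h10 : (0 : ℝ) ≤ Q := Nat.cast_nonneg _
          nlinarith
        calc |(i : ℝ)| = 1 * |(i : ℝ)| := (one_mul _).symm
          _ ≤ _ := mul_le_mul_of_nonneg_right h8 (abs_nonneg _)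
      rw [abs_le] at h7
      constructor
      · have := h7.1
        have h8 : ((-(M : ℤ) : ℤ) : ℝ) ≤ (i : ℝ) := by push_cast; exact this
        exact_mod_cast h8
      · have := h7.2
        have h8 : (i : ℝ) ≤ ((M : ℤ) : ℝ) := by push_cast; exact this
        exact_mod_cast h8
    · apply Nat.le_floor
      rw [le_div_iff₀ hT0, le_YQ]
      exact ⟨h2, fun _ => h5⟩
  calc ∑ x ∈ Bad, ‖SX X v ((x : ℝ) / M)‖ ^ 2
      ≤ ∑ x ∈ (US Q M T).image (fun t => gp M t.1 t.2.1 t.2.2), ‖SX X v ((x : ℝ) / M)‖ ^ 2 :=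
        sum_le_sum_of_subset_of_nonneg h1 fun x _ _ => by positivity
    _ = ∑ i ∈ Icc (-(M : ℤ)) M, ∑ r ∈ Icc 1 ⌊YQ Q M i / T⌋₊,
          GG X (fun n => v n * ee (n * ((i : ℝ) / M))) r := US_sum Q M X v T hT hM hdiv
    _ ≤ ∑ i ∈ Icc (-(M : ℤ)) M, lm * ∑ r ∈ Icc 1 ⌊YQ Q M i / 1⌋₊,
          GG X (fun n => v n * ee (n * ((i : ℝ) / M))) r := by
        refine sum_le_sum fun i _ => ?_
        have h2 := hmp ((i : ℝ) / M) (YQ Q M i / T)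
          (div_pos (YQ_pos Q M hQ hM i) hT0) (by
            rw [div_mul_cancel₀ _ hT0.ne']
            exact YQ_le Q M i)
        rw [div_mul_cancel₀ _ hT0.ne'] at h2
        rw [div_one]
        exact h2
    _ = lm * ∑ x ∈ (US Q M 1).image (fun t => gp M t.1 t.2.1 t.2.2), ‖SX X v ((x : ℝ) / M)‖ ^ 2 := by
        rw [US_sum Q M X v 1 le_rfl hM hdiv, mul_sum]
    _ ≤ lm * ∑ x ∈ range M, ‖SX X v ((x : ℝ) / M)‖ ^ 2 := by
        refine mul_le_mul_of_nonneg_left (sum_le_sum_of_subset_of_nonneg ?_ fun x _ _ => by positivity) hlm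
        intro x hx
        rw [mem_image] at hx
        obtain ⟨t, _, rfl⟩ := hx
        exact mem_range.2 (gp_lt M hM _ _ _)
    _ = lm * (M * ∑ n ∈ Icc 1 X, ‖v n‖ ^ 2) := by rw [parseval X M hXM hM v]

end Pool.Agent.H535.AK
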