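import Pool.Agent.H535.AK.Gen2

set_option autoImplicit false

/-!
The general theorem for the values of a polynomial function.
-/

open Finset

namespace Pool.Agent.H535.AK

open Pool.Agent.H535.AW (large2)

/-- the roots of `F` modulo `p` -/
noncomputable def rtF (F : ℤ → ℤ) (p : ℕ) : Finset ℤ := (Ico (0 : ℤ) p).filter (fun x => (p : ℤ) ∣ F x)

/-- the number of the roots -/
noncomputable def wF (F : ℤ → ℤ) (p : ℕ) : ℕ := (rtF F p).card

theorem rtF_inj (F : ℤ → ℤ) (p : ℕ) : ∀ b ∈ rtF F p, ∀ c ∈ rtF F p, (p : ℤ) ∣ b - c → b = c := by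
  intro b hb c hc hd
  unfold rtF at hb hc
  rw [mem_filter, mem_Ico] at hb hc
  have h1 : b % p = c % p := (Int.emod_emod_of_dvd b (dvd_refl (p : ℤ))).symm.trans
    (by
      rw [Int.emod_emod_of_dvd _ (dvd_refl _)]
      exact (Int.modEq_iff_dvd.2 (by
        have := dvd_neg.2 hd
        rwa [neg_sub] at this)))
  rwa [Int.emod_eq_of_lt hb.1.1 hb.1.2, Int.emod_eq_of_lt hc.1.1 hc.1.2] at h1

theorem not_root_iff (F : ℤ → ℤ) (hF : ∀ x y : ℤ, x - y ∣ F x - F y) (p : ℕ) (hp : p.Prime) (t : ℤ) :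
    (∀ b ∈ rtF F p, ¬ (p : ℤ) ∣ t - b) ↔ ¬ (p : ℤ) ∣ F t := by
  have hp0 : (0 : ℤ) < p := by exact_mod_cast hp.pos
  constructor
  · intro h hd
    refine h (t % p) ?_ ?_
    · unfold rtF
      rw [mem_filter, mem_Ico]
      refine ⟨⟨Int.emod_nonneg _ hp0.ne', Int.emod_lt_of_pos _ hp0⟩, ?_⟩
      have h1 : (p : ℤ) ∣ t - t % p := Int.dvd_self_sub_emod
      have h2 := h1.trans (hF t (t % p))
      have h3 := dvd_sub hd h2
      have e : F t - (F t - F (t % p)) = F (t % p) := by ring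
      rwa [e] at h3
    · exact Int.dvd_self_sub_emod
  · intro h b hb hd
    unfold rtF at hb
    rw [mem_filter] at hb
    apply h
    have h2 := hd.trans (hF t b)
    have h3 := dvd_add h2 hb.2
    have e : F t - F b + F b = F t := by ring
    rwa [e] at h3

/-- the classes modulo `k` at which the value is coprime to `k` -/
noncomputable def CoC (F : ℤ → ℤ) (k : ℕ) : Finset ℕ := by
  classical
  exact (range k).filter (fun a => IsCoprime (F a) (k : ℤ))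

theorem mem_CoC (F : ℤ → ℤ) (k a : ℕ) : a ∈ CoC F k ↔ a < k ∧ IsCoprime (F a) (k : ℤ) := by
  classical
  unfold CoC
  rw [mem_filter, mem_range]

theorem Alw_eq (F : ℤ → ℤ) (hF : ∀ x y : ℤ, x - y ∣ F x - F y) (k : ℕ) (hk : 0 < k) :
    Alw (rtF F) k = CoC F k := by
  ext a
  rw [mem_Alw, mem_CoC]
  refine and_congr_right fun _ => ?_
  have h1 : (∀ p : ℕ, p.Prime → p ∣ k → ∀ b ∈ rtF F p, ¬ (p : ℤ) ∣ (a : ℤ) - b) ↔
      ∀ p : ℕ, p.Prime → p ∣ k → ¬ (p : ℤ) ∣ F a := by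
    refine forall_congr' fun p => forall_congr' fun hp => forall_congr' fun _ => ?_
    exact not_root_iff F hF p hp a
  rw [h1, Int.isCoprime_iff_gcd_eq_one]
  constructor
  · intro h
    by_contra hne
    obtain ⟨p, hp, hd⟩ := Nat.exists_prime_and_dvd hne
    have h2 : (p : ℤ) ∣ F a := (Int.natCast_dvd_natCast.2 hd).trans (Int.gcd_dvd_left _ _)
    have h3 : (p : ℤ) ∣ (k : ℤ) := (Int.natCast_dvd_natCast.2 hd).trans (Int.gcd_dvd_right _ _)
    exact h p hp (Int.natCast_dvd_natCast.1 h3) h2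
  · intro h p hp hpk hd
    have h2 : (p : ℤ) ∣ (Int.gcd (F a) k : ℤ) := Int.dvd_coe_gcd hd (Int.natCast_dvd_natCast.2 hpk)
    rw [h] at h2
    exact hp.one_lt.ne' (Nat.dvd_one.1 (by exact_mod_cast h2))

/-- the number of the bad moduli -/
theorem bad_count (F : ℤ → ℤ) (hF : ∀ x y : ℤ, x - y ∣ F x - F y) (X K J : ℕ) (hX : 1 ≤ X)
    (hK : Real.sqrt X ≤ K) (t : ℤ) (h0 : F t ≠ 0) (hJ : (F t).natAbs.primeFactors.card ≤ J)
    (hbig : ∀ p : ℕ, p.Prime → (p : ℤ) ∣ F t → X < p ^ 2) :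
    ((BadK (rtF F) K t).card : ℝ) ≤ (2 * J) * (K / Real.sqrt X) := by
  classical
  have hX0 : (0 : ℝ) < X := by exact_mod_cast hX
  obtain ⟨s, hs⟩ : ∃ s : ℝ, s = Real.sqrt X := ⟨_, rfl⟩
  have hs0 : 0 < s := by
    rw [hs]
    exact Real.sqrt_pos.2 hX0
  rw [← hs] at hK ⊢
  have h1 : BadK (rtF F) K t ⊆ (F t).natAbs.primeFactors.biUnion
      (fun p => (Ioc K (2 * K)).filter (fun k => p ∣ k)) := by
    intro k hk
    rw [mem_BadK] at hk
    obtain ⟨hk1, p, hp, hpk, b, hb, hd⟩ := hk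
    have hpF : (p : ℤ) ∣ F t := by
      by_contra hcon
      exact (not_root_iff F hF p hp t).2 hcon b hb hd
    rw [mem_biUnion]
    exact ⟨p, Nat.mem_primeFactors.2 ⟨hp, Int.natCast_dvd.1 hpF, Int.natAbs_ne_zero.2 h0⟩,
      mem_filter.2 ⟨hk1, hpk⟩⟩
  have h2 : ((BadK (rtF F) K t).card : ℝ) ≤
      ∑ p ∈ (F t).natAbs.primeFactors, (((Ioc K (2 * K)).filter (fun k => p ∣ k)).card : ℝ) := by
    exact_mod_cast (card_le_card h1).trans card_biUnion_le
  have h3 : ∀ p ∈ (F t).natAbs.primeFactors, (((Ioc K (2 * K)).filter (fun k => p ∣ k)).card : ℝ) ≤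
      2 * (K / s) := by
    intro p hp
    have hp' := Nat.mem_primeFactors.1 hp
    have h4 := Pool.Agent.H535.LB.mult_count K p hp'.1.pos
    have h5 : s ≤ p := by
      have h6 := hbig p hp'.1 (Int.natCast_dvd.2 hp'.2.1)
      rw [hs]
      apply Real.sqrt_le_iff.2
      refine ⟨Nat.cast_nonneg _, ?_⟩
      exact_mod_cast h6.le
    have h6 : (K : ℝ) / p ≤ K / s := div_le_div_of_nonneg_left (Nat.cast_nonneg _) hs0 h5
    have h7 : 1 ≤ (K : ℝ) / s := by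
      rw [le_div_iff₀ hs0]
      linarith
    linarith
  have h4 := sum_le_sum h3
  rw [sum_const, nsmul_eq_mul] at h4
  have h5 : ((F t).natAbs.primeFactors.card : ℝ) ≤ J := by exact_mod_cast hJ
  have h6 : ((F t).natAbs.primeFactors.card : ℝ) * (2 * (K / s)) ≤ J * (2 * (K / s)) :=
    mul_le_mul_of_nonneg_right h5 (by positivity)
  linarith

/-- **The values of a polynomial function without small prime factors.** -/
theorem poly_var (F : ℤ → ℤ) (hF : ∀ x y : ℤ, x - y ∣ F x - F y) {m : ℕ} {A : ℝ} (hD : Dim (wF F) (m + 1) A)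
    (J : ℕ) (ε : ℝ) (hε : 0 < ε) (hε1 : ε ≤ 1) :
    ∃ C : ℝ, ∃ X0 : ℕ, ∀ X : ℕ, X0 ≤ X →
    ∀ K : ℕ, Real.sqrt X * Real.log X ^ C ≤ K → K ≤ X → ∀ (Y : ℤ) (u : ℤ → ℂ),
    (∀ t ∈ Ioc Y (Y + X), u t ≠ 0 → F t ≠ 0 ∧ (F t).natAbs.primeFactors.card ≤ J ∧
      ∀ p : ℕ, p.Prime → (p : ℤ) ∣ F t → X < p ^ 2) → ∀ c : ℕ → ℂ,
    (1 - ε) * (1 - (1 - Real.log ((K : ℝ) ^ 2 / X) / Real.log X) ^ (m + 1)) * K *
        ∑ t ∈ Ioc Y (Y + X), ‖u t‖ ^ 2 ≤
      ∑ k ∈ Ioc K (2 * K), ∑ a ∈ CoC F k, ‖IC u Y X k a - c k‖ ^ 2 := by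
  obtain ⟨C, hC, X0, h⟩ := gen_var hD (2 * J) (by positivity) ε hε hε1
  obtain ⟨X2, hX2⟩ := large2 1
  refine ⟨C, max X0 (max X2 1), fun X hX K hK hKX Y u hu c => ?_⟩
  have hXX0 : X0 ≤ X := (le_max_left _ _).trans hX
  have hXX2 : X2 ≤ X := (le_max_left _ _).trans ((le_max_right _ _).trans hX)
  have hX1 : 1 ≤ X := (le_max_right _ _).trans ((le_max_right _ _).trans hX)
  obtain ⟨hL, _⟩ := hX2 X hXX2
  have hsK : Real.sqrt X ≤ K := by
    refine le_trans ?_ hK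
    exact le_mul_of_one_le_right (Real.sqrt_nonneg _) (Real.one_le_rpow hL (by linarith))
  have h1 := h X hXX0 K hK hKX Y (rtF F) u ⟨fun p _ _ => rfl, fun p _ _ => rtF_inj F p⟩ (fun p _ => le_rfl)
    (fun t ht hne p hp hpX b hb hd => by
      obtain ⟨_, _, hbig⟩ := hu t ht hne
      have hpF : (p : ℤ) ∣ F t := by
        by_contra hcon
        exact (not_root_iff F hF p hp t).2 hcon b hb hd
      have := hbig p hp hpF
      omega)
    (fun t ht hne => by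
      obtain ⟨h0, hJ, hbig⟩ := hu t ht hne
      exact bad_count F hF X K J hX1 hsK t h0 hJ hbig) c
  refine h1.trans (le_of_eq ?_)
  refine sum_congr rfl fun k hk => ?_
  rw [mem_Ioc] at hk
  rw [Alw_eq F hF k (by omega)]

end Pool.Agent.H535.AK
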