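import Pool.Agent.H535.AK.Chi
import Pool.Agent.H535.AK.Bd

set_option autoImplicit false

/-!
The sieve problem of the values of a quadratic polynomial has dimension one.
-/

open Finset

namespace Pool.Agent.H535.AK

open Pool.Agent.Helper919 (XX XX_apply XX_abs_le)

/-- the triple `(a, b, c)` is admissible -/
def Adm (a b c : ℤ) : Prop :=
  0 < a ∧ (∀ d : ℤ, d ∣ a → d ∣ b → d ∣ c → IsUnit d) ∧ ¬ ((2 : ℤ) ∣ a + b ∧ (2 : ℤ) ∣ c) ∧
    ¬ IsSquare (b ^ 2 - 4 * a * c)

/-- the roots of `a t ^ 2 + b t + c` modulo `p` -/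
noncomputable def rts (a b c : ℤ) (p : ℕ) : Finset ℤ :=
  (Ico (0 : ℤ) p).filter (fun x => (p : ℤ) ∣ a * x ^ 2 + b * x + c)

/-- the number of the roots -/
noncomputable def wq (a b c : ℤ) (p : ℕ) : ℕ := (rts a b c p).card

theorem wq_zmod (a b c : ℤ) (p : ℕ) (hp : p.Prime) : ∀ _ : Fact p.Prime, wq a b c p =
    (univ.filter (fun x : ZMod p => (a : ZMod p) * x ^ 2 + b * x + c = 0)).card := by
  intro _
  unfold wq rts
  refine card_nbij (fun x : ℤ => (x : ZMod p)) ?_ ?_ ?_
  · intro x hx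
    rw [mem_coe, mem_filter] at hx
    rw [mem_coe, mem_filter]
    refine ⟨mem_univ _, ?_⟩
    have := (ZMod.intCast_zmod_eq_zero_iff_dvd (a * x ^ 2 + b * x + c) p).2 hx.2
    push_cast at this
    exact this
  · intro x hx y hy hxy
    rw [mem_coe, mem_filter, mem_Ico] at hx hy
    simp only at hxy
    have h1 := (ZMod.intCast_eq_intCast_iff_dvd_sub x y p).1 hxy
    have h2 := Int.emod_emod_of_dvd (y - x) (dvd_refl (p : ℤ))
    obtain ⟨q, hq⟩ := h1
    have hp0 : (0 : ℤ) < p := by exact_mod_cast hp.pos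
    have h3 : q = 0 := by
      by_contra hne
      rcases lt_or_gt_of_ne hne with h | h
      · have : (p : ℤ) * q ≤ -p := by nlinarith
        omega
      · have : (p : ℤ) ≤ p * q := by nlinarith
        omega
    rw [h3, mul_zero] at hq
    omega
  · intro x hx
    rw [mem_coe, mem_filter] at hx
    rw [Set.mem_image]
    refine ⟨(x.val : ℤ), ?_, ?_⟩
    · rw [mem_coe, mem_filter, mem_Ico]
      refine ⟨⟨Int.natCast_nonneg _, by exact_mod_cast ZMod.val_lt x⟩, ?_⟩
      rw [← ZMod.intCast_zmod_eq_zero_iff_dvd]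
      push_cast
      rw [ZMod.natCast_zmod_val]
      exact hx.2
    · push_cast
      exact ZMod.natCast_zmod_val x

theorem wq_eq (a b c : ℤ) (p : ℕ) (hp : p.Prime) (hp2 : p ≠ 2) (hpa : ¬ (p : ℤ) ∣ a) :
    (wq a b c p : ℤ) = jacobiSym (b ^ 2 - 4 * a * c) p + 1 := by
  have hF : Fact p.Prime := ⟨hp⟩
  rw [wq_zmod a b c p hp hF, ← jacobiSym.legendreSym.to_jacobiSym, ← legendreSym.card_sqrts p hp2]
  congr 1
  have ha0 : (a : ZMod p) ≠ 0 := by
    intro h
    exact hpa ((ZMod.intCast_zmod_eq_zero_iff_dvd a p).1 h)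
  have h20 : (2 : ZMod p) ≠ 0 := by
    intro h
    have h1 : ((2 : ℕ) : ZMod p) = 0 := by exact_mod_cast h
    rw [ZMod.natCast_eq_zero_iff] at h1
    exact hp2 ((Nat.prime_dvd_prime_iff_eq hp Nat.prime_two).1 h1)
  have h2a : (2 : ZMod p) * a ≠ 0 := mul_ne_zero h20 ha0
  refine card_nbij' (fun x => 2 * a * x + b) (fun y => (y - b) / (2 * a)) ?_ ?_ ?_ ?_
  · intro x hx
    rw [mem_coe, mem_filter] at hx
    rw [mem_coe, Set.mem_toFinset]
    show (2 * (a : ZMod p) * x + b) ^ 2 = ((b ^ 2 - 4 * a * c : ℤ) : ZMod p)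
    push_cast
    have e : (2 * (a : ZMod p) * x + b) ^ 2 = 4 * a * (a * x ^ 2 + b * x + c) + (b ^ 2 - 4 * a * c) := by ring
    rw [e, hx.2]
    ring
  · intro y hy
    rw [mem_coe, Set.mem_toFinset] at hy
    have hy' : y ^ 2 = ((b ^ 2 - 4 * a * c : ℤ) : ZMod p) := hy
    push_cast at hy'
    rw [mem_coe, mem_filter]
    refine ⟨mem_univ _, ?_⟩
    have e : 4 * (a : ZMod p) * (a * ((y - b) / (2 * a)) ^ 2 + b * ((y - b) / (2 * a)) + c) =
        y ^ 2 - (b ^ 2 - 4 * a * c) := by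
      field_simp
      ring
    rw [hy', sub_self] at e
    rcases mul_eq_zero.1 e with h | h
    · exfalso
      apply h2a
      have h4 : (2 : ZMod p) * (2 * a) = 0 := by
        rw [← h]
        ring
      exact (mul_eq_zero.1 h4).resolve_left h20
    · exact h
  · intro x _
    show (2 * (a : ZMod p) * x + b - b) / (2 * a) = x
    rw [add_sub_cancel_right]
    field_simp
  · intro y _
    show 2 * (a : ZMod p) * ((y - b) / (2 * a)) + b = y
    field_simp
    ring

theorem wq_lt (a b c : ℤ) (h : Adm a b c) (p : ℕ) (hp : p.Prime) : wq a b c p < p := by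
  have hp0 : (0 : ℤ) < p := by exact_mod_cast hp.pos
  have hcard : (Ico (0 : ℤ) p).card = p := by rw [Int.card_Ico, sub_zero, Int.toNat_natCast]
  by_contra hcon
  push Not at hcon
  have hall : ∀ x ∈ Ico (0 : ℤ) p, (p : ℤ) ∣ a * x ^ 2 + b * x + c := by
    have h1 : rts a b c p = Ico (0 : ℤ) p := by
      refine eq_of_subset_of_card_le (filter_subset _ _) ?_
      rw [hcard]
      exact hcon
    intro x hx
    rw [← h1] at hx
    exact (mem_filter.1 hx).2
  have h0 := hall 0 (mem_Ico.2 ⟨le_rfl, hp0⟩)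
  have h1 := hall 1 (mem_Ico.2 ⟨by norm_num, by exact_mod_cast hp.one_lt⟩)
  have hc : (p : ℤ) ∣ c := by simpa using h0
  have hab : (p : ℤ) ∣ a + b := by
    have := dvd_sub h1 hc
    have e : a * 1 ^ 2 + b * 1 + c - c = a + b := by ring
    rwa [e] at this
  rcases hp.eq_two_or_odd with h2 | hodd
  · subst h2
    exact h.2.2.1 ⟨by exact_mod_cast hab, by exact_mod_cast hc⟩
  · have hp2 : p ≠ 2 := by
      rintro rfl
      norm_num at hodd
    have hm := hall (p - 1) (mem_Ico.2 ⟨by omega, by omega⟩)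
    have hamb : (p : ℤ) ∣ a - b := by
      have e : a * ((p : ℤ) - 1) ^ 2 + b * (p - 1) + c = (a - b) + c + p * (a * p - 2 * a + b) := by ring
      rw [e] at hm
      have h3 := (dvd_add_left (Dvd.intro _ rfl)).1 hm
      exact (dvd_add_left hc).1 h3
    have hcop : IsCoprime (p : ℤ) 2 := by
      have : Nat.Coprime p 2 := (Nat.coprime_primes hp Nat.prime_two).2 hp2
      exact_mod_cast Nat.isCoprime_iff_coprime.2 this
    have h2a : (p : ℤ) ∣ a := by
      have := dvd_add hab hamb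
      have e : a + b + (a - b) = 2 * a := by ring
      rw [e] at this
      exact hcop.dvd_of_dvd_mul_left this
    have h2b : (p : ℤ) ∣ b := by
      have := dvd_sub hab h2a
      have e : a + b - a = b := by ring
      rwa [e] at this
    have h3 := h.2.1 p h2a h2b hc
    have h4 := Int.isUnit_iff.1 h3
    have h5 : (1 : ℤ) < p := by exact_mod_cast hp.one_lt
    omega

theorem wq_le (a b c : ℤ) (h : Adm a b c) (p : ℕ) (hp : p.Prime) : (wq a b c p : ℝ) ≤ 2 * a + 2 := by
  have ha : (0 : ℝ) < a := by exact_mod_cast h.1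
  by_cases h1 : p = 2 ∨ (p : ℤ) ∣ a
  · have h2 : (p : ℝ) ≤ 2 * a + 2 := by
      rcases h1 with h1 | h1
      · rw [h1]
        push_cast
        linarith
      · have h3 : (p : ℤ) ≤ a := Int.le_of_dvd h.1 h1
        have h4 : (p : ℝ) ≤ a := by exact_mod_cast h3
        linarith
    have h3 : (wq a b c p : ℝ) ≤ p := by exact_mod_cast (wq_lt a b c h p hp).le
    exact h3.trans h2
  · push Not at h1
    have h2 := wq_eq a b c p hp h1.1 h1.2
    have h3 : jacobiSym (b ^ 2 - 4 * a * c) p ≤ 1 := by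
      rcases jacobiSym.trichotomy (b ^ 2 - 4 * a * c) p with h | h | h <;> rw [h] <;> norm_num
    have h4 : (wq a b c p : ℤ) ≤ 2 := by omega
    have h5 : (wq a b c p : ℝ) ≤ 2 := by exact_mod_cast h4
    linarith

/-- the sieve problem has dimension one -/
theorem quad_dim (a b c : ℤ) (h : Adm a b c) : ∃ A : ℝ, Dim (wq a b c) (0 + 1) A := by
  have hD0 : b ^ 2 - 4 * a * c ≠ 0 := by
    intro h0
    apply h.2.2.2
    rw [h0]
    exact ⟨0, by norm_num⟩
  obtain ⟨C1, hC10, hC1⟩ := Chi.chi_primes (b ^ 2 - 4 * a * c) hD0 h.2.2.2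
  obtain ⟨C2, hC2⟩ := Pool.Agent.Erdos456.Mert.mertens_log
  have hC20 : 0 ≤ C2 := (abs_nonneg _).trans (hC2 1 le_rfl)
  have ha : (0 : ℝ) < a := by exact_mod_cast h.1
  set M : ℕ := 2 * a.natAbs with hM
  have hM0 : 0 < M := by
    have : 0 < a.natAbs := Int.natAbs_pos.2 h.1.ne'
    omega
  set S : ℝ := ∑ p ∈ M.primeFactors, (2 * (a : ℝ) + 4) * (Real.log p / p) with hS
  have hS0 : 0 ≤ S := by
    rw [hS]
    refine sum_nonneg fun p hp => ?_
    have h2 : (2 : ℝ) ≤ p := by exact_mod_cast (Nat.prime_of_mem_primeFactors hp).two_le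
    have : 0 ≤ Real.log p := Real.log_nonneg (by linarith)
    positivity
  refine ⟨2 * a + 2 + C1 + C2 + S, ⟨wq_lt a b c h, fun p hp => ?_, fun N hN => ?_⟩⟩
  · have := wq_le a b c h p hp
    linarith
  · have h1 := hC1 N
    have h2 := hC2 N hN
    have h3 : |∑ p ∈ (Icc 1 N).filter Nat.Prime,
        ((wq a b c p : ℝ) - 1 - XX (b ^ 2 - 4 * a * c) p) * (Real.log p / p)| ≤ S := by
      have h4 : ∀ p ∈ (Icc 1 N).filter Nat.Prime, p ∉ M.primeFactors →
          ((wq a b c p : ℝ) - 1 - XX (b ^ 2 - 4 * a * c) p) = 0 := by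
        intro p hp hpM
        rw [mem_filter] at hp
        have hnd : ¬ p ∣ M := fun hd => hpM (Nat.mem_primeFactors.2 ⟨hp.2, hd, hM0.ne'⟩)
        have hp2 : p ≠ 2 := by
          rintro rfl
          exact hnd (Dvd.intro _ rfl)
        have hpa : ¬ (p : ℤ) ∣ a := fun hd => hnd ((Int.natCast_dvd.1 hd).mul_left 2)
        have h5 := wq_eq a b c p hp.2 hp2 hpa
        have h6 : XX (b ^ 2 - 4 * a * c) p = ((jacobiSym (b ^ 2 - 4 * a * c) p : ℤ) : ℝ) := by
          rw [XX_apply, if_pos (hp.2.odd_of_ne_two hp2)]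
        have h7 : (wq a b c p : ℝ) = ((jacobiSym (b ^ 2 - 4 * a * c) p : ℤ) : ℝ) + 1 := by exact_mod_cast h5
        rw [h6, h7]
        ring
      refine (abs_sum_le_sum_abs _ _).trans ?_
      rw [← sum_filter_add_sum_filter_not ((Icc 1 N).filter Nat.Prime) (fun p => p ∈ M.primeFactors)]
      have h5 : ∑ p ∈ ((Icc 1 N).filter Nat.Prime).filter (fun p => p ∉ M.primeFactors),
          |((wq a b c p : ℝ) - 1 - XX (b ^ 2 - 4 * a * c) p) * (Real.log p / p)| = 0 := by
        refine sum_eq_zero fun p hp => ?_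
        rw [mem_filter] at hp
        rw [h4 p hp.1 hp.2, zero_mul, abs_zero]
      rw [h5, add_zero, hS]
      refine le_trans (sum_le_sum fun p hp => ?_) (sum_le_sum_of_subset_of_nonneg
        (f := fun p : ℕ => (2 * (a : ℝ) + 4) * (Real.log p / p)) ?_ ?_)
      · rw [mem_filter, mem_filter] at hp
        have h2 : (2 : ℝ) ≤ p := by exact_mod_cast hp.1.2.two_le
        have hl : 0 ≤ Real.log p / p := div_nonneg (Real.log_nonneg (by linarith)) (by linarith)
        rw [abs_mul, abs_of_nonneg hl]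
        refine mul_le_mul_of_nonneg_right ?_ hl
        have h6 := wq_le a b c h p hp.1.2
        have h7 := abs_le.1 (XX_abs_le (b ^ 2 - 4 * a * c) p)
        have h8 : (0 : ℝ) ≤ wq a b c p := Nat.cast_nonneg _
        rw [abs_le]
        constructor <;> linarith [h7.1, h7.2]
      · intro p hp
        rw [mem_filter] at hp
        exact hp.2
      · intro p hp _
        have h2 : (2 : ℝ) ≤ p := by exact_mod_cast (Nat.prime_of_mem_primeFactors hp).two_le
        have : 0 ≤ Real.log p := Real.log_nonneg (by linarith)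
        positivity
    have h4 : ∑ p ∈ (Icc 1 N).filter Nat.Prime, (wq a b c p : ℝ) * (Real.log p / p) - ((0 + 1 : ℕ) : ℝ) * Real.log N =
        (∑ p ∈ (Icc 1 N).filter Nat.Prime, Real.log p / p - Real.log N) +
        ∑ p ∈ (Icc 1 N).filter Nat.Prime, XX (b ^ 2 - 4 * a * c) p * (Real.log p / p) +
        ∑ p ∈ (Icc 1 N).filter Nat.Prime,
        ((wq a b c p : ℝ) - 1 - XX (b ^ 2 - 4 * a * c) p) * (Real.log p / p) := by
      have e : ∑ p ∈ (Icc 1 N).filter Nat.Prime, (wq a b c p : ℝ) * (Real.log p / p) =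
          ∑ p ∈ (Icc 1 N).filter Nat.Prime, Real.log p / p +
          ∑ p ∈ (Icc 1 N).filter Nat.Prime, XX (b ^ 2 - 4 * a * c) p * (Real.log p / p) +
          ∑ p ∈ (Icc 1 N).filter Nat.Prime,
          ((wq a b c p : ℝ) - 1 - XX (b ^ 2 - 4 * a * c) p) * (Real.log p / p) := by
        rw [← sum_add_distrib, ← sum_add_distrib]
        refine sum_congr rfl fun p _ => ?_
        ring
      rw [e]
      push_cast
      ring
    rw [h4]
    have h5 := abs_add_le ((∑ p ∈ (Icc 1 N).filter Nat.Prime, Real.log p / p - Real.log N) +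
        ∑ p ∈ (Icc 1 N).filter Nat.Prime, XX (b ^ 2 - 4 * a * c) p * (Real.log p / p))
        (∑ p ∈ (Icc 1 N).filter Nat.Prime,
        ((wq a b c p : ℝ) - 1 - XX (b ^ 2 - 4 * a * c) p) * (Real.log p / p))
    have h6 := abs_add_le (∑ p ∈ (Icc 1 N).filter Nat.Prime, Real.log p / p - Real.log N)
        (∑ p ∈ (Icc 1 N).filter Nat.Prime, XX (b ^ 2 - 4 * a * c) p * (Real.log p / p))
    linarith

end Pool.Agent.H535.AK
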