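import Pool.Agent.H535.AK.Bd
import Pool.Agent.H535.LB.Sqf

set_option autoImplicit false

/-!
The size of the sum of the sieve weights, the classes modulo `k`, and the sum over the large divisors.
-/

open Finset

namespace Pool.Agent.H535.AK

variable {w : ℕ → ℕ} {κ : ℕ} {A : ℝ}

/-- the product over the primes up to `N` -/
noncomputable def PP (w : ℕ → ℕ) (N : ℕ) : ℝ := ∏ p ∈ (Icc 1 N).filter Nat.Prime, (1 + g w p)

theorem sum_hs_le (hw : ∀ p : ℕ, p.Prime → w p < p) (N : ℕ) : ∑ t ∈ Icc 1 N, hs w 1 t ≤ PP w N := by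
  unfold PP
  rw [prod_one_add]
  have h1 : ∑ t ∈ Icc 1 N, hs w 1 t = ∑ t ∈ (Icc 1 N).filter Squarefree, ∏ p ∈ t.primeFactors, g w p := by
    rw [sum_filter]
    refine sum_congr rfl fun t _ => ?_
    unfold hs
    by_cases h : Squarefree t
    · rw [if_pos ⟨h, Nat.coprime_one_right t⟩, if_pos h]
    · rw [if_neg (fun hh => h hh.1), if_neg h]
  have hinj : Set.InjOn Nat.primeFactors ((Icc 1 N).filter Squarefree : Finset ℕ) := by
    intro a ha b hb hab
    rw [mem_coe, mem_filter] at ha hb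
    rw [← Nat.prod_primeFactors_of_squarefree ha.2, ← Nat.prod_primeFactors_of_squarefree hb.2, hab]
  have h2 : ∑ t ∈ (Icc 1 N).filter Squarefree, ∏ p ∈ t.primeFactors, g w p =
      ∑ S ∈ ((Icc 1 N).filter Squarefree).image Nat.primeFactors, ∏ p ∈ S, g w p := by
    rw [sum_image hinj]
  rw [h1, h2]
  refine sum_le_sum_of_subset_of_nonneg ?_ ?_
  · intro S hS
    rw [mem_image] at hS
    obtain ⟨t, ht, rfl⟩ := hS
    rw [mem_filter, mem_Icc] at ht
    rw [mem_powerset]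
    intro p hp
    have hpp := Nat.prime_of_mem_primeFactors hp
    rw [mem_filter, mem_Icc]
    exact ⟨⟨hpp.pos, (Nat.le_of_mem_primeFactors hp).trans ht.1.2⟩, hpp⟩
  · intro S hS _
    rw [mem_powerset] at hS
    exact prod_nonneg fun p hp => g_nonneg hw p (mem_filter.1 (hS hp)).2

theorem PP_one_le (hw : ∀ p : ℕ, p.Prime → w p < p) (N : ℕ) : 1 ≤ PP w N := by
  unfold PP
  have h1 : ∏ p ∈ (Icc 1 N).filter Nat.Prime, (1 : ℝ) ≤ ∏ p ∈ (Icc 1 N).filter Nat.Prime, (1 + g w p) := by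
    refine prod_le_prod (fun p _ => zero_le_one) fun p hp => ?_
    have := g_nonneg hw p (mem_filter.1 hp).2
    linarith
  rwa [prod_const_one] at h1

theorem PP_mono (hw : ∀ p : ℕ, p.Prime → w p < p) {M N : ℕ} (h : M ≤ N) : PP w M ≤ PP w N := by
  have hsub : (Icc 1 M).filter Nat.Prime ⊆ (Icc 1 N).filter Nat.Prime := by
    intro p hp
    rw [mem_filter, mem_Icc] at hp ⊢
    exact ⟨⟨hp.1.1, hp.1.2.trans h⟩, hp.2⟩
  have h1 : PP w N = (∏ p ∈ (Icc 1 N).filter Nat.Prime \ (Icc 1 M).filter Nat.Prime, (1 + g w p)) * PP w M := by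
    unfold PP
    rw [prod_sdiff hsub]
  have h2 : 1 ≤ ∏ p ∈ (Icc 1 N).filter Nat.Prime \ (Icc 1 M).filter Nat.Prime, (1 + g w p) := by
    have h3 : ∏ p ∈ (Icc 1 N).filter Nat.Prime \ (Icc 1 M).filter Nat.Prime, (1 : ℝ) ≤
        ∏ p ∈ (Icc 1 N).filter Nat.Prime \ (Icc 1 M).filter Nat.Prime, (1 + g w p) := by
      refine prod_le_prod (fun p _ => zero_le_one) fun p hp => ?_
      have := g_nonneg hw p (mem_filter.1 (mem_sdiff.1 hp).1).2
      linarith
    rwa [prod_const_one] at h3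
  rw [h1]
  exact le_mul_of_one_le_left (zero_le_one.trans (PP_one_le hw M)) h2

theorem PP_le (h : Dim w κ A) : ∃ (Ct : ℝ) (D : ℕ), 1 ≤ Ct ∧ ∀ N : ℕ, 3 ≤ N →
    PP w N ≤ Ct * Real.log N ^ D := by
  obtain ⟨C, hC⟩ := Pool.Agent.Erdos456.Mert.mertens_inv
  have hA := h.nonneg
  have hAA : 0 ≤ A * (A + 1) := by positivity
  have hC0 : 0 ≤ C := (abs_nonneg _).trans (hC 3 le_rfl)
  refine ⟨Real.exp (A * (A + 1) * C), ⌈A * (A + 1)⌉₊, Real.one_le_exp (by positivity), fun N hN => ?_⟩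
  have hN3 : (3 : ℝ) ≤ N := by exact_mod_cast hN
  have hlog : 1 ≤ Real.log N := by
    rw [Real.le_log_iff_exp_le (by linarith)]
    have := Real.exp_one_lt_d9
    linarith
  have hll : 0 ≤ Real.log (Real.log N) := Real.log_nonneg hlog
  have h1 : ∑ p ∈ (Icc 1 N).filter Nat.Prime, (1 : ℝ) / p ≤ Real.log (Real.log N) + C := by
    have := (abs_le.1 (hC N hN)).2
    linarith
  have h2 : PP w N ≤ Real.exp (∑ p ∈ (Icc 1 N).filter Nat.Prime, g w p) := by
    unfold PP
    rw [Real.exp_sum]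
    refine prod_le_prod (fun p hp => ?_) fun p hp => ?_
    · have := g_nonneg h.lt p (mem_filter.1 hp).2
      linarith
    · have := Real.add_one_le_exp (g w p)
      linarith
  have h3 : ∑ p ∈ (Icc 1 N).filter Nat.Prime, g w p ≤ A * (A + 1) * (Real.log (Real.log N) + C) := by
    refine le_trans ?_ (mul_le_mul_of_nonneg_left h1 hAA)
    rw [mul_sum]
    refine sum_le_sum fun p hp => ?_
    refine (h.g_le p (mem_filter.1 hp).2).trans (le_of_eq ?_)
    ring
  have h4 : A * (A + 1) * (Real.log (Real.log N) + C) ≤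
      A * (A + 1) * C + (⌈A * (A + 1)⌉₊ : ℝ) * Real.log (Real.log N) := by
    have := mul_le_mul_of_nonneg_right (Nat.le_ceil (A * (A + 1))) hll
    linarith
  refine h2.trans ((Real.exp_le_exp.2 (h3.trans h4)).trans (le_of_eq ?_))
  rw [Real.exp_add, ← Real.log_pow, Real.exp_log (pow_pos (by linarith) _)]

/-- the sum over the divisors, divided by `k` -/
noncomputable def iv (w : ℕ → ℕ) (k : ℕ) : ℝ := (1 / (k : ℝ)) * ∑ r ∈ k.divisors, hs w 1 r

theorem iv_nonneg (hw : ∀ p : ℕ, p.Prime → w p < p) (k : ℕ) : 0 ≤ iv w k :=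
  mul_nonneg (by positivity) (sum_nonneg fun r _ => hs_nonneg hw 1 r)

theorem iv_le (hw : ∀ p : ℕ, p.Prime → w p < p) (k N : ℕ) (hN : k ≤ N) :
    iv w k ≤ PP w N / k := by
  unfold iv
  rw [one_div_mul_eq_div]
  refine div_le_div_of_nonneg_right ?_ (Nat.cast_nonneg _)
  refine le_trans ?_ ((sum_hs_le hw k).trans (PP_mono hw hN))
  refine sum_le_sum_of_subset_of_nonneg ?_ fun r _ _ => hs_nonneg hw 1 r
  intro r hr
  rw [Nat.mem_divisors] at hr
  rw [mem_Icc]
  exact ⟨Nat.pos_of_dvd_of_pos hr.1 (Nat.pos_of_ne_zero hr.2), Nat.le_of_dvd (Nat.pos_of_ne_zero hr.2) hr.1⟩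

theorem sum_div_hs_mul {a b : ℕ} (hab : a.Coprime b) : ∑ r ∈ (a * b).divisors, hs w 1 r =
    (∑ r ∈ a.divisors, hs w 1 r) * ∑ r ∈ b.divisors, hs w 1 r := by
  rw [Nat.divisors_mul, Finset.mul_def, sum_image hab.mul_injOn_divisors, sum_product, sum_mul_sum]
  refine sum_congr rfl fun d hd => sum_congr rfl fun e he => ?_
  simp only
  rw [Nat.mem_divisors] at hd he
  rw [hs_mul 1 d e ((hab.coprime_dvd_left hd.1).coprime_dvd_right he.1)]

theorem sum_div_hs_pow (p j : ℕ) (hp : p.Prime) (hj : 0 < j) :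
    ∑ r ∈ (p ^ j).divisors, hs w 1 r = 1 + g w p := by
  rw [Nat.divisors_prime_pow hp, sum_map]
  simp only [Function.Embedding.coeFn_mk]
  obtain ⟨i, rfl⟩ : ∃ i, j = i + 1 := ⟨j - 1, by omega⟩
  rw [sum_range_succ', sum_range_succ']
  have h1 : ∑ l ∈ range i, hs w 1 (p ^ (l + 1 + 1)) = 0 := by
    refine sum_eq_zero fun l _ => hs_zero_of_not _ _ ?_
    intro hsq
    have h3 := hsq p (by
      rw [← pow_two]
      exact pow_dvd_pow p (by omega))
    exact hp.one_lt.ne' (Nat.isUnit_iff.1 h3)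
  rw [h1, zero_add, zero_add, pow_one, pow_zero, hs_one, hs_prime_eq 1 p hp (by
    intro hd
    exact hp.one_lt.ne' (Nat.dvd_one.1 hd))]
  ring

/-- the classes modulo `k` which avoid the removed classes at all the primes dividing `k` -/
noncomputable def Alw (B : ℕ → Finset ℤ) (k : ℕ) : Finset ℕ := by
  classical
  exact (range k).filter (fun a => ∀ p : ℕ, p.Prime → p ∣ k → ∀ b ∈ B p, ¬ (p : ℤ) ∣ (a : ℤ) - b)

theorem mem_Alw (B : ℕ → Finset ℤ) (k a : ℕ) :
    a ∈ Alw B k ↔ a < k ∧ ∀ p : ℕ, p.Prime → p ∣ k → ∀ b ∈ B p, ¬ (p : ℤ) ∣ (a : ℤ) - b := by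
  classical
  unfold Alw
  rw [mem_filter, mem_range]

theorem Alw_mul (B : ℕ → Finset ℤ) {m n : ℕ} (hm : 0 < m) (hn : 0 < n) (hmn : m.Coprime n) :
    (Alw B m).card * (Alw B n).card ≤ (Alw B (m * n)).card := by
  rw [← card_product]
  refine card_le_card_of_injOn (fun t => (Nat.chineseRemainder hmn t.1 t.2 : ℕ)) ?_ ?_
  · rintro ⟨x, y⟩ ht
    rw [mem_coe, mem_product, mem_Alw, mem_Alw] at ht
    rw [mem_coe, mem_Alw]
    refine ⟨Nat.chineseRemainder_lt_mul hmn _ _ hm.ne' hn.ne', fun p hp hpmn b hb hd => ?_⟩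
    have h1 := (Nat.chineseRemainder hmn x y).2.1
    have h2 := (Nat.chineseRemainder hmn x y).2.2
    simp only at hd h1 h2 ht
    rcases (Nat.Prime.dvd_mul hp).1 hpmn with h | h
    · refine ht.1.2 p hp h b hb ?_
      have h3 : (p : ℤ) ∣ (x : ℤ) - (Nat.chineseRemainder hmn x y : ℕ) :=
        (Int.natCast_dvd_natCast.2 h).trans (Nat.modEq_iff_dvd.1 h1)
      have := dvd_add h3 hd
      have e : (x : ℤ) - (Nat.chineseRemainder hmn x y : ℕ) + ((Nat.chineseRemainder hmn x y : ℕ) - b) = x - b := by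
        ring
      rwa [e] at this
    · refine ht.2.2 p hp h b hb ?_
      have h3 : (p : ℤ) ∣ (y : ℤ) - (Nat.chineseRemainder hmn x y : ℕ) :=
        (Int.natCast_dvd_natCast.2 h).trans (Nat.modEq_iff_dvd.1 h2)
      have := dvd_add h3 hd
      have e : (y : ℤ) - (Nat.chineseRemainder hmn x y : ℕ) + ((Nat.chineseRemainder hmn x y : ℕ) - b) = y - b := by
        ring
      rwa [e] at this
  · rintro ⟨x, y⟩ ht ⟨x', y'⟩ ht' h
    rw [mem_coe, mem_product, mem_Alw, mem_Alw] at ht ht'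
    simp only at h ht ht'
    have h1 := (Nat.chineseRemainder hmn x y).2
    have h2 := (Nat.chineseRemainder hmn x' y').2
    rw [h] at h1
    have e1 : x ≡ x' [MOD m] := h1.1.symm.trans h2.1
    have e2 : y ≡ y' [MOD n] := h1.2.symm.trans h2.2
    have e3 := Nat.ModEq.eq_of_lt_of_lt e1 ht.1.1 ht'.1.1
    have e4 := Nat.ModEq.eq_of_lt_of_lt e2 ht.2.1 ht'.2.1
    rw [e3, e4]

theorem Alw_pow (B : ℕ → Finset ℤ) (p j : ℕ) (hp : p.Prime) (hj : 0 < j) (hB : (B p).card ≤ w p) :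
    p ^ j ≤ (Alw B (p ^ j)).card + w p * p ^ (j - 1) := by
  classical
  have hp0 : (p : ℤ) ≠ 0 := by exact_mod_cast hp.ne_zero
  have h1 : range (p ^ j) ⊆ Alw B (p ^ j) ∪
      (B p).biUnion (fun b => (range (p ^ (j - 1))).image (fun c => c * p + (b % p).toNat)) := by
    intro a ha
    rw [mem_union]
    by_cases h : a ∈ Alw B (p ^ j)
    · exact Or.inl h
    right
    rw [mem_Alw] at h
    push Not at h
    obtain ⟨q, hq, hqd, b, hb, hd⟩ := h (mem_range.1 ha)
    have hqp : q = p := (Nat.prime_dvd_prime_iff_eq hq hp).1 (hq.dvd_of_dvd_pow hqd)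
    subst hqp
    rw [mem_biUnion]
    refine ⟨b, hb, ?_⟩
    rw [mem_image]
    refine ⟨a / q, ?_, ?_⟩
    · rw [mem_range] at ha ⊢
      rw [Nat.div_lt_iff_lt_mul hp.pos, ← pow_succ, show j - 1 + 1 = j by omega]
      exact ha
    · have h2 : (b % q).toNat = a % q := by
        have h3 : b % q = ((a % q : ℕ) : ℤ) := by
          rw [Int.natCast_mod]
          exact Int.modEq_iff_dvd.2 hd
        rw [h3, Int.toNat_natCast]
      rw [h2]
      have := Nat.div_add_mod a q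
      rw [mul_comm]
      exact this
  have h2 := card_le_card h1
  rw [card_range] at h2
  refine h2.trans ((card_union_le _ _).trans (Nat.add_le_add_left ?_ _))
  refine card_biUnion_le.trans ?_
  calc ∑ b ∈ B p, ((range (p ^ (j - 1))).image (fun c => c * p + (b % p).toNat)).card
      ≤ ∑ b ∈ B p, p ^ (j - 1) := by
        refine sum_le_sum fun b _ => ?_
        refine card_image_le.trans ?_
        rw [card_range]
    _ = (B p).card * p ^ (j - 1) := by rw [sum_const, smul_eq_mul]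
    _ ≤ w p * p ^ (j - 1) := Nat.mul_le_mul_right _ hB

/-- the number of the allowed classes -/
theorem Alw_card (hw : ∀ p : ℕ, p.Prime → w p < p) (B : ℕ → Finset ℤ) (hB : ∀ p : ℕ, p.Prime → (B p).card ≤ w p)
    (k : ℕ) (hk : 1 ≤ k) : (k : ℝ) ≤ (Alw B k).card * ∑ r ∈ k.divisors, hs w 1 r := by
  induction k using Nat.recOnPosPrimePosCoprime with
  | prime_pow p j hp hj =>
    rw [sum_div_hs_pow p j hp hj]
    have h1 := Alw_pow B p j hp hj (hB p hp)
    have h2 : ((p ^ j : ℕ) : ℝ) ≤ (Alw B (p ^ j)).card + w p * (p : ℝ) ^ (j - 1) := by exact_mod_cast h1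
    have h3 : ((p ^ j : ℕ) : ℝ) = p * (p : ℝ) ^ (j - 1) := by
      push_cast
      rw [← pow_succ', show j - 1 + 1 = j by omega]
    have hwp : (w p : ℝ) < p := by exact_mod_cast hw p hp
    have hpos : 0 < (p : ℝ) - w p := by linarith
    have h4 : 1 + g w p = p / ((p : ℝ) - w p) := by
      unfold g
      field_simp
      ring
    rw [h4, h3, mul_div_assoc', le_div_iff₀ hpos]
    rw [h3] at h2
    have hp0 : (0 : ℝ) ≤ p := Nat.cast_nonneg _
    have h5 : ((p : ℝ) - w p) * (p : ℝ) ^ (j - 1) ≤ (Alw B (p ^ j)).card := by linarith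
    calc (p : ℝ) * (p : ℝ) ^ (j - 1) * (p - w p) = (((p : ℝ) - w p) * (p : ℝ) ^ (j - 1)) * p := by ring
      _ ≤ (Alw B (p ^ j)).card * p := mul_le_mul_of_nonneg_right h5 hp0
  | zero => omega
  | one =>
    have h1 : (Alw B 1).card = 1 := by
      have h2 : Alw B 1 = {0} := by
        ext a
        rw [mem_Alw, mem_singleton]
        constructor
        · intro h
          omega
        · intro h
          refine ⟨by omega, fun p hp hp1 => ?_⟩
          exact absurd (Nat.dvd_one.1 hp1) hp.one_lt.ne'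
      rw [h2, card_singleton]
    rw [h1]
    simp [hs_one]
  | coprime a b ha hb hab iha ihb =>
    rw [sum_div_hs_mul hab]
    have h1 := iha (by omega)
    have h2 := ihb (by omega)
    have h3 : ((Alw B a).card : ℝ) * (Alw B b).card ≤ (Alw B (a * b)).card := by
      exact_mod_cast Alw_mul B (by omega) (by omega) hab
    have ha0 : 0 ≤ ∑ r ∈ a.divisors, hs w 1 r := sum_nonneg fun r _ => hs_nonneg hw 1 r
    have hb0 : 0 ≤ ∑ r ∈ b.divisors, hs w 1 r := sum_nonneg fun r _ => hs_nonneg hw 1 r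
    calc ((a * b : ℕ) : ℝ) = (a : ℝ) * b := by push_cast; ring
      _ ≤ ((Alw B a).card * ∑ r ∈ a.divisors, hs w 1 r) * ((Alw B b).card * ∑ r ∈ b.divisors, hs w 1 r) :=
          mul_le_mul h1 h2 (Nat.cast_nonneg _) (mul_nonneg (Nat.cast_nonneg _) ha0)
      _ = ((Alw B a).card * (Alw B b).card) * ((∑ r ∈ a.divisors, hs w 1 r) * ∑ r ∈ b.divisors, hs w 1 r) := by
          ring
      _ ≤ _ := mul_le_mul_of_nonneg_right h3 (mul_nonneg ha0 hb0)

/-- the contribution of the large divisors -/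
theorem tail_sum (hw : ∀ p : ℕ, p.Prime → w p < p) (K R : ℕ) (hK : 1 ≤ K) (hR : 1 ≤ R) :
    ∑ k ∈ Ioc K (2 * K), (1 / (k : ℝ)) * ∑ r ∈ k.divisors.filter (fun r => R < r), hs w 1 r ≤
      (3 / R) * PP w (2 * K) := by
  have hK0 : (0 : ℝ) < K := by exact_mod_cast hK
  have hR0 : (0 : ℝ) < R := by exact_mod_cast hR
  have h1 : ∑ k ∈ Ioc K (2 * K), (1 / (k : ℝ)) * ∑ r ∈ k.divisors.filter (fun r => R < r), hs w 1 r ≤
      ∑ k ∈ Ioc K (2 * K), (1 / (K : ℝ)) * ∑ r ∈ Ioc R (2 * K), (if r ∣ k then hs w 1 r else 0) := by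
    refine sum_le_sum fun k hk => ?_
    rw [mem_Ioc] at hk
    have hk0 : (0 : ℝ) < k := by exact_mod_cast (by omega : 0 < k)
    refine mul_le_mul ?_ ?_ (sum_nonneg fun r _ => hs_nonneg hw 1 r) (by positivity)
    · apply one_div_le_one_div_of_le hK0
      exact_mod_cast hk.1.le
    · rw [← sum_filter]
      refine sum_le_sum_of_subset_of_nonneg ?_ fun r _ _ => hs_nonneg hw 1 r
      intro r hr
      rw [mem_filter, Nat.mem_divisors] at hr
      rw [mem_filter, mem_Ioc]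
      exact ⟨⟨hr.2, (Nat.le_of_dvd (by omega) hr.1.1).trans hk.2⟩, hr.1.1⟩
  refine h1.trans ?_
  rw [← mul_sum, sum_comm]
  have h2 : ∀ r ∈ Ioc R (2 * K), ∑ k ∈ Ioc K (2 * K), (if r ∣ k then hs w 1 r else 0) ≤
      (3 * K / R) * hs w 1 r := by
    intro r hr
    rw [mem_Ioc] at hr
    have hr1 : 1 ≤ r := by omega
    have hr0 : (0 : ℝ) < r := by exact_mod_cast hr1
    rw [← sum_filter, sum_const, nsmul_eq_mul]
    have h3 := Pool.Agent.H535.LB.mult_count K r hr1
    have h4 : (K : ℝ) / r + 1 ≤ 3 * K / r := by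
      have h5 : (r : ℝ) ≤ 2 * K := by exact_mod_cast hr.2
      have h6 : 1 ≤ 2 * (K : ℝ) / r := by
        rw [le_div_iff₀ hr0]
        linarith
      have h7 : 3 * (K : ℝ) / r = K / r + 2 * K / r := by ring
      linarith
    have h5 : 3 * (K : ℝ) / r ≤ 3 * K / R :=
      div_le_div_of_nonneg_left (by positivity) hR0 (by exact_mod_cast hr.1.le)
    exact mul_le_mul_of_nonneg_right (h3.trans (h4.trans h5)) (hs_nonneg hw 1 r)
  have h3 := sum_le_sum h2
  rw [← mul_sum] at h3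
  have h4 : ∑ r ∈ Ioc R (2 * K), hs w 1 r ≤ PP w (2 * K) := by
    refine le_trans ?_ (sum_hs_le hw (2 * K))
    refine sum_le_sum_of_subset_of_nonneg ?_ fun r _ _ => hs_nonneg hw 1 r
    intro r hr
    rw [mem_Ioc] at hr
    rw [mem_Icc]
    omega
  calc (1 / (K : ℝ)) * ∑ r ∈ Ioc R (2 * K), ∑ k ∈ Ioc K (2 * K), (if r ∣ k then hs w 1 r else 0)
      ≤ (1 / (K : ℝ)) * ((3 * K / R) * ∑ r ∈ Ioc R (2 * K), hs w 1 r) :=
        mul_le_mul_of_nonneg_left h3 (by positivity)
    _ ≤ (1 / (K : ℝ)) * ((3 * K / R) * PP w (2 * K)) := by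
        refine mul_le_mul_of_nonneg_left (mul_le_mul_of_nonneg_left h4 (by positivity)) (by positivity)
    _ = (3 / R) * PP w (2 * K) := by
        field_simp

end Pool.Agent.H535.AK
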