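import Pool.Agent.H535.AK.Good
import Pool.Agent.H535.AK.Tot
import Pool.Agent.H535.AW.Var

set_option autoImplicit false

/-!
The variance over the residue classes, summed over the moduli in `(K, 2K]`: abstract form.
-/

open Finset

namespace Pool.Agent.H535.AK

open Pool.Agent.Helper112 Pool.Agent.W110.HV
open Pool.Agent.H535.AW (SX GG SC var_parseval split_fractions S0_le GF)

variable {w : ℕ → ℕ}

/-- one modulus -/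
theorem D_ge (Q X Y n N R k : ℕ) (hk : 0 < k) (hN : 0 < N) (hRN : R * (n + 1) ≤ N) (hRQ : R ≤ Q)
    (v : ℕ → ℂ)
    (hge : ∀ r : ℕ, 1 ≤ r → r ≤ Q → hs w 1 r * ‖∑ n ∈ Icc 1 X, v n‖ ^ 2 ≤ GG X v r) :
    (1 / (k : ℝ)) * ∑ j ∈ GF n N R k, ‖SX X v ((j : ℝ) / k)‖ ^ 2 -
      ‖∑ n ∈ Icc 1 X, v n‖ ^ 2 * ((1 / (k : ℝ)) * ∑ r ∈ k.divisors.filter (fun r => R < r), hs w 1 r) ≤
      ∑ a ∈ range k, ‖SC X Y k v a‖ ^ 2 - ‖∑ n ∈ Icc 1 X, v n‖ ^ 2 * iv w k := by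
  have hk0 : (0 : ℝ) < k := by exact_mod_cast hk
  set S0 := ‖∑ n ∈ Icc 1 X, v n‖ ^ 2 with hS0
  rw [var_parseval X Y k hk v]
  have h1 := split_fractions X n N R k hk hN hRN v
  have h2 : S0 * ∑ r ∈ k.divisors.filter (fun r => r ≤ R), hs w 1 r ≤
      ∑ r ∈ k.divisors.filter (fun r => r ≤ R), GG X v r := by
    rw [mul_sum]
    refine sum_le_sum fun r hr => ?_
    rw [mem_filter, Nat.mem_divisors] at hr
    have := hge r (Nat.pos_of_dvd_of_pos hr.1.1 hk) (hr.2.trans hRQ)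
    linarith
  have h4 : k.divisors.filter (fun r => ¬ r ≤ R) = k.divisors.filter (fun r => R < r) := by
    apply filter_congr
    intro r _
    exact not_le
  have h5 : S0 * iv w k = (1 / (k : ℝ)) * (S0 * (∑ r ∈ k.divisors.filter (fun r => r ≤ R), hs w 1 r +
      ∑ r ∈ k.divisors.filter (fun r => R < r), hs w 1 r)) := by
    unfold iv
    rw [← sum_filter_add_sum_filter_not k.divisors (fun r => r ≤ R), h4]
    ring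
  rw [h5]
  have h6 : (1 / (k : ℝ)) * (S0 * ∑ r ∈ k.divisors.filter (fun r => r ≤ R), hs w 1 r +
      ∑ j ∈ GF n N R k, ‖SX X v ((j : ℝ) / k)‖ ^ 2) ≤
      (1 / (k : ℝ)) * ∑ j ∈ range k, ‖SX X v ((j : ℝ) / k)‖ ^ 2 :=
    mul_le_mul_of_nonneg_left (by linarith) (by positivity)
  have h7 : (1 / (k : ℝ)) * (S0 * ∑ r ∈ k.divisors.filter (fun r => r ≤ R), hs w 1 r +
      ∑ j ∈ GF n N R k, ‖SX X v ((j : ℝ) / k)‖ ^ 2) =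
      (1 / (k : ℝ)) * ∑ j ∈ GF n N R k, ‖SX X v ((j : ℝ) / k)‖ ^ 2 +
      (1 / (k : ℝ)) * (S0 * ∑ r ∈ k.divisors.filter (fun r => r ≤ R), hs w 1 r) := by ring
  rw [h7] at h6
  have h8 : (1 / (k : ℝ)) * (S0 * (∑ r ∈ k.divisors.filter (fun r => r ≤ R), hs w 1 r +
      ∑ r ∈ k.divisors.filter (fun r => R < r), hs w 1 r)) =
      (1 / (k : ℝ)) * (S0 * ∑ r ∈ k.divisors.filter (fun r => r ≤ R), hs w 1 r) +
      S0 * ((1 / (k : ℝ)) * ∑ r ∈ k.divisors.filter (fun r => R < r), hs w 1 r) := by ring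
  rw [h8]
  linarith

/-- the sum over the moduli -/
theorem sum_D (hw : ∀ p : ℕ, p.Prime → w p < p) (Q M X Y K n N R G : ℕ) (hQ : 0 < Q) (hM : M = N * G) (hG : 0 < G)
    (hN : 0 < N) (hn : 0 < n) (hnK : n ≤ K) (hR : 0 < R) (hRN : R * (n + 1) ≤ N) (hRQ : R ≤ Q) (v : ℕ → ℂ)
    (hge : ∀ r : ℕ, 1 ≤ r → r ≤ Q → hs w 1 r * ‖∑ n ∈ Icc 1 X, v n‖ ^ 2 ≤ GG X v r)
    (lm T : ℝ) (hT : 1 ≤ T) (hlm : 0 ≤ lm) (hmp : MP Q X v lm T)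
    (hdiv : ∀ r : ℕ, 1 ≤ r → r ≤ Q → r ∣ M) (hdivK : ∀ k : ℕ, K < k → k ≤ 2 * K → k ∣ M)
    (hXM : X ≤ M) (hRT : (R : ℝ) * T ≤ Q)
    (hTn : 2 * T * ((Q : ℝ) + 1) * (1 / ((n : ℝ) + 1) + (R : ℝ) / N) ≤ 1)
    (η : ℝ) (hη : 0 < η) (hη1 : η ≤ 1)
    (B : ℝ) (hB : B = (1 - (n : ℝ) / K) / N - (2 / ((n : ℝ) + 1) + 1 / R) / K) (hB0 : 0 ≤ B) :
    ((K : ℝ) - n) * B * (N * ((1 - η) * (1 - lm) - (1 / η) * (2 * Real.pi * X / N) ^ 2)) *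
        ∑ n ∈ Icc 1 X, ‖v n‖ ^ 2 -
      (X * ∑ n ∈ Icc 1 X, ‖v n‖ ^ 2) * ((3 / R) * PP w (2 * K)) ≤
      ∑ k ∈ Ioc K (2 * K), (∑ a ∈ range k, ‖SC X Y k v a‖ ^ 2 -
        ‖∑ n ∈ Icc 1 X, v n‖ ^ 2 * iv w k) := by
  have h1 := Pool.Agent.H535.AK.good_part Q M X K n N R G hQ hM hG hN hn hnK hR v lm T hT hlm hmp hdiv hdivK
    hXM hRT hTn η hη hη1 B hB hB0
  have h2 := tail_sum hw K R (by omega) hR
  have h3 : ∑ k ∈ Ioc K (2 * K), ((1 / (k : ℝ)) * ∑ j ∈ GF n N R k, ‖SX X v ((j : ℝ) / k)‖ ^ 2 -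
      ‖∑ n ∈ Icc 1 X, v n‖ ^ 2 * ((1 / (k : ℝ)) * ∑ r ∈ k.divisors.filter (fun r => R < r), hs w 1 r)) ≤
      ∑ k ∈ Ioc K (2 * K), (∑ a ∈ range k, ‖SC X Y k v a‖ ^ 2 -
        ‖∑ n ∈ Icc 1 X, v n‖ ^ 2 * iv w k) := by
    refine sum_le_sum fun k hk => ?_
    rw [mem_Ioc] at hk
    exact D_ge Q X Y n N R k (by omega) hN hRN hRQ v hge
  refine le_trans ?_ h3
  rw [sum_sub_distrib, ← mul_sum]
  have h4 : ‖∑ n ∈ Icc 1 X, v n‖ ^ 2 * ∑ k ∈ Ioc K (2 * K), (1 / (k : ℝ)) *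
      ∑ r ∈ k.divisors.filter (fun r => R < r), hs w 1 r ≤
      (X * ∑ n ∈ Icc 1 X, ‖v n‖ ^ 2) * ((3 / R) * PP w (2 * K)) := by
    refine mul_le_mul (S0_le X v) h2 ?_ (by positivity)
    exact sum_nonneg fun k _ => mul_nonneg (by positivity) (sum_nonneg fun r _ => hs_nonneg hw 1 r)
  linarith

end Pool.Agent.H535.AK
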